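import Mathlib
import Pool.Agent.Lib.MP_caab05_ag.WZ.Stmt

/-! Statements of the steps for all abelian varieties with complex multiplication. -/

namespace Pool.Agent.Lib.MP_caab05_ag.CM

open Pool.Agent.Lib.MP_caab05_ag.LT (AbVar)
open Pool.Agent.Lib.MP_caab05_ag.GB (Der Emb cj IsCj IsType elt Tw V Mat Zg Sg IsTw app per cst)

/-- the Taylor coefficients of the affine coordinates are killed by all derivations -/
def JetS : Prop :=
  ∀ (d M : ℕ) (A : AbVar d M) (D : Der) (i : Fin (M + 1)),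
    Tw D (fun z => A.θ z i / A.θ z 0) fun _ => 0

/-- a homomorphism to a rigid theta model is defined over the algebraic numbers -/
def HomS : Prop :=
  ∀ (d M g : ℕ) (A : AbVar d M) (D : Der) (τ M' N : Mat g) (c : ℂ) (a : Fin d → V g), Sg τ →
    IsTw D τ M' 0 N c → (∀ y ∈ A.Λ, ∃ p : Zg g, ∑ k, y k • a k = per τ (cst p)) →
    ∀ k, (app M' (a k) + fun j => D (a k j)) = 0

/-- the periods of an abelian variety with complex multiplication -/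
def PerS : Prop :=
  ∀ (d M : ℕ) (A : AbVar d M) (L : Type) [Field L] [NumberField L] (c : L ≃ₐ[ℚ] L)
    (Ψ : Set (Emb L)) (l : Emb L → Fin d) (ω : Fin d → ℂ), IsCj c → IsType Ψ → (∀ k, ω k ≠ 0) →
    (∀ y ∈ A.Λ, ∃ x : L, ∀ ψ ∈ Ψ, y (l ψ) = ψ x * ω (l ψ)) →
    ∀ (D : Der), ∀ ψ ∈ Ψ, D (ω (l ψ)) = elt D Ψ ψ * ω (l ψ)

/-- the two types are primitive and not conjugate -/
def Sep {L : Type} [Field L] [NumberField L] (Φ : Fin 2 → Set (Emb L)) : Prop :=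
  ∀ (a : L ≃ₐ[ℚ] L) (i j : Fin 2), (∀ χ ∈ Φ i, χ.comp (a : L →+* L) ∈ Φ j) → a = 1 ∧ i = j

/-- the field is normal -/
def Nor (L : Type) [Field L] [NumberField L] : Prop :=
  ∀ φ ψ : Emb L, ∃ σ : L ≃ₐ[ℚ] L, ψ = φ.comp (σ : L →+* L)

/-- every abelian subvariety contains a factor -/
def GenS : Prop :=
  ∀ (L : Type) [Field L] [NumberField L] (Φ : Fin 2 → Set (Emb L)) (d M : ℕ)
    (e : Fin d → Emb L × Fin 2) (A : AbVar d M) (ω : Fin d → ℂ)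
    (𝔪 : Submodule ℤ (Fin 2 → L)), (∀ i, IsType (Φ i)) →
    Function.Injective e → Set.range e = {p | p.1 ∈ Φ p.2} → (∀ k, ω k ≠ 0) →
    (∀ y, y ∈ A.Λ ↔ ∃ x ∈ 𝔪, y = fun k => (e k).1 (x (e k).2) * ω k) → Nor L → Sep Φ →
    ∀ U : Submodule ℂ (Fin d → ℂ),
      Submodule.span ℝ ((U : Set (Fin d → ℂ)) ∩ (A.Λ : Set (Fin d → ℂ))) = U.restrictScalars ℝ →
      U ≠ ⊥ → ∃ i, ∀ k, (e k).2 = i → Pi.single k 1 ∈ U

/-- two adjacent primitive types which are not conjugate -/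
def PairS : Prop :=
  ∀ (L : Type) [Field L] [NumberField L] (c : L ≃ₐ[ℚ] L), IsCj c → c ≠ 1 →
    22 ≤ Module.finrank ℚ L → Nor L →
    ∃ (Φ : Fin 2 → Set (Emb L)) (e : Fin (Module.finrank ℚ L) → Emb L × Fin 2),
      (∀ i, IsType (Φ i)) ∧ Function.Injective e ∧ Set.range e = {p | p.1 ∈ Φ p.2} ∧ Sep Φ ∧
      2 * (Set.range fun k => (e k).1).ncard = Module.finrank ℚ L + 2

/-- the lower bound for all periods of a normal field -/
def SerreS : Prop :=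
  ∀ (L : Type) [Field L] [NumberField L] (c : L ≃ₐ[ℚ] L), IsCj c → c ≠ 1 →
    22 ≤ Module.finrank ℚ L → Nor L →
    ∀ F : IntermediateField ℚ ℂ, (∀ D : Der, (∀ y ∈ F, D y = 0) → ∃ μ : ℂ,
      D Real.pi = 2 * μ * Real.pi ∧ ∀ Ψ : Set (Emb L), IsType Ψ → ∀ φ ∈ Ψ, elt D Ψ φ = μ) →
    ((Module.finrank ℚ L : ℕ) : Cardinal) ≤ 2 * Algebra.trdeg ℚ F

/-- the transcendence degree is the rank of the derivatives -/
def RankS : Prop :=
  ∀ (ι : Type) [Fintype ι] (y : ι → ℂ),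
    Algebra.trdeg ℚ (IntermediateField.adjoin ℚ (Set.range y)) =
      (Module.finrank ℂ (Submodule.span ℂ (Set.range fun D : Der => fun i => D (y i))) : ℕ)

/-- the logarithmic derivatives of weight zero are exactly the odd functions -/
def SurjS : Prop :=
  ∀ (L : Type) [Field L] [NumberField L] (c : L ≃ₐ[ℚ] L) (φ₀ : Emb L), IsCj c → c ≠ 1 →
    22 ≤ Module.finrank ℚ L → Nor L →
    (∀ D : Der, ∃ r : Emb L → ℂ, (∀ ψ, r (cj ψ) = -r ψ) ∧ ∀ Ψ : Set (Emb L), IsType Ψ →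
      φ₀ ∈ Ψ → elt D Ψ φ₀ - D Real.pi / (2 * Real.pi) = ∑ ψ : Emb L, Ψ.indicator r ψ) ∧
    ∀ r : Emb L → ℂ, (∀ ψ, r (cj ψ) = -r ψ) → ∃ D : Der, ∀ Ψ : Set (Emb L), IsType Ψ →
      φ₀ ∈ Ψ → elt D Ψ φ₀ - D Real.pi / (2 * Real.pi) = ∑ ψ : Emb L, Ψ.indicator r ψ

/-- a large normal field with complex conjugation which receives the algebra -/
def FldS : Prop :=
  ∀ (E : Type) [CommRing E] [Algebra ℚ E] [Module.Finite ℚ E] (c : E →+* E),
    (∀ (ψ : E →+* ℂ) (x : E), ψ (c x) = starRingEnd ℂ (ψ x)) →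
    ∃ (L : Type) (_ : Field L) (_ : NumberField L) (c' : L ≃ₐ[ℚ] L) (φ₀ : Emb L), IsCj c' ∧
      c' ≠ 1 ∧ 22 ≤ Module.finrank ℚ L ∧ Nor L ∧
      ∀ ψ : E →+* ℂ, ∃ ψ' : E →+* L, φ₀.comp ψ' = ψ

/-- embeddings are conjugate under automorphisms of the complex numbers -/
def ExtS : Prop :=
  ∀ (L : Type) [Field L] [NumberField L] (φ ψ : Emb L),
    ∃ σ : ℂ ≃+* ℂ, (σ : ℂ →+* ℂ).comp φ = ψ

/-- the rank of a family of types -/
def LinS : Prop :=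
  ∀ (G X ι : Type) [Fintype X] [Nonempty X] [Fintype ι] [Nonempty ι] (p : G → X) (j : X → X)
    (Ψ : ι → Set X) (y : ι → ℂ), Function.Surjective p → Function.Involutive j →
    (∀ k x, x ∈ Ψ k ↔ j x ∉ Ψ k) → (∀ k, y k ≠ 0) →
    Module.finrank ℂ (Submodule.span ℂ {v : ι → ℂ | ∃ r : X → ℂ, (∀ x, r (j x) = -r x) ∧
        v = fun k => y k * ∑ x, (Ψ k).indicator r x}) + 1 =
      Module.finrank ℚ (Submodule.span ℚ {f : G → ℚ | ∃ k,
        (f = fun σ => (Ψ k).indicator (fun _ => (1 : ℚ)) (p σ)) ∨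
          f = fun σ => (Ψ k)ᶜ.indicator (fun _ => (1 : ℚ)) (p σ)})

/-- the theorem -/
def FinS : Prop :=
  ∀ (d M : ℕ), 0 < d → ∀ (A : AbVar d M) (E : Type) [CommRing E] [Algebra ℚ E]
    [Module.Finite ℚ E] (c : E →+* E), (∀ (ψ : E →+* ℂ) (x : E), ψ (c x) = starRingEnd ℂ (ψ x)) →
    ∀ (φ : Fin d → E →+* ℂ),
      (∀ ψ : E →+* ℂ, ψ ∈ Set.range φ ↔ (starRingEnd ℂ).comp ψ ∉ Set.range φ) →
    ∀ (ω : Fin d → ℂ), (∀ y ∈ A.Λ, ∃ x : E, y = fun k => φ k x * ω k) →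
    Algebra.trdeg ℚ (IntermediateField.adjoin ℚ (Set.range fun k => ω k ^ 2 / Real.pi)) + 1 =
      (Module.finrank ℚ (Submodule.span ℚ (Set.range fun ψ : E →+* ℂ => fun σ : ℂ ≃+* ℂ =>
        (Set.range φ).indicator (fun _ => (1 : ℚ)) ((σ : ℂ →+* ℂ).comp ψ))) : ℕ)

end Pool.Agent.Lib.MP_caab05_ag.CM
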