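import Mathlib
import Pool.Agent.Lib.MP_caab05_ag.CM.Stmt

/-! The final assembly for all abelian varieties with complex multiplication. -/

namespace Pool.Agent.Lib.MP_caab05_ag.CM

open Pool.Agent.Lib.MP_caab05_ag.LT (AbVar)
open Pool.Agent.Lib.MP_caab05_ag.GB (Der Emb cj IsCj IsType elt)

namespace FinAux

lemma ne_zero {d M : ℕ} (A : AbVar d M) {E : Type} [CommRing E] (φ : Fin d → E →+* ℂ)
    (ω : Fin d → ℂ) (hω : ∀ y ∈ A.Λ, ∃ x : E, y = fun k => φ k x * ω k) (k : Fin d) : ω k ≠ 0 := by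
  intro h
  have h1 : Submodule.span ℝ (A.Λ : Set (Fin d → ℂ)) ≤
      LinearMap.ker (LinearMap.proj k : (Fin d → ℂ) →ₗ[ℝ] ℂ) :=
    Submodule.span_le.2 fun y hy => by
      obtain ⟨x, rfl⟩ := hω y hy
      simp [h]
  rw [A.span_top] at h1
  simpa using h1 (Submodule.mem_top (x := fun _ => 1))

lemma der_sq (D : Der) (w l : ℂ) (h : D w = l * w) : D (w ^ 2 / Real.pi) =
    2 * (w ^ 2 / Real.pi) * (l - D Real.pi / (2 * Real.pi)) := by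
  have : (Real.pi : ℂ) ≠ 0 := Complex.ofReal_ne_zero.2 Real.pi_ne_zero
  rw [Derivation.leibniz_div, Derivation.leibniz_pow, h]
  simp only [smul_eq_mul, nsmul_eq_mul]
  field_simp
  push_cast
  ring

end FinAux

theorem finS (h1 : PerS) (h2 : SurjS) (h3 : RankS) (h4 : FldS) (h5 : ExtS) (h6 : LinS) : FinS := by
  classical
  intro d M hd A E _ _ _ c hc φ hφ ω hω
  have h0 := FinAux.ne_zero A φ ω hω
  have : Nonempty (Fin d) := ⟨⟨0, hd⟩⟩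
  obtain ⟨L, _, _, c', φ₀, hc', hne, h22, hN, hl⟩ := h4 E c hc
  have : Nonempty (Emb L) := ⟨φ₀⟩
  choose φ' hφ' using fun k => hl (φ k)
  let Ψ : Fin d → Set (Emb L) := fun k => {ψ | ψ.comp (φ' k) ∈ Set.range φ}
  have hT : ∀ k, IsType (Ψ k) := fun k ψ => hφ (ψ.comp (φ' k))
  have hm : ∀ k, φ₀ ∈ Ψ k := fun k => ⟨k, (hφ' k).symm⟩
  have hD : ∀ (D : Der) k, D (ω k) = elt D (Ψ k) φ₀ * ω k := fun D k => by
    have : ∀ ψ : Emb L, ∃ j, (ψ = φ₀ → j = k) ∧ (ψ ∈ Ψ k → φ j = ψ.comp (φ' k)) := fun ψ => by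
      by_cases a : ψ = φ₀
      · exact ⟨k, fun _ => rfl, fun _ => by rw [a, hφ']⟩
      by_cases b : ψ ∈ Ψ k
      · obtain ⟨j, hj⟩ := b
        exact ⟨j, fun e => (a e).elim, fun _ => hj⟩
      · exact ⟨k, fun _ => rfl, fun e => (b e).elim⟩
    choose l l1 l2 using this
    have := h1 d M A L c' (Ψ k) l ω hc' (hT k) h0 (fun y hy => by
      obtain ⟨x, rfl⟩ := hω y hy
      exact ⟨φ' k x, fun ψ hψ => by simp only [l2 ψ hψ, RingHom.comp_apply]⟩) D φ₀ (hm k)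
    rwa [l1 φ₀ rfl] at this
  obtain ⟨s1, s2⟩ := h2 L c' φ₀ hc' hne h22 hN
  have e1 : (Set.range fun D : Der => fun k => D (ω k ^ 2 / Real.pi)) =
      {v : Fin d → ℂ | ∃ r : Emb L → ℂ, (∀ x, r (cj x) = -r x) ∧
        v = fun k => 2 * (ω k ^ 2 / Real.pi) * ∑ x, (Ψ k).indicator r x} := by
    ext v
    constructor
    · rintro ⟨D, rfl⟩
      obtain ⟨r, a, b⟩ := s1 D
      exact ⟨r, a, funext fun k => (FinAux.der_sq D _ _ (hD D k)).trans (by rw [b _ (hT k) (hm k)])⟩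
    · rintro ⟨r, a, rfl⟩
      obtain ⟨D, b⟩ := s2 r a
      exact ⟨D, funext fun k => (FinAux.der_sq D _ _ (hD D k)).trans (by rw [b _ (hT k) (hm k)])⟩
  have i1 : ∀ k (σ : ℂ ≃+* ℂ), (σ : ℂ →+* ℂ).comp (φ k) ∈ Set.range φ ↔
      (σ : ℂ →+* ℂ).comp φ₀ ∈ Ψ k := fun k σ => by rw [← hφ' k]; rfl
  have i2 : ∀ k (σ : ℂ ≃+* ℂ), (σ : ℂ →+* ℂ).comp ((starRingEnd ℂ).comp (φ k)) ∈ Set.range φ ↔
      (σ : ℂ →+* ℂ).comp φ₀ ∈ (Ψ k)ᶜ := fun k σ => by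
    have e : (σ : ℂ →+* ℂ).comp ((starRingEnd ℂ).comp (φ k)) =
        (starRingEnd ℂ).comp ((σ : ℂ →+* ℂ).comp (φ k)) := RingHom.ext fun x => by
      rw [RingHom.comp_apply, RingHom.comp_apply, ← hc, RingHom.comp_apply (starRingEnd ℂ), ← hc]
      rfl
    rw [e, Set.mem_compl_iff, ← i1, hφ ((σ : ℂ →+* ℂ).comp (φ k)), not_not]
  have e2 : (Set.range fun ψ : E →+* ℂ => fun σ : ℂ ≃+* ℂ =>
      (Set.range φ).indicator (fun _ => (1 : ℚ)) ((σ : ℂ →+* ℂ).comp ψ)) =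
      {f : (ℂ ≃+* ℂ) → ℚ | ∃ k,
        (f = fun σ : ℂ ≃+* ℂ => (Ψ k).indicator (fun _ => (1 : ℚ)) ((σ : ℂ →+* ℂ).comp φ₀)) ∨
          f = fun σ : ℂ ≃+* ℂ => (Ψ k)ᶜ.indicator (fun _ => (1 : ℚ)) ((σ : ℂ →+* ℂ).comp φ₀)} := by
    ext f
    constructor
    · rintro ⟨ψ, rfl⟩
      by_cases a : ψ ∈ Set.range φ
      · obtain ⟨k, rfl⟩ := a
        exact ⟨k, Or.inl (funext fun σ => by simp only [Set.indicator_apply, i1])⟩
      · obtain ⟨k, hk⟩ := not_not.1 (mt (hφ ψ).2 a)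
        obtain rfl : ψ = (starRingEnd ℂ).comp (φ k) := RingHom.ext fun x => by simp [hk]
        exact ⟨k, Or.inr (funext fun σ => by simp only [Set.indicator_apply, i2])⟩
    · rintro ⟨k, rfl | rfl⟩
      · exact ⟨φ k, funext fun σ => by simp only [Set.indicator_apply, i1]⟩
      · exact ⟨(starRingEnd ℂ).comp (φ k), funext fun σ => by simp only [Set.indicator_apply, i2]⟩
  have hpi : (Real.pi : ℂ) ≠ 0 := Complex.ofReal_ne_zero.2 Real.pi_ne_zero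
  rw [h3, e1, e2, ← h6 (ℂ ≃+* ℂ) (Emb L) (Fin d) (fun σ => (σ : ℂ →+* ℂ).comp φ₀) cj Ψ
    (fun k => 2 * (ω k ^ 2 / Real.pi)) (h5 L φ₀)
    (NumberField.ComplexEmbedding.involutive_conjugate L) hT
    (fun k => mul_ne_zero two_ne_zero (div_ne_zero (pow_ne_zero _ (h0 k)) hpi)),
    Nat.cast_add, Nat.cast_one]

end Pool.Agent.Lib.MP_caab05_ag.CM
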