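import Mathlib
import Pool.Agent.Lib.MP_caab05_ag.CM.Stmt

/-! A large normal field with complex conjugation, and extension of embeddings. -/

namespace Pool.Agent.Lib.MP_caab05_ag.CM

open Pool.Agent.Lib.MP_caab05_ag.GB (Emb IsCj)

namespace FldAux

theorem exists_equiv {R K L : Type} [CommRing R] [Field K] [Field L] [Algebra R K] [Algebra R L]
    [IsAlgClosed K] [IsAlgClosed L] (hK' : Function.Injective (algebraMap R K))
    (hL' : Function.Injective (algebraMap R L)) (hR : Cardinal.mk R ≤ Cardinal.aleph0)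
    (hK : Cardinal.aleph0 < Cardinal.mk K) (hKL : Cardinal.mk K = Cardinal.mk L) :
    ∃ σ : K ≃+* L, ∀ x, σ (algebraMap R K x) = algebraMap R L x := by
  have : Nontrivial R := RingHom.domain_nontrivial (algebraMap R K)
  have := (faithfulSMul_iff_algebraMap_injective R K).2 hK'
  have := (faithfulSMul_iff_algebraMap_injective R L).2 hL'
  obtain ⟨s, hs⟩ := exists_isTranscendenceBasis R K
  obtain ⟨t, ht⟩ := exists_isTranscendenceBasis R L
  have h1 := IsAlgClosed.cardinal_eq_cardinal_transcendence_basis_of_aleph0_lt' _ hs hR hK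
  have h2 := IsAlgClosed.cardinal_eq_cardinal_transcendence_basis_of_aleph0_lt' _ ht hR (hKL ▸ hK)
  obtain ⟨e⟩ := Cardinal.eq.1 (h1.symm.trans (hKL.trans h2))
  have := IsAlgClosed.isAlgClosure_of_transcendence_basis _ hs
  have := IsAlgClosed.isAlgClosure_of_transcendence_basis _ ht
  let e' : Algebra.adjoin R (Set.range ((↑) : s → K)) ≃ₐ[R]
      Algebra.adjoin R (Set.range ((↑) : t → L)) :=
    hs.1.aevalEquiv.symm.trans ((MvPolynomial.renameEquiv R e).trans ht.1.aevalEquiv)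
  refine ⟨IsAlgClosure.equivOfEquiv K L e'.toRingEquiv, fun x => ?_⟩
  have h3 := IsAlgClosure.equivOfEquiv_algebraMap K L e'.toRingEquiv (algebraMap R _ x)
  have h4 : e'.toRingEquiv (algebraMap R _ x) = algebraMap R _ x := e'.commutes x
  rw [h4, ← IsScalarTower.algebraMap_apply, ← IsScalarTower.algebraMap_apply] at h3
  exact h3

/-- an embedding which keeps the generators in the field keeps the field -/
theorem mem_of_gen (S : Set ℂ) (χ : IntermediateField.adjoin ℚ S →+* ℂ)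
    (h : ∀ x (hx : x ∈ S), χ ⟨x, IntermediateField.subset_adjoin _ _ hx⟩ ∈
      IntermediateField.adjoin ℚ S) (x : IntermediateField.adjoin ℚ S) :
    χ x ∈ IntermediateField.adjoin ℚ S := by
  obtain ⟨x, hx⟩ := x
  induction hx using IntermediateField.adjoin_induction with
  | mem x hx => exact h x hx
  | algebraMap q =>
    have h1 : (⟨algebraMap ℚ ℂ q, IntermediateField.algebraMap_mem _ _⟩ :
        IntermediateField.adjoin ℚ S) = (q : IntermediateField.adjoin ℚ S) := by
      ext; simp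
    rw [h1, map_ratCast]
    exact SubfieldClass.ratCast_mem _ q
  | add x y hx hy h1 h2 =>
    have h3 : (⟨x + y, add_mem hx hy⟩ : IntermediateField.adjoin ℚ S) = ⟨x, hx⟩ + ⟨y, hy⟩ := rfl
    rw [h3, map_add]
    exact add_mem h1 h2
  | inv x hx h1 =>
    have h3 : (⟨x⁻¹, inv_mem hx⟩ : IntermediateField.adjoin ℚ S) = (⟨x, hx⟩)⁻¹ := rfl
    rw [h3, map_inv₀]
    exact inv_mem h1
  | mul x y hx hy h1 h2 =>
    have h3 : (⟨x * y, mul_mem hx hy⟩ : IntermediateField.adjoin ℚ S) = ⟨x, hx⟩ * ⟨y, hy⟩ := rfl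
    rw [h3, map_mul]
    exact mul_mem h1 h2

/-- an embedding which keeps a finite extension is an automorphism of it -/
theorem exists_aut (F : IntermediateField ℚ ℂ) [FiniteDimensional ℚ F] (χ : F →+* ℂ)
    (h : ∀ x, χ x ∈ F) : ∃ σ : F ≃ₐ[ℚ] F, ∀ x, (σ x : ℂ) = χ x := by
  let f : F →ₐ[ℚ] F := (χ.codRestrict F h).toRatAlgHom
  exact ⟨AlgEquiv.ofBijective f f.bijective, fun x => rfl⟩

theorem conj_eq_inv {z : ℂ} (h : z ^ 23 = 1) : starRingEnd ℂ z = z⁻¹ := by
  have h1 : ‖z‖ = 1 := Complex.norm_eq_one_of_pow_eq_one h (by norm_num)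
  exact (Complex.inv_eq_conj h1).symm

end FldAux

open FldAux in
theorem fldS : FldS := by
  intro E _ _ _ c hc
  obtain ⟨B, hB⟩ := (Module.finite_def.1 (inferInstance : Module.Finite ℚ E))
  have hfin : Finite (E →+* ℂ) :=
    Finite.of_injective (fun ψ : E →+* ℂ => ψ.toRatAlgHom) fun a b h =>
      RingHom.ext fun x => congrArg (fun f : E →ₐ[ℚ] ℂ => f x) h
  let S : Set ℂ := (Set.range fun p : (E →+* ℂ) × B => p.1 p.2) ∪ {x | x ^ 23 = 1}
  have hS : S.Finite := by
    refine (Set.finite_range _).union ?_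
    refine (Polynomial.nthRoots 23 (1 : ℂ)).toFinset.finite_toSet.subset fun x hx => ?_
    simpa [Polynomial.mem_nthRoots] using hx
  have : Finite S := hS
  have hint : ∀ x ∈ S, IsIntegral ℚ x := by
    rintro x (⟨⟨ψ, b⟩, rfl⟩ | hx)
    · exact (IsIntegral.of_finite ℚ (b : E)).map ψ.toRatAlgHom
    · exact IsIntegral.of_pow (n := 23) (by norm_num) (by rw [hx]; exact isIntegral_one)
  let F := IntermediateField.adjoin ℚ S
  have hF : FiniteDimensional ℚ F := IntermediateField.finiteDimensional_adjoin hint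
  have hNF : NumberField F := {}
  have hmem : ∀ (ψ : E →+* ℂ) (y : E), ψ y ∈ F := by
    intro ψ y
    have hy : y ∈ Submodule.span ℚ (B : Set E) := hB ▸ Submodule.mem_top
    induction hy using Submodule.span_induction with
    | mem y hy => exact IntermediateField.subset_adjoin _ _ (Or.inl ⟨(ψ, ⟨y, hy⟩), rfl⟩)
    | zero => rw [map_zero]; exact zero_mem _
    | add x y _ _ h1 h2 => rw [map_add]; exact add_mem h1 h2
    | smul q y _ h1 =>
      have h2 : ψ (q • y) = q • ψ y := map_smul ψ.toRatAlgHom q y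
      rw [h2]
      exact F.smul_mem h1
  have hall : ∀ (χ : F →+* ℂ) (x : F), χ x ∈ F := by
    intro χ
    refine mem_of_gen S χ ?_
    rintro x (⟨⟨ψ, b⟩, rfl⟩ | hx)
    · exact hmem (χ.comp (ψ.codRestrict F (hmem ψ))) b
    · refine IntermediateField.subset_adjoin _ _ (Or.inr ?_)
      have hxF : x ∈ F := IntermediateField.subset_adjoin _ _ (Or.inr hx)
      have h1 : (⟨x, hxF⟩ : F) ^ 23 = 1 := Subtype.ext hx
      show χ ⟨x, hxF⟩ ^ 23 = 1
      rw [← map_pow, h1, map_one]
  let ι : F →+* ℂ := algebraMap F ℂ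
  obtain ⟨c', hc'⟩ := exists_aut F ((starRingEnd ℂ).comp ι) (hall _)
  have hc'' : ∀ x : F, (c' x : ℂ) = starRingEnd ℂ x := hc'
  have hζ := Complex.isPrimitiveRoot_exp 23 (by norm_num)
  set ζ := Complex.exp (2 * Real.pi * Complex.I / (23 : ℕ)) with hζd
  have hζF : ζ ∈ F := IntermediateField.subset_adjoin _ _ (Or.inr hζ.pow_eq_one)
  refine ⟨F, inferInstance, hNF, c', ι, ?_, ?_, ?_, ?_, ?_⟩
  · intro φ
    have key : (φ.comp (c' : F →+* F)).toRatAlgHom = ((starRingEnd ℂ).comp φ).toRatAlgHom := by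
      refine IntermediateField.adjoin_algHom_ext ℚ ?_
      rintro x (⟨⟨ψ, b⟩, rfl⟩ | hx)
      · have h1 := hc (φ.comp (ψ.codRestrict F (hmem ψ))) b
        have h2 : c' (ψ.codRestrict F (hmem ψ) b) = ψ.codRestrict F (hmem ψ) (c b) :=
          Subtype.ext ((hc'' _).trans (hc ψ b).symm)
        show φ (c' (ψ.codRestrict F (hmem ψ) b)) = _
        rw [h2]
        exact h1
      · have hxF : x ∈ F := IntermediateField.subset_adjoin _ _ (Or.inr hx)
        have h2 : c' ⟨x, hxF⟩ = (⟨x, hxF⟩ : F)⁻¹ :=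
          Subtype.ext ((hc'' _).trans (conj_eq_inv hx))
        show φ (c' ⟨x, hxF⟩) = starRingEnd ℂ (φ ⟨x, hxF⟩)
        rw [h2, map_inv₀, conj_eq_inv]
        rw [← map_pow, ← map_one φ]
        congr 1
        exact Subtype.ext hx
    intro x
    exact congrArg (fun f : F →ₐ[ℚ] ℂ => f x) key
  · intro h
    have h1 := hc'' ⟨ζ, hζF⟩
    rw [h] at h1
    have h2 : ζ = ζ⁻¹ := h1.trans (conj_eq_inv hζ.pow_eq_one)
    have h3 : ζ ^ 2 = 1 := by
      rw [sq]
      nth_rewrite 2 [h2]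
      exact mul_inv_cancel₀ (hζ.ne_zero (by norm_num))
    have h4 := hζ.dvd_of_pow_eq_one 2 h3
    norm_num at h4
  · have h1 := minpoly.natDegree_le (A := ℚ) (⟨ζ, hζF⟩ : F)
    have h2 : minpoly ℚ (⟨ζ, hζF⟩ : F) = minpoly ℚ ζ :=
      (minpoly.algebraMap_eq (algebraMap F ℂ).injective (⟨ζ, hζF⟩ : F)).symm
    rw [h2, ← Polynomial.cyclotomic_eq_minpoly_rat hζ (by norm_num),
      Polynomial.natDegree_cyclotomic, Nat.totient_prime (by norm_num)] at h1
    exact h1
  · intro φ ψ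
    obtain ⟨a, ha⟩ := exists_aut F φ (hall _)
    obtain ⟨b, hb⟩ := exists_aut F ψ (hall _)
    refine ⟨b.trans a.symm, RingHom.ext fun x => ?_⟩
    show ψ x = φ (a.symm (b x))
    rw [← ha, a.apply_symm_apply, hb]
  · intro ψ
    exact ⟨ψ.codRestrict F (hmem ψ), RingHom.ext fun x => rfl⟩

open FldAux in
theorem extS : ExtS := by
  intro L _ _ f g
  have : Countable L := Countable.of_equiv _ (Module.finBasis ℚ L).equivFun.toEquiv.symm
  obtain ⟨σ, hσ⟩ := @exists_equiv L ℂ ℂ _ _ _ f.toAlgebra g.toAlgebra _ _ f.injective g.injective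
    Cardinal.mk_le_aleph0 (by rw [Cardinal.mk_complex]; exact Cardinal.aleph0_lt_continuum) rfl
  exact ⟨σ, RingHom.ext hσ⟩

end Pool.Agent.Lib.MP_caab05_ag.CM
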