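import Mathlib
import Pool.Agent.Lib.MP_caab05_ag.CM.Stmt
import Pool.Agent.Lib.MP_caab05_ag.GB.Gen2
import Pool.Agent.Lib.MP_caab05_ag.GB.Weak

/-! Subtori of a product of two tori with complex multiplication by a normal field. -/

namespace Pool.Agent.Lib.MP_caab05_ag.CM

open Complex NumberField Matrix
open Pool.Agent.Lib.MP_caab05_ag.GB (Emb weak)
open GB.Gen2Aux

namespace GenAux

variable {L : Type} [Field L] [NumberField L] {ι : Type}

theorem uniq {φ₀ : Emb L} {s : Emb L → L ≃ₐ[ℚ] L}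
    (hs : ∀ φ : Emb L, φ = φ₀.comp (s φ : L →+* L)) (τ : L ≃ₐ[ℚ] L) :
    s (φ₀.comp (τ : L →+* L)) = τ :=
  AlgEquiv.ext fun x => φ₀.injective (RingHom.congr_fun (hs (φ₀.comp (τ : L →+* L))) x).symm

/-- left translation of embeddings -/
def lt (ι : Type) {φ₀ : Emb L} {s : Emb L → L ≃ₐ[ℚ] L}
    (hs : ∀ φ : Emb L, φ = φ₀.comp (s φ : L →+* L)) (σ : L ≃ₐ[ℚ] L) :
    Emb L × ι ≃ Emb L × ι where
  toFun p := (φ₀.comp ((σ * s p.1 : L ≃ₐ[ℚ] L) : L →+* L), p.2)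
  invFun p := (φ₀.comp ((σ⁻¹ * s p.1 : L ≃ₐ[ℚ] L) : L →+* L), p.2)
  left_inv p := Prod.ext (by
    dsimp only
    rw [uniq hs, inv_mul_cancel_left]
    exact (hs p.1).symm) rfl
  right_inv p := Prod.ext (by
    dsimp only
    rw [uniq hs, mul_inv_cancel_left]
    exact (hs p.1).symm) rfl

theorem lt_apply {φ₀ : Emb L} {s : Emb L → L ≃ₐ[ℚ] L}
    (hs : ∀ φ : Emb L, φ = φ₀.comp (s φ : L →+* L)) (σ : L ≃ₐ[ℚ] L) (p : Emb L × ι) :
    lt ι hs σ p = (φ₀.comp ((σ * s p.1 : L ≃ₐ[ℚ] L) : L →+* L), p.2) := rfl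

/-- a relation over the types holds over all left translates -/
theorem translate [Fintype ι] {d : ℕ} (e : Fin d → Emb L × ι) (he : Function.Injective e)
    {φ₀ : Emb L} {s : Emb L → L ≃ₐ[ℚ] L} (hs : ∀ φ : Emb L, φ = φ₀.comp (s φ : L →+* L))
    (z : ι → L) (hz : ∑ k, ev L ι z (e k) = 0) (σ : L ≃ₐ[ℚ] L) :
    ∑ p, (lt ι hs σ ⁻¹' Set.range e).indicator (ev L ι z) p = 0 := by
  have h3 : ∀ (φ : Emb L) w, φ w = φ₀ (s φ w) := fun φ w => RingHom.congr_fun (hs φ) w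
  have h4 : ∑ k, s (e k).1 (z (e k).2) = 0 := by
    apply φ₀.injective
    rw [map_sum, map_zero, ← hz]
    exact Finset.sum_congr rfl fun k _ => (h3 _ _).symm
  let g : Emb L × ι → ℂ := fun q => φ₀ (σ.symm (s q.1 (z q.2)))
  have h5 : ∑ k, g (e k) = 0 := by
    show ∑ k, φ₀ (σ.symm (s (e k).1 (z (e k).2))) = 0
    rw [← map_sum, ← map_sum, h4, map_zero, map_zero]
  rw [← h5, ← sum_range e he, ← (lt ι hs σ).sum_comp ((Set.range e).indicator g)]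
  refine Finset.sum_congr rfl fun p _ => ?_
  by_cases hp : lt ι hs σ p ∈ Set.range e
  · rw [Set.indicator_of_mem hp, Set.indicator_of_mem (by exact hp)]
    show p.1 (z p.2) = φ₀ (σ.symm (s (φ₀.comp ((σ * s p.1 : L ≃ₐ[ℚ] L) : L →+* L)) (z p.2)))
    rw [uniq hs, AlgEquiv.mul_apply, σ.symm_apply_apply]
    exact h3 _ _
  · rw [Set.indicator_of_notMem hp, Set.indicator_of_notMem (by exact hp)]

/-- the complex span is stable under the indicators of the left translates -/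
theorem stab [Fintype ι] {d : ℕ} (e : Fin d → Emb L × ι) (he : Function.Injective e)
    {φ₀ : Emb L} {s : Emb L → L ≃ₐ[ℚ] L} (hs : ∀ φ : Emb L, φ = φ₀.comp (s φ : L →+* L))
    (P : Submodule ℚ (ι → L))
    (rel : ∀ y : ι → L, (∀ x ∈ P, tf L ι x y = 0) → ∀ x ∈ P, ∑ k, ev L ι (x * y) (e k) = 0)
    (σ : L ≃ₐ[ℚ] L) {X : Emb L × ι → ℂ}
    (hX : X ∈ Submodule.span ℂ (ev L ι '' (P : Set (ι → L)))) :
    (lt ι hs σ ⁻¹' Set.range e).indicator X ∈
      Submodule.span ℂ (ev L ι '' (P : Set (ι → L))) := by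
  induction hX using Submodule.span_induction with
  | mem X hX =>
    obtain ⟨x, hx, rfl⟩ := hX
    refine biorth weak P _ fun y hy => ?_
    rw [← translate e he hs (x * y) (rel y hy x hx) σ, dotProduct]
    refine Finset.sum_congr rfl fun p _ => ?_
    by_cases hp : p ∈ lt ι hs σ ⁻¹' Set.range e
    · rw [Set.indicator_of_mem hp, Set.indicator_of_mem hp, mul_comm]
      exact (map_mul p.1 _ _).symm
    · rw [Set.indicator_of_notMem hp, Set.indicator_of_notMem hp, mul_zero]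
  | zero =>
    rw [Set.indicator_zero']
    exact Submodule.zero_mem _
  | add X Y _ _ hX hY =>
    rw [Set.indicator_add']
    exact Submodule.add_mem _ hX hY
  | smul c X _ hX =>
    have e1 : (lt ι hs σ ⁻¹' Set.range e).indicator (c • X) =
        c • (lt ι hs σ ⁻¹' Set.range e).indicator X := Set.indicator_const_smul _ c X
    rw [e1]
    exact Submodule.smul_mem _ _ hX

/-- the left translates separate the points -/
theorem sep {Φ : Fin 2 → Set (Emb L)} (h2 : Sep Φ) {φ₀ : Emb L} {s : Emb L → L ≃ₐ[ℚ] L}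
    (hs : ∀ φ : Emb L, φ = φ₀.comp (s φ : L →+* L)) (p q : Emb L × Fin 2) (hpq : p ≠ q) :
    ∃ σ, lt (Fin 2) hs σ p ∈ {p : Emb L × Fin 2 | p.1 ∈ Φ p.2} ∧
      lt (Fin 2) hs σ q ∉ {p : Emb L × Fin 2 | p.1 ∈ Φ p.2} := by
  by_contra hne
  have h3 : ∀ σ : L ≃ₐ[ℚ] L, φ₀.comp ((σ * s p.1 : L ≃ₐ[ℚ] L) : L →+* L) ∈ Φ p.2 →
      φ₀.comp ((σ * s q.1 : L ≃ₐ[ℚ] L) : L →+* L) ∈ Φ q.2 := fun σ h =>
    not_not.1 fun h' => hne ⟨σ, h, h'⟩
  obtain ⟨h4, h5⟩ := h2 ((s p.1)⁻¹ * s q.1) p.2 q.2 fun χ hχ => by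
    have h6 := h3 (s χ * (s p.1)⁻¹) (by
      rw [inv_mul_cancel_right, ← hs χ]
      exact hχ)
    have h7 : φ₀.comp ((s χ * (s p.1)⁻¹ * s q.1 : L ≃ₐ[ℚ] L) : L →+* L) =
        χ.comp (((s p.1)⁻¹ * s q.1 : L ≃ₐ[ℚ] L) : L →+* L) := by
      rw [mul_assoc]
      exact RingHom.ext fun x => (RingHom.congr_fun (hs χ) _).symm
    rw [← h7]
    exact h6
  refine hpq (Prod.ext ?_ h5)
  rw [hs p.1, hs q.1, inv_mul_eq_one.1 h4]

end GenAux

theorem genS : GenS := by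
  classical
  intro L _ _ Φ d M e A ω 𝔪 hΦ he hr hω hΛ h1 h2 U hU hU0
  obtain ⟨φ₀⟩ : Nonempty (Emb L) := inferInstance
  choose s hs using h1 φ₀
  let S : Set (Fin 2 → L) := {x | rho e ω (ev L (Fin 2) x) ∈ U}
  let P : Submodule ℚ (Fin 2 → L) :=
    (U.restrictScalars ℚ).comap (((rho e ω).restrictScalars ℚ).comp (ev L (Fin 2)))
  have hUS : ∀ w ∈ U, w ∈ Submodule.span ℝ ((fun x => rho e ω (ev L (Fin 2) x)) '' S) := by
    intro w hw
    have hw' : w ∈ Submodule.span ℝ ((U : Set (Fin d → ℂ)) ∩ (A.Λ : Set (Fin d → ℂ))) := by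
      rw [hU]
      exact hw
    refine Submodule.span_mono ?_ hw'
    rintro y ⟨hy1, hy2⟩
    obtain ⟨x, -, rfl⟩ := (hΛ y).1 hy2
    exact ⟨x, hy1, rfl⟩
  obtain ⟨x₀, hx₀, hx₀0⟩ : ∃ x ∈ P, x ≠ 0 := by
    by_contra hne
    refine hU0 (eq_bot_iff.2 fun w hw => ?_)
    have hle : Submodule.span ℝ ((fun x => rho e ω (ev L (Fin 2) x)) '' S) ≤ ⊥ := by
      rw [Submodule.span_le]
      rintro _ ⟨x, hx, rfl⟩
      have hx0 : x = 0 := not_not.1 fun h0 => hne ⟨x, hx, h0⟩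
      show rho e ω (ev L (Fin 2) x) = 0
      rw [hx0, map_zero, map_zero]
    exact hle (hUS w hw)
  obtain ⟨i, hi⟩ := Function.ne_iff.1 hx₀0
  let Q : Submodule ℂ (Emb L × Fin 2 → ℂ) := U.comap (rho e ω)
  have hPQ : Submodule.span ℂ (ev L (Fin 2) '' (P : Set (Fin 2 → L))) ≤ Q := by
    rw [Submodule.span_le]
    rintro _ ⟨x, hx, rfl⟩
    exact hx
  have hq : ∀ φ : Emb L, (Pi.single (φ, i) 1 : Emb L × Fin 2 → ℂ) ∈ Q := fun φ =>
    hPQ (single_mem _ (fun σ : L ≃ₐ[ℚ] L => GenAux.lt (Fin 2) hs σ ⁻¹' Set.range e)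
      (fun σ X hX => GenAux.stab e he hs P
        (fun y hy x hx => relation hΦ e he hr hω U S hUS y hy x hx) σ hX)
      (fun p q hpq => by
        rw [hr]
        exact GenAux.sep h2 hs p q hpq)
      (Submodule.subset_span ⟨x₀, hx₀, rfl⟩) ((_root_.map_ne_zero φ).2 hi))
  refine ⟨i, fun k hk => ?_⟩
  have e1 : (Pi.single k 1 : Fin d → ℂ) = (ω k)⁻¹ • rho e ω (Pi.single ((e k).1, i) 1) := by
    rw [← hk]
    funext l
    show _ = (ω k)⁻¹ * ((Pi.single (e k) 1 : Emb L × Fin 2 → ℂ) (e l) * ω l)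
    by_cases hl : l = k
    · rw [hl, Pi.single_eq_same, Pi.single_eq_same, one_mul, inv_mul_cancel₀ (hω k)]
    · rw [Pi.single_eq_of_ne hl, Pi.single_eq_of_ne (he.ne hl), zero_mul, mul_zero]
  rw [e1]
  exact U.smul_mem _ (hq _)

end Pool.Agent.Lib.MP_caab05_ag.CM
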