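import Mathlib
import Pool.Agent.Lib.MP_caab05_ag.CM.Stmt
import Pool.Agent.Lib.MP_caab05_ag.GB.All
import Pool.Agent.Lib.MP_caab05_ag.LT.Base

/-! A homomorphism from an abelian variety to a rigid theta model. -/

namespace Pool.Agent.Lib.MP_caab05_ag.CM

open MvPolynomial Filter Topology Asymptotics Complex Matrix
open Pool.Agent.Lib.MP_caab05_ag.LT (AbVar)
open Pool.Agent.Lib.MP_caab05_ag.GB
open Pool.Agent.Lib.MP_caab05_ag.GB.HomAux

namespace HomAux

variable {d M g : ℕ}

theorem imm (A : AbVar d M) (w : Fin d → ℂ) (c : ℂ) (h : fderiv ℂ A.θ 0 w = c • A.θ 0) :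
    w = 0 := by
  refine (injective_iff_map_eq_zero _).1 A.immersion w ?_
  have h1 := (A.holo 0).hasFDerivAt
  have h0 : HasFDerivAt (fun z => A.θ z 0) _ 0 := hasFDerivAt_pi'.1 h1 0
  have h2 := ((hasDerivAt_inv A.origin).comp_hasFDerivAt (0 : Fin d → ℂ) h0).smul h1
  have e : (fun z i => A.θ z i / A.θ z 0) =
      ((fun y : ℂ => y⁻¹) ∘ fun z => A.θ z 0) • A.θ := by
    funext z i
    simp [div_eq_inv_mul]
  rw [e, h2.fderiv]
  funext i
  have ho := A.origin
  simp [h]
  field_simp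
  ring

theorem dK_zero (τ : Mat g) (u : V g) : dK τ 0 u = 0 := map_zero _

theorem app_zero (x : V g) : app (0 : Mat g) x = 0 := by
  funext i
  simp [app_apply]

/-- the values of the two families of theta functions -/
noncomputable def FA (A : AbVar d M) (τ : Mat g) (a : V d →ₗ[ℂ] V g) (t : Fin 2 → Ix g)
    (u : V d) : Fin (M + 1) ⊕ Fin 2 → ℂ := Sum.elim (A.θ u) fun b => th τ (a u) (t b)

theorem diff_FA (A : AbVar d M) {τ : Mat g} (hτ : Sg τ) (a : V d →ₗ[ℂ] V g) (t : Fin 2 → Ix g) :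
    Differentiable ℂ (FA A τ a t) :=
  diff_elim A.holo (differentiable_pi.2 fun b => differentiable_pi.1
    ((law'.holu g τ hτ).1.comp (LinearMap.toContinuousLinearMap a).differentiable) (t b))

/-- an algebraic relation along the homomorphism -/
theorem relA (A : AbVar d M) {τ : Mat g} (hτ : Sg τ) (a : V d →ₗ[ℂ] V g)
    (hp : ∀ y ∈ A.Λ, ∃ p : Zg g, a y = per τ (cst p)) (t : Fin 2 → Ix g)
    (ht : th τ 0 (t 0) ≠ 0) :
    ∃ (Q : MvPolynomial (Fin (M + 1) ⊕ Fin 2) ℂ) (k l : ℕ), BiH Q k l ∧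
      (∀ u, eval (FA A τ a t u) Q = 0) ∧
      ∃ u, eval (FA A τ a t u) (pderiv (Sum.inr 1) Q) ≠ 0 := by
  obtain ⟨R, hR⟩ := LT.exists_fund A
  have hc : Charts (ι := Unit) (fun _ => (Set.univ : Set (V d))) (fun _ => Metric.closedBall 0 R)
      (fun _ => A.θ) (fun _ u => th τ (a u)) :=
    { op := fun _ => isOpen_univ
      cpt := fun _ => isCompact_closedBall _ _
      sub := fun _ => Set.subset_univ _
      holX := fun _ => A.holo.differentiableOn
      holY := fun _ => ((law'.holu g τ hτ).1.comp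
        (LinearMap.toContinuousLinearMap a).differentiable).differentiableOn
      neX := fun _ p _ => A.ne_zero p
      neY := fun _ p _ => geo'.nz g τ hτ _
      mtch := fun _ u _ => by
        obtain ⟨y, hy, hy1⟩ := hR u
        obtain ⟨p, hp'⟩ := hp y hy
        obtain ⟨f, b, hf⟩ := A.theta y hy
        refine subset_closure ⟨Set.mem_univ _, (), u - y, mem_closedBall_zero_iff.2 hy1,
          cexp (f (u - y) + b), ee τ ((4 : ℤ) • p) (a (u - y)), ?_, ?_⟩
        · rw [← hf, sub_add_cancel]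
        · show th τ (a u) = _ • th τ (a (u - y))
          rw [← shift0 law' hτ, ← hp', ← map_add, sub_add_cancel] }
  obtain ⟨Q, k, l, hQ, h1, u, -, h3⟩ := rel' _ _ _ _ _ _ _ _ hc () t isPreconnected_univ
    ⟨0, Set.mem_univ _, A.ne_zero 0, imm A⟩ ⟨0, Set.mem_univ _, by simpa using ht⟩
  exact ⟨Q, k, l, hQ, fun u => h1 u (Set.mem_univ _), u, h3⟩

/-- the obstruction as a linear map -/
noncomputable def SL (D : Der) (M' : Mat g) (a : V d →ₗ[ℂ] V g) : V d →ₗ[ℂ] V g :=
  Matrix.mulVecLin (Matrix.of M') ∘ₗ a + aD D a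

theorem SL_apply (D : Der) (M' : Mat g) (a : V d →ₗ[ℂ] V g) (u : V d) :
    SL D M' a u = app M' (a u) + aD D a u := rfl

/-- the twisted relation -/
theorem twistedA (h : JetS) (A : AbVar d M) {D : Der} {τ M' N : Mat g} {c : ℂ}
    (a : V d →ₗ[ℂ] V g) (hτ : Sg τ) (hT : IsTw D τ M' 0 N c) (t : Fin 2 → Ix g)
    {Q : MvPolynomial (Fin (M + 1) ⊕ Fin 2) ℂ} {k l : ℕ} (hQ : BiH Q k l)
    (hz : ∀ u, eval (FA A τ a t u) Q = 0) (u : V d) :
    eval (FA A τ a t u) (cD D Q) + dP Q (FA A τ a t u)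
      (Sum.elim 0 fun b => du τ (a u) (SL D M' a u) (t b)) = 0 := by
  have ha : Differentiable ℂ a := (LinearMap.toContinuousLinearMap a).differentiable
  have hS : Differentiable ℂ (SL D M' a) :=
    (LinearMap.toContinuousLinearMap (SL D M' a)).differentiable
  have hθ' := (law'.holu g τ hτ).1
  have hF := diff_FA A hτ a t
  have hG2 : Differentiable ℂ fun u => du τ (a u) (SL D M' a u) :=
    (law'.holu g τ hτ).2.comp (ha.prodMk hS)
  have hE : Differentiable ℂ fun u => eval (FA A τ a t u) (cD D Q) + dP Q (FA A τ a t u)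
      (Sum.elim 0 fun b => du τ (a u) (SL D M' a u) (t b)) :=
    (diff_ev pol _ hF).add (diff_dP pol Q hF (diff_elim (differentiable_const _)
      (differentiable_pi.2 fun b => differentiable_pi.1 hG2 (t b))))
  have hA := osg _ _ _ Set.univ isOpen_univ hE.differentiableOn
  have hp := twc'.poly _ _ D
    (fun u => Sum.elim ((A.θ u 0)⁻¹ • A.θ u) ((1 : ℂ) • fun b => th τ (a u) (t b)))
    (fun u => Sum.elim ((A.θ u 0)⁻¹ • (0 : Fin (M + 1) → ℂ))
        ((1 : ℂ) • fun b => du τ (a u) (SL D M' a u) (t b)) +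
      Sum.elim ((0 : ℂ) • ((A.θ u 0)⁻¹ • A.θ u))
        (((a u) ⬝ᵥ app N (a u) + c) • ((1 : ℂ) • fun b => th τ (a u) (t b)))) Q (by
    rintro (i | b)
    · refine twc'.congr _ D _ _ _ _ (h d M A D i) (Eventually.of_forall fun u => ?_)
        (Eventually.of_forall fun u => ?_)
      · simp [div_eq_inv_mul]
      · simp
    · have hc := twc'.comp _ _ D _ _ a (aD D a) (hT.2 (t b))
        (osg _ _ _ Set.univ isOpen_univ (differentiable_pi.1 hθ' (t b)).differentiableOn 0
          (Set.mem_univ _)) (map_zero a) (tw_lin twc' D a)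
      refine twc'.congr _ D _ _ _ _ hc (Eventually.of_forall fun u => ?_)
        (Eventually.of_forall fun u => ?_)
      · simp
      · simp only [fderiv_comp_apply law' hτ, SL_apply, du_add, dK_zero, Pi.add_apply,
          Sum.elim_inr, Pi.smul_apply, smul_eq_mul, Pi.zero_apply]
        ring)
  have hp' : Tw D (fun _ : V d => (0 : ℂ)) fun u => (A.θ u 0)⁻¹ ^ k *
      (eval (FA A τ a t u) (cD D Q) + dP Q (FA A τ a t u)
        (Sum.elim 0 fun b => du τ (a u) (SL D M' a u) (t b))) := by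
    have e0 : ∀ u, eval (Sum.elim ((A.θ u 0)⁻¹ • A.θ u)
        ((1 : ℂ) • fun b => th τ (a u) (t b))) Q = 0 := fun u => by
      rw [pol.bih_eval _ _ Q k l hQ]
      exact mul_eq_zero_of_right _ (hz u)
    refine twc'.congr _ D _ _ _ _ hp (Eventually.of_forall e0) (Eventually.of_forall fun u => ?_)
    simp only [pol.dP_add]
    rw [pol.euler _ _ Q k l hQ, e0, pol.bih_dP _ _ Q k l hQ,
      pol.bih_eval _ _ _ k l (pol.bih_cD _ _ D Q k l hQ)]
    unfold FA
    ring
  have h0 : AnalyticAt ℂ (fun u => A.θ u 0) 0 :=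
    osg _ _ _ Set.univ isOpen_univ (differentiable_pi.1 A.holo 0).differentiableOn 0
      (Set.mem_univ _)
  have hu := twc'.uniq _ D _ _ _ hp' (twc'.const _ D 0)
    (((h0.inv A.origin).pow k).mul (hA 0 (Set.mem_univ _))) analyticAt_const
  rw [map_zero] at hu
  refine hA.eqOn_zero_of_preconnected_of_eventuallyEq_zero isPreconnected_univ (Set.mem_univ 0)
    ?_ (Set.mem_univ u)
  filter_upwards [hu, h0.continuousAt.eventually_ne A.origin] with v h1 h2
  exact (mul_eq_zero.1 h1).resolve_left (pow_ne_zero _ (inv_ne_zero h2))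

theorem coreA (h : JetS) (A : AbVar d M) {D : Der} {τ M' N : Mat g} {c : ℂ}
    (a : V d →ₗ[ℂ] V g) (hτ : Sg τ) (hT : IsTw D τ M' 0 N c)
    (hp : ∀ y ∈ A.Λ, ∃ p : Zg g, a y = per τ (cst p)) {y : V d} (hy : y ∈ A.Λ) :
    SL D M' a y = 0 := by
  obtain ⟨p, hpp⟩ := hp y hy
  obtain ⟨f, b0, hf⟩ := A.theta y hy
  obtain ⟨t0, ht0⟩ := Function.ne_iff.1 (geo'.nz g τ hτ 0)
  refine xhol'.neom' g τ _ t0 hτ ht0 fun t1 => ?_
  obtain ⟨Q, k, l, hQ, hz, u0, hu0⟩ := relA A hτ a hp ![t0, t1] ht0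
  have hE := twistedA h A a hτ hT ![t0, t1] hQ hz
  have key : ∀ u, dP Q (FA A τ a ![t0, t1] u)
      (Sum.elim 0 fun b => du τ (a u) (SL D M' a y) (![t0, t1] b)) = 0 := by
    intro u
    obtain ⟨s, hs⟩ := shift1 law' (K := 0) hτ hT.1 p (a u) (SL D M' a (u + y))
    rw [dK_zero, dK_zero, app_zero, sub_zero, add_zero, add_zero] at hs
    have hE1 := hE (u + y)
    have hau : a (u + y) = a u + per τ (cst p) := by rw [map_add, hpp]
    have eF : FA A τ a ![t0, t1] (u + y) = Sum.elim (cexp (f u + b0) • A.θ u)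
        (ee τ ((4 : ℤ) • p) (a u) • fun b => th τ (a u) (![t0, t1] b)) := by
      unfold FA
      rw [hau, shift0 law' hτ, hf]
      rfl
    have eG : (Sum.elim 0 fun b => du τ (a (u + y)) (SL D M' a (u + y)) (![t0, t1] b) :
        Fin (M + 1) ⊕ Fin 2 → ℂ) = Sum.elim (cexp (f u + b0) • (0 : Fin (M + 1) → ℂ))
          (ee τ ((4 : ℤ) • p) (a u) • fun b =>
            (du τ (a u) (SL D M' a (u + y)) + s • th τ (a u)) (![t0, t1] b)) := by
      rw [hau, hs, smul_zero]
      rfl
    rw [eF, eG, pol.bih_dP _ _ Q k l hQ, pol.bih_eval _ _ _ k l (pol.bih_cD _ _ D Q k l hQ),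
      ← mul_add] at hE1
    have hne : cexp (f u + b0) ^ k * ee τ ((4 : ℤ) • p) (a u) ^ l ≠ 0 :=
      mul_ne_zero (pow_ne_zero _ (Complex.exp_ne_zero _)) (pow_ne_zero _ (Complex.exp_ne_zero _))
    have hE3 := (mul_eq_zero.1 hE1).resolve_left hne
    have e3 : (Sum.elim (0 : Fin (M + 1) → ℂ) (fun b =>
        (du τ (a u) (SL D M' a (u + y)) + s • th τ (a u)) (![t0, t1] b)) :
          Fin (M + 1) ⊕ Fin 2 → ℂ) =
        (Sum.elim (0 : Fin (M + 1) → ℂ) fun b => du τ (a u) (SL D M' a u) (![t0, t1] b)) +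
        (Sum.elim ((0 : ℂ) • A.θ u) (s • fun b => th τ (a u) (![t0, t1] b))) +
        (Sum.elim (0 : Fin (M + 1) → ℂ) fun b => du τ (a u) (SL D M' a y) (![t0, t1] b)) := by
      rw [map_add, du_add]
      funext j
      rcases j with i | b
      · simp
      · simp only [Sum.elim_inr, Pi.add_apply, Pi.smul_apply]
        ring
    rw [e3, pol.dP_add, pol.dP_add, pol.euler _ _ Q k l hQ] at hE3
    have g1 := hE u
    have g2 := hz u
    unfold FA at g1 g2 ⊢
    rw [g2] at hE3
    linear_combination hE3 - g1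
  have ha : Differentiable ℂ a := (LinearMap.toContinuousLinearMap a).differentiable
  have hθ' := (law'.holu g τ hτ).1.comp ha
  have hd' : Differentiable ℂ fun u => du τ (a u) (SL D M' a y) :=
    (law'.holu g τ hτ).2.comp (ha.prodMk (differentiable_const _))
  have hW := zero_of_mul osg (f := fun u => eval (FA A τ a ![t0, t1] u) (pderiv (Sum.inr 1) Q))
    (k := fun u => th τ (a u) t0 * du τ (a u) (SL D M' a y) t1 -
      th τ (a u) t1 * du τ (a u) (SL D M' a y) t0) (diff_ev pol _ (diff_FA A hτ a _))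
    (((differentiable_pi.1 hθ' t0).mul (differentiable_pi.1 hd' t1)).sub
      ((differentiable_pi.1 hθ' t1).mul (differentiable_pi.1 hd' t0)))
    (fun u => pol.wronski _ Q k l hQ _ _ _ (hz u) (key u)) hu0 0
  rw [map_zero] at hW
  exact hW

end HomAux

open HomAux in
theorem homS (h : JetS) : HomS := by
  intro d M g A D τ M' N c a hτ hT hp k
  have hS : (SL D M' (Fintype.linearCombination ℂ a)).restrictScalars ℝ = 0 :=
    LinearMap.ext_on A.span_top fun y hy =>
      coreA h A (Fintype.linearCombination ℂ a) hτ hT hp hy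
  have h1 : SL D M' (Fintype.linearCombination ℂ a) (Pi.single k 1) = 0 :=
    LinearMap.congr_fun hS (Pi.single k 1)
  rw [SL_apply, Fintype.linearCombination_apply_single, one_smul] at h1
  rw [← h1]
  congr 1
  funext j
  rw [aD_apply, Finset.sum_eq_single k]
  · rw [Fintype.linearCombination_apply_single, one_smul, Pi.single_eq_same, mul_one]
  · intro i _ hi
    rw [Pi.single_eq_of_ne hi, mul_zero]
  · simp

end Pool.Agent.Lib.MP_caab05_ag.CM
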