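import Mathlib
import Pool.Agent.Lib.MP_caab05_ag.CM.Stmt
import Pool.Agent.Lib.MP_caab05_ag.LT.JetA
import Pool.Agent.Lib.MP_caab05_ag.GB.Pol

/-! The Taylor coefficients of the affine coordinates are algebraic (Picard iteration). -/

namespace Pool.Agent.Lib.MP_caab05_ag.CM

open MvPolynomial Filter Topology Asymptotics
open Pool.Agent.Lib.MP_caab05_ag.LT.JetAAux (K)

namespace JetAux

variable {κ σ : Type}

/-- a primitive along the rays from the origin -/
lemma ray (Q : MvPolynomial κ K) (j : κ) : ∃ R : MvPolynomial κ K,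
    (∀ u : κ → ℂ, aeval ((0 : ℂ) • u) R = 0) ∧ ∀ (u : κ → ℂ) (t : ℂ),
      HasDerivAt (fun s : ℂ => aeval (s • u) R) (u j * aeval (t • u) Q) t := by
  induction Q using MvPolynomial.induction_on' with
  | monomial m a =>
    set n : ℕ := ∑ i ∈ m.support, m i with hn
    have h1 : ∀ (u : κ → ℂ) (s : ℂ) (b : K), aeval (s • u) (monomial m b) =
        s ^ n * aeval u (monomial m b) := by
      intro u s b
      simp only [aeval_monomial, Finsupp.prod, Pi.smul_apply, smul_eq_mul, mul_pow,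
        Finset.prod_mul_distrib, Finset.prod_pow_eq_pow_sum, hn]
      ring
    have h2 : ∀ (u : κ → ℂ) (s : ℂ),
        aeval (s • u) (C (((n + 1 : ℕ) : K)⁻¹) * X j * monomial m a) =
          s ^ (n + 1) * ((((n + 1 : ℕ) : ℂ))⁻¹ * u j * aeval u (monomial m a)) := by
      intro u s
      rw [map_mul, map_mul, h1, aeval_C, aeval_X, map_inv₀, map_natCast, Pi.smul_apply,
        smul_eq_mul]
      ring
    refine ⟨C (((n + 1 : ℕ) : K)⁻¹) * X j * monomial m a, fun u => ?_, fun u t => ?_⟩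
    · rw [h2, zero_pow (Nat.succ_ne_zero n), zero_mul]
    · simp only [h2]
      refine ((hasDerivAt_pow (n + 1) t).mul_const _).congr_deriv ?_
      have h3 : ((n + 1 : ℕ) : ℂ) ≠ 0 := Nat.cast_ne_zero.2 (Nat.succ_ne_zero n)
      rw [h1, Nat.add_sub_cancel]
      field_simp
  | add p q hp hq =>
    obtain ⟨R, h1, h2⟩ := hp
    obtain ⟨S, h3, h4⟩ := hq
    refine ⟨R + S, fun u => by rw [map_add, h1, h3, add_zero], fun u t => ?_⟩
    simp only [map_add, mul_add]
    exact (h2 u t).add (h4 u t)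

/-- substitution in a polynomial preserves the order of contact -/
lemma contact {Z : Type} {l : Filter Z} {Φ Ψ : Z → σ → ℂ} {h : Z → ℝ}
    (hΦ : ∀ i, (fun z => Φ z i) =O[l] fun _ => (1 : ℝ))
    (hΨ : ∀ i, (fun z => Ψ z i) =O[l] fun _ => (1 : ℝ))
    (hd : ∀ i, (fun z => Φ z i - Ψ z i) =O[l] h) (P : MvPolynomial σ K) :
    ((fun z => aeval (Ψ z) P) =O[l] fun _ => (1 : ℝ)) ∧
      (fun z => aeval (Φ z) P - aeval (Ψ z) P) =O[l] h := by
  induction P using MvPolynomial.induction_on with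
  | C a =>
    simp only [aeval_C, sub_self]
    exact ⟨isBigO_const_const _ one_ne_zero _, isBigO_zero _ _⟩
  | add p q hp hq =>
    simp only [map_add]
    exact ⟨hp.1.add hq.1, (hp.2.add hq.2).congr_left fun z => by ring⟩
  | mul_X p i hp =>
    simp only [map_mul, aeval_X]
    refine ⟨(hp.1.mul (hΨ i)).congr_right fun _ => mul_one _, ?_⟩
    have h1 := (hp.2.mul (hΦ i)).congr_right fun z => mul_one (h z)
    have h2 := (hp.1.mul (hd i)).congr_right fun z => one_mul (h z)
    exact (h1.add h2).congr_left fun z => by ring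

variable [Fintype κ] [DecidableEq κ] [Fintype σ]

/-- Picard iteration -/
lemma picard (Φ : (κ → ℂ) → σ → ℂ) (P : σ → κ → MvPolynomial σ K)
    (h0 : ∀ i, IsAlgebraic ℚ (Φ 0 i))
    (hΦ : ∀ᶠ z in 𝓝 (0 : κ → ℂ), DifferentiableAt ℂ Φ z ∧ ∀ i j,
      fderiv ℂ Φ z (Pi.single j 1) i = aeval (Φ z) (P i j)) (n : ℕ) :
    ∃ T : σ → MvPolynomial κ K, ∀ i,
      (fun u => Φ u i - aeval u (T i)) =O[𝓝 0] fun u => ‖u‖ ^ n := by
  have hb : ∀ i, (fun z => Φ z i) =O[𝓝 0] fun _ => (1 : ℝ) := fun i =>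
    ((continuous_apply i).continuousAt.comp hΦ.self_of_nhds.1.continuousAt).isBigO_one ℝ
  induction n with
  | zero => exact ⟨0, fun i => by simpa using hb i⟩
  | succ n ih =>
    obtain ⟨T, hT⟩ := ih
    have hb' : ∀ i, (fun z : κ → ℂ => aeval z (T i)) =O[𝓝 0] fun _ => (1 : ℝ) := fun i =>
      (LT.JetAAux.differentiable_aeval (T i)).continuous.continuousAt.isBigO_one ℝ
    choose R hR0 hR using fun i j => ray (bind₁ T (P i j)) j
    refine ⟨fun i => C ⟨Φ 0 i, mem_algebraicClosure_iff.2 (h0 i)⟩ + ∑ j, R i j, fun i => ?_⟩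
    have h1 : (fun z => ∑ j, ‖aeval (Φ z) (P i j) - aeval z (bind₁ T (P i j))‖) =O[𝓝 0]
        fun u : κ → ℂ => ‖u‖ ^ n := by
      simp only [aeval_bind₁]
      exact (IsBigO.sum (s := Finset.univ) fun j _ =>
        (contact hb hb' hT (P i j)).2.norm_left).congr_left fun z => Finset.sum_apply _ _ _
    obtain ⟨c, hc0, hc⟩ := h1.exists_nonneg
    obtain ⟨r, hr, hball⟩ := Metric.eventually_nhds_iff_ball.1 (hΦ.and hc.bound)
    refine IsBigO.of_bound c ?_
    filter_upwards [Metric.ball_mem_nhds (0 : κ → ℂ) hr] with u hu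
    have hle : ∀ t ∈ Metric.closedBall (0 : ℂ) 1, ‖t • u‖ ≤ ‖u‖ := by
      intro t ht
      rw [norm_smul]
      exact mul_le_of_le_one_left (norm_nonneg _) (mem_closedBall_zero_iff.1 ht)
    have hin : ∀ t ∈ Metric.closedBall (0 : ℂ) 1, t • u ∈ Metric.ball (0 : κ → ℂ) r :=
      fun t ht => mem_ball_zero_iff.2 ((hle t ht).trans_lt (mem_ball_zero_iff.1 hu))
    have hw : u = ∑ j, u j • (Pi.single j 1 : κ → ℂ) := by
      ext k; simp [Finset.sum_apply, Pi.single_apply]
    have hder : ∀ t ∈ Metric.closedBall (0 : ℂ) 1,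
        HasDerivWithinAt (fun s : ℂ => Φ (s • u) i - ∑ j, aeval (s • u) (R i j))
          (∑ j, u j * (aeval (Φ (t • u)) (P i j) - aeval (t • u) (bind₁ T (P i j))))
          (Metric.closedBall 0 1) t := by
      intro t ht
      obtain ⟨⟨h2, h3⟩, -⟩ := hball _ (hin t ht)
      have h4 : HasDerivAt (fun s : ℂ => s • u) u t := by
        simpa using (hasDerivAt_id t).smul_const u
      have h5 := hasDerivAt_pi.1 (h2.hasFDerivAt.comp_hasDerivAt t h4) i
      have h6 := h5.fun_sub (HasDerivAt.fun_sum fun j (_ : j ∈ Finset.univ) => hR i j u t)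
      refine (h6.congr_deriv ?_).hasDerivWithinAt
      conv_lhs => enter [1, 2]; rw [hw]
      simp only [map_sum, map_smul, Finset.sum_apply, Pi.smul_apply, smul_eq_mul, h3, mul_sub,
        Finset.sum_sub_distrib]
    have hbd : ∀ t ∈ Metric.closedBall (0 : ℂ) 1,
        ‖∑ j, u j * (aeval (Φ (t • u)) (P i j) - aeval (t • u) (bind₁ T (P i j)))‖ ≤
          c * ‖u‖ ^ (n + 1) := by
      intro t ht
      obtain ⟨-, h2⟩ := hball _ (hin t ht)
      rw [Real.norm_of_nonneg (Finset.sum_nonneg fun j _ => norm_nonneg _),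
        Real.norm_of_nonneg (pow_nonneg (norm_nonneg _) _)] at h2
      calc _ ≤ ∑ j, ‖u‖ * ‖aeval (Φ (t • u)) (P i j) - aeval (t • u) (bind₁ T (P i j))‖ := by
            refine (norm_sum_le _ _).trans (Finset.sum_le_sum fun j _ => ?_)
            rw [norm_mul]
            exact mul_le_mul_of_nonneg_right (norm_le_pi_norm u j) (norm_nonneg _)
        _ ≤ ‖u‖ * (c * ‖u‖ ^ n) := by
            rw [← Finset.mul_sum]
            refine mul_le_mul_of_nonneg_left (h2.trans ?_) (norm_nonneg _)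
            exact mul_le_mul_of_nonneg_left
              (pow_le_pow_left₀ (norm_nonneg _) (hle t ht) n) hc0
        _ = _ := by ring
    have h7 := (convex_closedBall (0 : ℂ) 1).norm_image_sub_le_of_norm_hasDerivWithin_le hder hbd
      (Metric.mem_closedBall_self zero_le_one) (y := 1) (by simp)
    simp only [hR0, Finset.sum_const_zero, one_smul, sub_zero, norm_one, mul_one] at h7
    rw [zero_smul] at h7
    rw [Real.norm_of_nonneg (pow_nonneg (norm_nonneg _) _), map_add, map_sum, aeval_C]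
    refine le_of_eq_of_le (congrArg _ ?_) h7
    change Φ u i - (Φ 0 i + _) = _
    ring

end JetAux

theorem jetS : JetS := by
  intro d M A D i n
  obtain ⟨Φ, P, h1, h2, h3⟩ := LT.JetAAux.ode A
  obtain ⟨T, hT⟩ := JetAux.picard Φ P h2 h3 n
  refine ⟨map (algebraMap K ℂ) (T (some i)), ?_, ?_⟩
  · refine (hT (some i)).congr_left fun u => ?_
    rw [h1, eval_map, aeval_def]
    rfl
  · have h4 : GB.cD D (map (algebraMap K ℂ) (T (some i))) = 0 := by
      ext m
      rw [GB.pol.coeff_cD, coeff_map, coeff_zero]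
      exact GB.pol.D_alg D _ (mem_algebraicClosure_iff.1 (Subtype.property _))
    simp only [h4, map_zero, sub_self]
    exact isBigO_zero _ _

end Pool.Agent.Lib.MP_caab05_ag.CM
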