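import Mathlib
import Pool.Agent.Lib.MP_caab05_ag.CM.Stmt

/-! The rank of a family of types. -/

namespace Pool.Agent.Lib.MP_caab05_ag.CM

open Module Submodule Set

namespace LinAux

/-- the span of a family of rational vectors has the same dimension over the complex numbers -/
lemma finrank_base {ι X : Type} [Finite ι] [Finite X] (v : ι → X → ℚ) :
    finrank ℂ (span ℂ (range fun k => algebraMap ℚ ℂ ∘ v k)) = finrank ℚ (span ℚ (range v)) := by
  obtain ⟨κ, a, ha, hs, hl⟩ := exists_linearIndependent' ℚ v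
  have := Finite.of_injective a ha
  have := Fintype.ofFinite κ
  have hl' : LinearIndependent ℂ fun i => algebraMap ℚ ℂ ∘ (v ∘ a) i :=
    linearIndependent_algebraMap_comp_iff.2 hl
  rw [← hs, finrank_span_eq_card hl, ← finrank_span_eq_card hl']
  suffices h : span ℂ (range fun k => algebraMap ℚ ℂ ∘ v k) =
      span ℂ (range fun i => algebraMap ℚ ℂ ∘ (v ∘ a) i) by rw [h]
  refine le_antisymm (span_le.2 ?_) (span_mono ?_)
  · rintro _ ⟨k, rfl⟩
    have hk : v k ∈ span ℚ (range (v ∘ a)) := hs ▸ subset_span ⟨k, rfl⟩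
    obtain ⟨c, hc⟩ := (mem_span_range_iff_exists_fun ℚ).1 hk
    refine (mem_span_range_iff_exists_fun ℂ).2 ⟨fun i => (c i : ℂ), ?_⟩
    ext x
    simp [← hc]
  · rintro _ ⟨i, rfl⟩
    exact ⟨a i, rfl⟩

variable {X ι : Type}

open Classical in
/-- the sign function of a set -/
noncomputable def sg (Ψ : ι → Set X) : Matrix ι X ℚ := fun k x => if x ∈ Ψ k then 1 else -1

lemma sg_odd {j : X → X} {Ψ : ι → Set X} (h : ∀ k x, x ∈ Ψ k ↔ j x ∉ Ψ k) (k : ι) (x : X) :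
    sg Ψ k (j x) = -sg Ψ k x := by
  have := h k x
  by_cases hx : x ∈ Ψ k
  · simp [sg, hx, this.1 hx]
  · have h2 : j x ∈ Ψ k := by tauto
    simp [sg, hx, h2]

lemma ind_eq (Ψ : ι → Set X) (k : ι) (r : X → ℂ) (x : X) :
    (Ψ k).indicator r x = (r x + (sg Ψ k x : ℂ) * r x) / 2 := by
  by_cases hx : x ∈ Ψ k <;> simp [sg, hx]

lemma sum_ind [Fintype X] {j : X → X} {Ψ : ι → Set X} (hj : Function.Involutive j)
    (h : ∀ k x, x ∈ Ψ k ↔ j x ∉ Ψ k) (k : ι) (r : X → ℂ) :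
    ∑ x, (Ψ k).indicator (fun x => r x - r (j x)) x = ∑ x, (sg Ψ k x : ℂ) * r x := by
  have e1 : ∑ x, r (j x) = ∑ x, r x := Equiv.sum_comp hj.toPerm r
  have e2 : ∑ x, (sg Ψ k x : ℂ) * r (j x) = -∑ x, (sg Ψ k x : ℂ) * r x := by
    rw [← Equiv.sum_comp hj.toPerm fun x => (sg Ψ k x : ℂ) * r x, ← Finset.sum_neg_distrib]
    refine Finset.sum_congr rfl fun x _ => ?_
    simp [sg_odd h]
  simp only [ind_eq, ← Finset.sum_div, mul_sub, Finset.sum_add_distrib, Finset.sum_sub_distrib,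
    e1, e2]
  ring

lemma left [Fintype X] [Fintype ι] {j : X → X} {Ψ : ι → Set X} {y : ι → ℂ}
    (hj : Function.Involutive j) (h : ∀ k x, x ∈ Ψ k ↔ j x ∉ Ψ k) (hy : ∀ k, y k ≠ 0) :
    finrank ℂ (span ℂ {v : ι → ℂ | ∃ r : X → ℂ, (∀ x, r (j x) = -r x) ∧
        v = fun k => y k * ∑ x, (Ψ k).indicator r x}) = finrank ℚ (span ℚ (range (sg Ψ))) := by
  classical
  let B : Matrix ι X ℂ := fun k => algebraMap ℚ ℂ ∘ sg Ψ k
  have e : {v : ι → ℂ | ∃ r : X → ℂ, (∀ x, r (j x) = -r x) ∧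
      v = fun k => y k * ∑ x, (Ψ k).indicator r x} =
      (LinearMap.range (Matrix.diagonal y * B).mulVecLin : Set (ι → ℂ)) := by
    have key : ∀ r : X → ℂ, (Matrix.diagonal y * B).mulVecLin r =
        fun k => y k * ∑ x, (Ψ k).indicator (fun x => r x - r (j x)) x := fun r => by
      ext k
      rw [sum_ind hj h, Matrix.mulVecLin_apply, ← Matrix.mulVec_mulVec, Matrix.mulVec_diagonal]
      rfl
    ext v
    constructor
    · rintro ⟨r, hr, rfl⟩
      refine ⟨fun x => r x / 2, ?_⟩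
      rw [key]
      have : (fun x => r x / 2 - r (j x) / 2) = r := by
        ext x; rw [hr]; ring
      rw [this]
    · rintro ⟨r, rfl⟩
      exact ⟨fun x => r x - r (j x), fun x => by simp [hj x], key r⟩
  rw [e, span_eq, ← finrank_base]
  change (Matrix.diagonal y * B).rank = _
  rw [Matrix.rank_mul_eq_right_of_det_ne_zero _ _
    (by rw [Matrix.det_diagonal]; exact Finset.prod_ne_zero_iff.2 fun k _ => hy k),
    Matrix.rank_eq_finrank_span_row]
  rfl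

lemma span_ind [Nonempty ι] (Ψ : ι → Set X) :
    span ℚ {f : X → ℚ | ∃ k, (f = (Ψ k).indicator fun _ => (1 : ℚ)) ∨
      f = (Ψ k)ᶜ.indicator fun _ => (1 : ℚ)} = span ℚ (range (sg Ψ)) ⊔ span ℚ {1} := by
  have e1 : ∀ k, ((Ψ k).indicator fun _ => (1 : ℚ)) = (1 / 2 : ℚ) • (sg Ψ k + 1) := fun k => by
    ext x; by_cases hx : x ∈ Ψ k <;> norm_num [sg, hx]
  have e2 : ∀ k, ((Ψ k)ᶜ.indicator fun _ => (1 : ℚ)) = (1 / 2 : ℚ) • (-sg Ψ k + 1) := fun k => by
    ext x; by_cases hx : x ∈ Ψ k <;> norm_num [sg, hx]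
  refine le_antisymm (span_le.2 ?_) (sup_le (span_le.2 ?_) (span_le.2 ?_))
  · rintro _ ⟨k, rfl | rfl⟩
    · rw [e1]
      exact smul_mem _ _ (add_mem_sup (subset_span ⟨k, rfl⟩) (mem_span_singleton_self _))
    · rw [e2]
      exact smul_mem _ _ (add_mem_sup (neg_mem (subset_span ⟨k, rfl⟩)) (mem_span_singleton_self _))
  · rintro _ ⟨k, rfl⟩
    have : sg Ψ k = ((Ψ k).indicator fun _ => (1 : ℚ)) - (Ψ k)ᶜ.indicator fun _ => (1 : ℚ) := by
      rw [e1, e2]; ext x; simp; ring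
    rw [this]
    exact sub_mem (subset_span ⟨k, Or.inl rfl⟩) (subset_span ⟨k, Or.inr rfl⟩)
  · obtain ⟨k⟩ := ‹Nonempty ι›
    have : (1 : X → ℚ) =
        ((Ψ k).indicator fun _ => (1 : ℚ)) + (Ψ k)ᶜ.indicator fun _ => (1 : ℚ) := by
      rw [e1, e2]; ext x; simp; ring
    rw [singleton_subset_iff, this]
    exact add_mem (subset_span ⟨k, Or.inl rfl⟩) (subset_span ⟨k, Or.inr rfl⟩)

lemma one_notMem [Nonempty X] {j : X → X} {Ψ : ι → Set X} (h : ∀ k x, x ∈ Ψ k ↔ j x ∉ Ψ k) :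
    (1 : X → ℚ) ∉ span ℚ (range (sg Ψ)) := by
  intro h1
  obtain ⟨x⟩ := ‹Nonempty X›
  have : ∀ f ∈ span ℚ (range (sg Ψ)), f (j x) = -f x := fun f hf => by
    induction hf using span_induction with
    | mem f hf => obtain ⟨k, rfl⟩ := hf; exact sg_odd h k x
    | zero => simp
    | add f g _ _ hf hg => simp [hf, hg, add_comm]
    | smul c f _ hf => simp [hf]
  have := this 1 h1
  norm_num at this

end LinAux

open LinAux

theorem linS : LinS := by
  intro G X ι _ _ _ _ p j Ψ y hp hj h hy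
  rw [left hj h hy, ← finrank_sup_span_singleton (one_notMem h), ← span_ind,
    (equivMapOfInjective (LinearMap.funLeft ℚ ℚ p)
      (LinearMap.funLeft_injective_of_surjective ℚ ℚ p hp) _).finrank_eq, map_span]
  suffices e : LinearMap.funLeft ℚ ℚ p '' {f : X → ℚ | ∃ k,
      (f = (Ψ k).indicator fun _ => (1 : ℚ)) ∨ f = (Ψ k)ᶜ.indicator fun _ => (1 : ℚ)} =
      {f : G → ℚ | ∃ k, (f = fun σ => (Ψ k).indicator (fun _ => (1 : ℚ)) (p σ)) ∨
        f = fun σ => (Ψ k)ᶜ.indicator (fun _ => (1 : ℚ)) (p σ)} by rw [e]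
  ext f
  constructor
  · rintro ⟨_, ⟨k, rfl | rfl⟩, rfl⟩
    · exact ⟨k, Or.inl rfl⟩
    · exact ⟨k, Or.inr rfl⟩
  · rintro ⟨k, rfl | rfl⟩
    · exact ⟨_, ⟨k, Or.inl rfl⟩, rfl⟩
    · exact ⟨_, ⟨k, Or.inr rfl⟩, rfl⟩

end Pool.Agent.Lib.MP_caab05_ag.CM
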