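import Mathlib
import Pool.Agent.Lib.MP_caab05_ag.CM.Stmt

/-! A pair of adjacent primitive types which are not conjugate, for any Galois group. -/

namespace Pool.Agent.Lib.MP_caab05_ag.CM

open Pool.Agent.Lib.MP_caab05_ag.GB (Emb cj IsCj IsType)

namespace PairAux

variable {G : Type} [Group G] [Finite G]

/-- functions invariant under a subgroup -/
def Inv (H : Subgroup G) : Set (G → ZMod 2) := {e | ∀ g, ∀ h ∈ H, e (g * h) = e g}

theorem card_Inv (H : Subgroup G) : (Inv H).ncard = 2 ^ H.index := by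
  have e : Inv H = Set.range (fun u : G ⧸ H → ZMod 2 => u ∘ QuotientGroup.mk) := by
    ext e
    constructor
    · intro he
      refine ⟨Quotient.lift e fun a b hab => ?_, rfl⟩
      have := he a _ (QuotientGroup.leftRel_apply.1 hab)
      rw [← this]; simp
    · rintro ⟨u, rfl⟩ g h hh
      simp only [Function.comp]
      rw [QuotientGroup.mk_mul_of_mem g hh]
  rw [e, Set.ncard_range_of_injective QuotientGroup.mk_surjective.injective_comp_right,
    Nat.card_fun, Nat.card_zmod]
  rfl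

/-- the stabiliser of a function -/
def stab (e : G → ZMod 2) : Subgroup G where
  carrier := {h | ∀ g, e (g * h) = e g}
  one_mem' := fun g => by rw [mul_one]
  mul_mem' := fun {a b} ha hb g => by rw [← mul_assoc, hb, ha]
  inv_mem' := fun {a} ha g => by rw [← ha (g * a⁻¹), inv_mul_cancel_right]

def Ty (c : G) : Set (G → ZMod 2) := {f | ∀ g, f (g * c) = f g + 1}

omit [Finite G] in
theorem mem_zp {c : G} (hc2 : c * c = 1) {x : G} (hx : x ∈ Subgroup.zpowers c) :
    x = 1 ∨ x = c := by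
  let K : Subgroup G :=
    { carrier := {x | x = 1 ∨ x = c}
      one_mem' := Or.inl rfl
      mul_mem' := by
        rintro a b (rfl | rfl) (rfl | rfl) <;> simp [hc2]
      inv_mem' := by
        rintro a (rfl | rfl)
        · simp
        · exact Or.inr (inv_eq_of_mul_eq_one_right hc2) }
  exact (Subgroup.zpowers_le (H := K)).2 (Or.inr rfl) hx

omit [Finite G] in
theorem exists_ty {c : G} (hc : c ≠ 1) (hc2 : c * c = 1) : ∃ f, f ∈ Ty c := by
  classical
  refine ⟨fun g => if g = (g : G ⧸ Subgroup.zpowers c).out then 0 else 1, fun g => ?_⟩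
  have e : ((g * c : G) : G ⧸ Subgroup.zpowers c) = g :=
    QuotientGroup.mk_mul_of_mem g (Subgroup.mem_zpowers c)
  obtain ⟨h, hh⟩ := QuotientGroup.mk_out_eq_mul (Subgroup.zpowers c) g
  have hne : g * c ≠ g := fun k => hc (mul_left_cancel (k.trans (mul_one g).symm))
  simp only [e, hh]
  rcases mem_zp hc2 h.2 with k | k <;> rw [k]
  · simp [hc]
  · simp [hne.symm]
    rfl

theorem card_ty {c : G} (hc : c ≠ 1) (hc2 : c * c = 1) :
    2 ^ (Nat.card G / 2) ≤ (Ty c).ncard := by
  obtain ⟨f, hf⟩ := exists_ty hc hc2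
  have ho : orderOf c = 2 := orderOf_eq_prime (by rw [pow_two, hc2]) hc
  have h1 := (Subgroup.zpowers c).index_mul_card
  rw [Nat.card_zpowers, ho] at h1
  rw [show Nat.card G / 2 = (Subgroup.zpowers c).index by omega, ← card_Inv]
  refine Set.ncard_le_ncard_of_injOn (fun e => e + f) (fun e he g => ?_)
    (fun a _ b _ h => add_right_cancel h) (Set.toFinite _)
  simp only [Pi.add_apply, he g c (Subgroup.mem_zpowers c), hf g, add_assoc]

/-- the types with a prescribed difference -/
def Sol (c σ : G) (h : G → ZMod 2) : Set (G → ZMod 2) :=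
  {f | f ∈ Ty c ∧ ∀ g, f (g * σ) = f g + h g}

theorem card_sol {c σ : G} (hc : c ≠ 1) (hc2 : c * c = 1) (h1 : σ ≠ 1) (h2 : σ ≠ c)
    (h : G → ZMod 2) : (Sol c σ h).ncard ≤ 2 ^ (Nat.card G / 4) := by
  classical
  rcases (Sol c σ h).eq_empty_or_nonempty with e | ⟨f, hf⟩
  · rw [e]; simp
  let H : Subgroup G := Subgroup.closure {c, σ}
  have mc : c ∈ H := Subgroup.subset_closure (by simp)
  have ms : σ ∈ H := Subgroup.subset_closure (by simp)
  have h4 : 4 ≤ Nat.card H := by
    have hs : ({1, c, σ, c * σ} : Set G) ⊆ H := by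
      rintro x (rfl | rfl | rfl | rfl)
      exacts [H.one_mem, mc, ms, H.mul_mem mc ms]
    have h3 : c * σ ≠ 1 := fun k => h2 (mul_left_cancel (k.trans hc2.symm))
    have := Set.ncard_le_ncard hs (Set.toFinite _)
    rw [Set.ncard_insert_of_notMem (by simp [hc.symm, h1.symm, h3.symm]),
      Set.ncard_insert_of_notMem (by simp [h2.symm, h1]),
      Set.ncard_insert_of_notMem (by simp [hc]), Set.ncard_singleton] at this
    exact this
  have h5 := H.index_mul_card
  have h6 : H.index ≤ Nat.card G / 4 := by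
    rw [Nat.le_div_iff_mul_le (by norm_num), ← h5]
    exact Nat.mul_le_mul_left _ h4
  refine le_trans ?_ (Nat.pow_le_pow_right (by norm_num) h6)
  rw [← card_Inv]
  refine Set.ncard_le_ncard_of_injOn (fun e => e - f) (fun e he g k hk => ?_)
    (fun a _ b _ h => sub_left_injective h) (Set.toFinite _)
  have : H ≤ stab (e - f) := by
    rw [Subgroup.closure_le]
    rintro x (rfl | rfl) g
    · simp only [Pi.sub_apply, he.1 g, hf.1 g]; ring
    · simp only [Pi.sub_apply, he.2 g, hf.2 g]; ring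
  exact this hk g

theorem num {n : ℕ} (hn : 22 ≤ n) : (n - 2) * (2 * 2 ^ (n / 4)) < 2 ^ (n / 2) := by
  induction n using Nat.strong_induction_on with
  | _ n ih =>
  by_cases h : n < 26
  · interval_cases n <;> norm_num
  · have := ih (n - 4) (by omega) (by omega)
    rw [show n / 4 = (n - 4) / 4 + 1 by omega, show n / 2 = (n - 4) / 2 + 2 by omega, pow_succ,
      pow_add]
    have h2 : n - 2 ≤ 2 * (n - 4 - 2) := by omega
    calc (n - 2) * (2 * (2 ^ ((n - 4) / 4) * 2))
        ≤ (2 * (n - 4 - 2)) * (2 * (2 ^ ((n - 4) / 4) * 2)) := Nat.mul_le_mul_right _ h2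
      _ = 4 * ((n - 4 - 2) * (2 * 2 ^ ((n - 4) / 4))) := by ring
      _ < 2 ^ ((n - 4) / 2) * 2 ^ 2 := by omega

open Classical in
/-- the indicator of the place of `1` -/
noncomputable def dl (c g : G) : ZMod 2 := if g = 1 ∨ g = c then 1 else 0

omit [Finite G] in
theorem dl_mul {c : G} (hc2 : c * c = 1) (g : G) : dl c (g * c) = dl c g := by
  unfold dl
  have : (g * c = 1 ∨ g * c = c) ↔ (g = 1 ∨ g = c) := by
    rw [mul_eq_right, or_comm, ← hc2, mul_left_inj, hc2]
  by_cases h : g = 1 ∨ g = c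
  · rw [if_pos h, if_pos (this.2 h)]
  · rw [if_neg h, if_neg fun k => h (this.1 k)]

omit [Finite G] in
theorem not_stab {c σ : G} {f : G → ZMod 2} (hf : f ∈ Ty c) (hc : c ∈ Subgroup.zpowers σ)
    (h : ∀ g, f (g * σ) = f g) : False := by
  have := (Subgroup.zpowers_le (H := stab f)).2 h hc 1
  rw [hf 1] at this
  simp at this

theorem not_flip {c σ : G} {f : G → ZMod 2} (hc : c ∉ Subgroup.zpowers σ)
    (h : ∀ g, f (g * σ) = f g + dl c g) : False := by
  classical
  have := Fintype.ofFinite (Subgroup.zpowers σ)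
  have h1 : ∑ x : Subgroup.zpowers σ, f (x * σ) = ∑ x : Subgroup.zpowers σ, f x :=
    Fintype.sum_equiv (Equiv.mulRight ⟨σ, Subgroup.mem_zpowers σ⟩) _ _ fun _ => rfl
  simp only [h, Finset.sum_add_distrib, add_eq_left] at h1
  rw [Finset.sum_eq_single 1] at h1
  · simp [dl] at h1
  · intro b _ hb
    have h2 : (b : G) ≠ 1 := fun k => hb (Subtype.ext k)
    have h3 : (b : G) ≠ c := fun k => hc (k ▸ b.2)
    simp [dl, h2, h3]
  · simp

theorem exists_good {c : G} (hc : c ≠ 1) (hc2 : c * c = 1) (hG : 22 ≤ Nat.card G) :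
    ∃ f ∈ Ty c, ∀ σ, (σ ≠ 1 → ¬ ∀ g, f (g * σ) = f g) ∧
      (σ ≠ 1 → ¬ ∀ g, f (g * σ) + dl c (g * σ) = f g + dl c g) ∧
      ¬ ∀ g, f (g * σ) = f g + dl c g := by
  classical
  have := Fintype.ofFinite G
  let Bad : G → Set (G → ZMod 2) := fun σ =>
    Sol c σ 0 ∪ Sol c σ (fun g => dl c g - dl c (g * σ)) ∪ Sol c σ (dl c)
  have hB : ∀ σ, σ ≠ 1 → σ ≠ c → (Bad σ).ncard ≤ 2 * 2 ^ (Nat.card G / 4) := by
    intro σ h1 h2
    have k := card_sol hc hc2 h1 h2
    by_cases hz : c ∈ Subgroup.zpowers σ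
    · have e1 : Sol c σ 0 = ∅ := Set.eq_empty_of_forall_notMem fun f hf =>
        not_stab hf.1 hz fun g => by simpa using hf.2 g
      have e2 : Sol c σ (fun g => dl c g - dl c (g * σ)) = ∅ :=
        Set.eq_empty_of_forall_notMem fun f hf =>
          not_stab (f := f + dl c) (fun g => by
            simp only [Pi.add_apply, hf.1 g, dl_mul hc2]; ring) hz fun g => by
            simp only [Pi.add_apply, hf.2 g]; ring
      simp only [Bad, e1, e2, Set.empty_union]
      have := k (dl c)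
      omega
    · have e3 : Sol c σ (dl c) = ∅ := Set.eq_empty_of_forall_notMem fun f hf => not_flip hz hf.2
      simp only [Bad, e3, Set.union_empty]
      have := Set.ncard_union_le (Sol c σ 0) (Sol c σ (fun g => dl c g - dl c (g * σ)))
      have := k 0
      have := k (fun g => dl c g - dl c (g * σ))
      omega
  let s : Finset G := (Finset.univ.erase 1).erase c
  have hs : s.card = Nat.card G - 2 := by
    rw [Finset.card_erase_of_mem (by simp [hc]), Finset.card_erase_of_mem (by simp),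
      Finset.card_univ, Nat.card_eq_fintype_card]
    omega
  have hU : (⋃ σ ∈ s, Bad σ).ncard < (Ty c).ncard := by
    refine lt_of_le_of_lt ?_ ((num hG).trans_le (card_ty hc hc2))
    refine (Finset.set_ncard_biUnion_le s Bad).trans ?_
    rw [← hs, ← smul_eq_mul]
    refine Finset.sum_le_card_nsmul _ _ _ fun σ hσ => ?_
    simp only [s, Finset.mem_erase] at hσ
    exact hB σ hσ.2.1 hσ.1
  obtain ⟨f, hf, hn⟩ := Set.exists_mem_notMem_of_ncard_lt_ncard hU
  have hn' : ∀ σ, σ ≠ 1 → σ ≠ c → f ∉ Bad σ := fun σ h1 h2 k =>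
    hn (Set.mem_biUnion (show σ ∈ (s : Set G) by simp [s, h1, h2]) k)
  refine ⟨f, hf, fun σ => ⟨fun h1 k => ?_, fun h1 k => ?_, fun k => ?_⟩⟩
  · by_cases h2 : σ = c
    · exact not_stab hf (h2 ▸ Subgroup.mem_zpowers σ) k
    · exact hn' σ h1 h2 (Or.inl (Or.inl ⟨hf, fun g => by simpa using k g⟩))
  · by_cases h2 : σ = c
    · have := k 1
      rw [h2, hf, dl_mul hc2] at this
      simp at this
    · exact hn' σ h1 h2 (Or.inl (Or.inr ⟨hf, fun g => by
        rw [← add_sub_assoc, ← k g]; ring⟩))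
  · by_cases h1 : σ = 1
    · have := k 1
      simp [h1, dl] at this
    by_cases h2 : σ = c
    · have hp : 0 < s.card := by omega
      obtain ⟨g, hg⟩ := Finset.card_pos.1 hp
      simp only [s, Finset.mem_erase] at hg
      have := k g
      rw [h2, hf] at this
      simp [dl, hg.1, hg.2.1] at this
    · exact hn' σ h1 h2 (Or.inr ⟨hf, k⟩)

theorem grp {c : G} (hc : c ≠ 1) (hc2 : c * c = 1) (hz : ∀ g, g * c = c * g)
    (hG : 22 ≤ Nat.card G) :
    ∃ T : Fin 2 → Set G, (∀ i g, g ∈ T i ↔ g * c ∉ T i) ∧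
      (∀ (a : G) (i j : Fin 2), (∀ g ∈ T i, g * a ∈ T j) → a = 1 ∧ i = j) ∧
      ∃ a, a ∉ T 0 ∧ T 0 ∪ T 1 = insert a (T 0) := by
  obtain ⟨f, hf, h⟩ := exists_good hc hc2 hG
  let F : Fin 2 → G → ZMod 2 := ![f, fun g => f g + dl c g]
  have hF : ∀ i g, F i (g * c) = F i g + 1 := by
    intro i g
    fin_cases i
    · exact hf g
    · simp only [F, Fin.mk_one, Matrix.cons_val_one, Matrix.cons_val_zero, hf g, dl_mul hc2]; ring
  have z2 : ∀ x : ZMod 2, x = 0 ↔ ¬ x + 1 = 0 := by decide
  refine ⟨fun i => {g | F i g = 0}, fun i g => ?_, ?_, ?_⟩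
  · simp only [Set.mem_ofPred_eq, hF]; exact z2 _
  · intro a i j hn
    simp only [Set.mem_ofPred_eq] at hn
    have k1 : ∀ g, F j (g * a) = F i g := by
      intro g
      have a1 := hn g
      have a2 := hn (g * c)
      rw [mul_assoc, ← hz, ← mul_assoc, hF, hF] at a2
      revert a1 a2
      generalize F j (g * a) = x
      generalize F i g = y
      revert x y
      decide
    have k2 : ∀ g, F i (g * a⁻¹) = F j g := fun g => by
      rw [← k1, inv_mul_cancel_right]
    fin_cases i <;> fin_cases j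
    · exact ⟨by_contra fun ne => (h _).1 ne k1, rfl⟩
    · exact ((h _).2.2 k2).elim
    · exact ((h _).2.2 k1).elim
    · exact ⟨by_contra fun ne => (h _).2.1 ne k1, rfl⟩
  · have z3 : ∀ x : ZMod 2, x = 0 ∨ x = 1 := by decide
    have f1 : f c = f 1 + 1 := by rw [← hf, one_mul]
    have main : ∀ a b : G, ((a = 1 ∧ b = c) ∨ (a = c ∧ b = 1)) → f a = 1 → f b = 0 →
        a ∉ {g | F 0 g = 0} ∧ {g | F 0 g = 0} ∪ {g | F 1 g = 0} = insert a {g | F 0 g = 0} := by
      intro a b hab ha hb
      refine ⟨by simp [F, ha], ?_⟩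
      ext g
      simp only [F, Set.mem_union, Set.mem_ofPred_eq, Set.mem_insert_iff, Matrix.cons_val_one,
        Matrix.cons_val_zero]
      by_cases e1 : g = a
      · have : dl c a = 1 := by rcases hab with ⟨rfl, _⟩ | ⟨rfl, _⟩ <;> simp [dl]
        simp only [e1, ha, this, true_or, iff_true]
        right; rfl
      by_cases e2 : g = b
      · simp [e2, hb]
      have : dl c g = 0 := by rcases hab with ⟨rfl, rfl⟩ | ⟨rfl, rfl⟩ <;> simp [dl, e1, e2]
      simp [e1, this]
    rcases z3 (f 1) with e | e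
    · exact ⟨c, main c 1 (Or.inr ⟨rfl, rfl⟩) (by rw [f1, e, zero_add]) e⟩
    · exact ⟨1, main 1 c (Or.inl ⟨rfl, rfl⟩) e (by rw [f1, e]; rfl)⟩

theorem card_half {c : G} (hc2 : c * c = 1) {T : Set G} (h : ∀ g, g ∈ T ↔ g * c ∉ T) :
    2 * T.ncard = Nat.card G := by
  have e : Tᶜ = (fun g => g * c) '' T := by
    ext g
    constructor
    · intro hg
      refine ⟨g * c, ?_, by simp only [mul_assoc, hc2, mul_one]⟩
      by_contra k
      exact hg ((h g).2 k)
    · rintro ⟨g, hg, rfl⟩
      exact (h g).1 hg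
  have := Set.ncard_add_ncard_compl T
  rw [e, Set.ncard_image_of_injective _ (mul_left_injective c)] at this
  omega

end PairAux

open PairAux NumberField in
theorem pairS : PairS := by
  intro L _ _ c hcj hc hn htr
  classical
  have hcard : Fintype.card (Emb L) = Module.finrank ℚ L := Embeddings.card L ℂ
  obtain ⟨φ0⟩ : Nonempty (Emb L) := Fintype.card_pos_iff.1 (by omega)
  let ι : (L ≃ₐ[ℚ] L) → Emb L := fun σ => φ0.comp (σ : L →+* L)
  have ιinj : Function.Injective ι := fun σ τ h =>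
    AlgEquiv.ext fun x => φ0.injective (RingHom.congr_fun h x)
  have ιsurj : Function.Surjective ι := fun ψ => (htr φ0 ψ).imp fun _ h => h.symm
  have ιmul : ∀ σ τ : L ≃ₐ[ℚ] L, (ι σ).comp (τ : L →+* L) = ι (σ * τ) := fun _ _ => rfl
  have ιcj : ∀ σ, cj (ι σ) = ι (σ * c) := fun σ => RingHom.ext fun x => (hcj (ι σ) x).symm
  have hc2 : c * c = 1 := AlgEquiv.ext fun x => φ0.injective (by
    rw [AlgEquiv.mul_apply, hcj, hcj]; simp)
  have hG : Nat.card (L ≃ₐ[ℚ] L) = Module.finrank ℚ L := by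
    rw [Nat.card_eq_of_bijective ι ⟨ιinj, ιsurj⟩, Nat.card_eq_fintype_card, hcard]
  have hz : ∀ σ : L ≃ₐ[ℚ] L, σ * c = c * σ := fun σ => AlgEquiv.ext fun x => φ0.injective
    ((hcj (ι σ) x).trans (hcj φ0 (σ x)).symm)
  obtain ⟨T, h1, h2, a, h3, h4⟩ := grp hc hc2 hz (hG ▸ hn)
  have mem : ∀ i σ, ι σ ∈ ι '' T i ↔ σ ∈ T i := fun i σ => ιinj.mem_set_image
  have half : ∀ i, 2 * (ι '' T i).ncard = Module.finrank ℚ L := fun i => by
    rw [Set.ncard_image_of_injective _ ιinj, card_half hc2 (h1 i), hG]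
  let P : Set (Emb L × Fin 2) := {p | p.1 ∈ ι '' T p.2}
  have hP : Nat.card P = Module.finrank ℚ L := by
    have e : P = (fun φ => (φ, 0)) '' (ι '' T 0) ∪ (fun φ => (φ, 1)) '' (ι '' T 1) := by
      ext ⟨φ, i⟩
      fin_cases i <;> simp [P]
    rw [Nat.card_coe_set_eq, e, Set.ncard_union_eq, Set.ncard_image_of_injective,
      Set.ncard_image_of_injective (f := fun φ : Emb L => (φ, (1 : Fin 2)))]
    · have := half 0
      have := half 1
      omega
    · exact fun _ _ h => congrArg Prod.fst h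
    · exact fun _ _ h => congrArg Prod.fst h
    · rw [Set.disjoint_left]
      rintro _ ⟨x, _, rfl⟩ ⟨y, _, e⟩
      simp at e
  let E := (Finite.equivFinOfCardEq hP).symm
  have hr : Set.range (fun k => (E k).1) = P := by
    rw [show (fun k => (E k).1) = Subtype.val ∘ E from rfl, Set.range_comp, E.surjective.range_eq,
      Set.image_univ, Subtype.range_coe]
  refine ⟨fun i => ι '' T i, fun k => (E k).1, fun i φ => ?_,
    Subtype.val_injective.comp E.injective, hr, ?_, ?_⟩
  · obtain ⟨σ, rfl⟩ := ιsurj φ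
    rw [ιcj, mem, mem]
    exact h1 i σ
  · intro b i j hb
    exact h2 b i j fun σ hσ => (mem j _).1 (ιmul σ b ▸ hb (ι σ) ((mem i σ).2 hσ))
  · have e : (Set.range fun k => (E k).1.1) = ι '' (T 0 ∪ T 1) := by
      rw [show (fun k => (E k).1.1) = Prod.fst ∘ fun k => (E k).1 from rfl, Set.range_comp, hr,
        Set.image_union]
      ext φ
      constructor
      · rintro ⟨⟨ψ, i⟩, hp, rfl⟩
        fin_cases i
        · exact Or.inl hp
        · exact Or.inr hp
      · rintro (hp | hp)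
        · exact ⟨(φ, 0), hp, rfl⟩
        · exact ⟨(φ, 1), hp, rfl⟩
    rw [e, h4, Set.ncard_image_of_injective _ ιinj, Set.ncard_insert_of_notMem h3]
    have := card_half hc2 (h1 0)
    omega

end Pool.Agent.Lib.MP_caab05_ag.CM
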