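import Mathlib
import Pool.Agent.Lib.MP_caab05_ag.CM.Stmt
import Pool.Agent.Lib.MP_caab05_ag.GB.All
import Pool.Agent.Lib.MP_caab05_ag.GB.Curve

/-! The periods of an abelian variety with complex multiplication. -/

namespace Pool.Agent.Lib.MP_caab05_ag.CM

open Pool.Agent.Lib.MP_caab05_ag.LT (AbVar)
open Pool.Agent.Lib.MP_caab05_ag.GB (Der Emb IsType IsModel elt ell V W Mat Zg app per cst mod' ell')
open Pool.Agent.Lib.MP_caab05_ag.GB.CurveAux (perL exists_den)

namespace PerAux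

variable {g : ℕ}

theorem per_sum {ι : Type} [Fintype ι] (τ : Mat g) (X : ι → ℂ) (v : ι → W g) :
    per τ (∑ φ, X φ • v φ) = ∑ φ, X φ • per τ (v φ) := by
  have h := map_sum (perL τ) (fun φ => X φ • v φ) Finset.univ
  simp only [map_smul] at h
  exact h

theorem app_sum {ι : Type} [Fintype ι] (M : Mat g) (X : ι → ℂ) (v : ι → V g) :
    app M (∑ φ, X φ • v φ) = ∑ φ, X φ • app M (v φ) := by
  have h := map_sum (Matrix.mulVecLin (Matrix.of M)) (fun φ => X φ • v φ) Finset.univ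
  simp only [map_smul] at h
  exact h

/-- the lattice condition passes from generators to the lattice -/
theorem span_lat {d : ℕ} (τ : Mat g) (a : Fin d → V g) (s : Set (Fin d → ℂ))
    (h : ∀ y ∈ s, ∃ p : Zg g, ∑ k, y k • a k = per τ (cst p)) :
    ∀ y ∈ Submodule.span ℤ s, ∃ p : Zg g, ∑ k, y k • a k = per τ (cst p) := by
  intro y hy
  induction hy using Submodule.span_induction with
  | mem y hy => exact h y hy
  | zero =>
    refine ⟨0, ?_⟩
    have e : cst (0 : Zg g) = 0 := funext fun i => by simp [cst]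
    simp only [e, Pi.zero_apply, zero_smul, Finset.sum_const_zero]
    exact (map_zero (perL τ)).symm
  | add y z _ _ hy hz =>
    obtain ⟨p, hp⟩ := hy
    obtain ⟨q, hq⟩ := hz
    refine ⟨p + q, ?_⟩
    have e : cst (p + q) = cst p + cst q := funext fun i => by simp [cst]
    simp only [Pi.add_apply, add_smul, Finset.sum_add_distrib, hp, hq, e]
    exact (map_add (perL τ) _ _).symm
  | smul n y _ hy =>
    obtain ⟨p, hp⟩ := hy
    refine ⟨n • p, ?_⟩
    have e : cst (n • p) = (n : ℂ) • cst p := funext fun i => by simp [cst]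
    simp only [Pi.smul_apply, zsmul_eq_mul, mul_smul, ← Finset.smul_sum, hp]
    rw [← zsmul_eq_mul, e]
    exact (map_smul (perL τ) _ _).symm

end PerAux

open PerAux Classical in
theorem perS (h : HomS) : PerS := by
  intro d M A L _ _ c Ψ l ω hc hΨ hω hΛ D ψ₀ hψ₀
  obtain ⟨g, τ, v, hm⟩ := mod' L c Ψ hc hΨ
  obtain ⟨M', N, c', htw, hper, hM⟩ := ell'.still L c Ψ D g τ v hc hΨ hm
  have h0 : ∀ φ, φ ∉ Ψ → per τ (v φ) = 0 := by
    intro φ hφ
    have e := (hm.ker (Pi.single φ 1)).2 fun ψ hψ =>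
      Pi.single_eq_of_ne (fun e : ψ = φ => hφ (e ▸ hψ)) _
    simpa [Pi.single_apply] using e
  have := A.discrete
  have : IsZLattice ℝ A.Λ := ⟨A.span_top⟩
  obtain ⟨s, hs⟩ := ZLattice.FG ℝ A.Λ
  choose x hx using fun y : s => hΛ y (hs ▸ Submodule.subset_span y.2)
  obtain ⟨N0, hN0, hden⟩ := exists_den (fun y : s => ∑ φ : Emb L, φ (x y) • v φ) fun y => hm.rat _
  obtain ⟨X, hX⟩ : ∃ X : Fin d → Emb L → ℂ, ∀ k ψ, X k ψ = if l ψ = k then (N0 : ℂ) / ω k else 0 :=
    ⟨_, fun _ _ => rfl⟩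
  have key := h d M g A D τ M' N c' (fun k => ∑ ψ, X k ψ • per τ (v ψ)) hm.sg htw (by
    rw [← hs]
    refine span_lat τ _ _ fun y hy => ?_
    obtain ⟨p, hp⟩ := hden ⟨y, hy⟩
    refine ⟨p, ?_⟩
    rw [← hp]
    simp only [Finset.smul_sum, smul_smul]
    rw [per_sum, Finset.sum_comm]
    refine Finset.sum_congr rfl fun ψ _ => ?_
    by_cases hψ : ψ ∈ Ψ
    · rw [← Finset.sum_smul]
      congr 1
      have e : y (l ψ) = ψ (x ⟨y, hy⟩) * ω (l ψ) := hx ⟨y, hy⟩ ψ hψ
      have := hω (l ψ)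
      simp only [hX, mul_ite, mul_zero, Finset.sum_ite_eq, Finset.mem_univ, if_true, e]
      field_simp
    · simp [h0 ψ hψ]) (l ψ₀)
  have key2 : per τ (∑ ψ, (X (l ψ₀) ψ * ell D Ψ ψ + D (X (l ψ₀) ψ)) • v ψ) = 0 := by
    rw [per_sum, ← key, app_sum]
    funext j
    simp only [hM, Pi.add_apply, Finset.sum_apply, Pi.smul_apply, smul_eq_mul, map_sum,
      Derivation.leibniz, hper, ← Finset.sum_add_distrib]
    exact Finset.sum_congr rfl fun ψ _ => by ring
  have e := (hm.ker _).1 key2 ψ₀ hψ₀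
  have hw := hω (l ψ₀)
  have hN : (N0 : ℂ) ≠ 0 := Int.cast_ne_zero.2 hN0
  simp only [hX, if_true, Derivation.leibniz_div, Derivation.map_intCast, smul_eq_mul] at e
  rw [elt, if_pos hψ₀]
  field_simp at e
  apply mul_left_cancel₀ hN
  linear_combination -e

end Pool.Agent.Lib.MP_caab05_ag.CM
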