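import Mathlib
import Pool.Agent.Lib.MP_caab05_ag.CM.Stmt
import Pool.Agent.Lib.MP_caab05_ag.GB.Der

/-! The transcendence degree of finitely many complex numbers is the rank of their derivatives. -/

set_option maxHeartbeats 400000

namespace Pool.Agent.Lib.MP_caab05_ag.CM

open Pool.Agent.Lib.MP_caab05_ag.GB (Der)

namespace RankAux

open Polynomial

theorem trdeg_basis {F E : Type} [Field F] [Field E] [Algebra F E] (S I : Set E)
    (hI : (AlgebraicIndependent.matroid F E).IsBasis I S) :
    Algebra.trdeg F (IntermediateField.adjoin F S) = Cardinal.mk I := by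
  obtain ⟨h1, h2, h3⟩ := AlgebraicIndependent.matroid_isBasis_iff.mp hI
  set K := IntermediateField.adjoin F S with hK
  let x : I → K := fun i => ⟨i, IntermediateField.subset_adjoin F S (h2 i.2)⟩
  have hx : AlgebraicIndependent F x := AlgebraicIndependent.of_comp K.val h1
  have halg : ∀ k : E, k ∈ K → IsAlgebraic (Algebra.adjoin F I) k := by
    intro k hk
    induction hk using IntermediateField.adjoin_induction with
    | mem a ha => exact h3 a ha
    | algebraMap a => exact isAlgebraic_algebraMap (algebraMap F (Algebra.adjoin F I) a)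
    | add a b _ _ ha hb => exact ha.add hb
    | inv a _ ha => exact ha.inv
    | mul a b _ _ ha hb => exact ha.mul hb
  have hmap : (Algebra.adjoin F (Set.range x)).map K.val = Algebra.adjoin F I := by
    rw [AlgHom.map_adjoin, ← Set.range_comp]
    congr 1
    exact Subtype.range_coe
  have hb : IsTranscendenceBasis F x := by
    rw [hx.isTranscendenceBasis_iff_isAlgebraic]
    refine ⟨fun k => ?_⟩
    have hk := halg k k.2
    rw [← hmap] at hk
    refine IsAlgebraic.of_ringHom_of_comp_eq
      ((Algebra.adjoin F (Set.range x)).equivMapOfInjective K.val Subtype.val_injective)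
      K.val hk (AlgEquiv.surjective _) Subtype.val_injective ?_
    ext a
    rfl
  exact hb.cardinalMk_eq_trdeg.symm

theorem kill_adjoin (D : Der) (S : Set ℂ) (h : ∀ s ∈ S, D s = 0) :
    ∀ y ∈ IntermediateField.adjoin ℚ S, D y = 0 := by
  intro y hy
  induction hy using IntermediateField.adjoin_induction with
  | mem a ha => exact h a ha
  | algebraMap a => exact D.map_algebraMap a
  | add a b _ _ ha hb => rw [map_add, ha, hb, add_zero]
  | inv a _ ha => rw [D.leibniz_inv, ha, smul_zero]
  | mul a b _ _ ha hb => rw [D.leibniz, ha, hb, smul_zero, smul_zero, add_zero]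

theorem D_aeval (D : Der) (F : IntermediateField ℚ ℂ) (h : ∀ y ∈ F, D y = 0) (x : ℂ)
    (p : F[X]) : D (aeval x p) = aeval x (derivative p) * D x := by
  induction p using Polynomial.induction_on' with
  | add p q hp hq => rw [map_add, map_add, hp, hq, derivative_add, map_add, add_mul]
  | monomial n a =>
    have ha : D (algebraMap F ℂ a) = 0 := h a a.2
    rw [aeval_monomial, D.leibniz, ha, smul_zero, add_zero, D.leibniz_pow, derivative_monomial,
      aeval_monomial, map_mul, map_natCast]
    simp only [smul_eq_mul, nsmul_eq_mul]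
    ring

theorem kill_alg (D : Der) (F : IntermediateField ℚ ℂ) (h : ∀ y ∈ F, D y = 0) (x : ℂ)
    (hx : IsAlgebraic F x) : D x = 0 := by
  have hi : IsIntegral F x := hx.isIntegral
  have hc : CharZero F := algebraRat.charZero _
  have hs : (minpoly F x).Separable := (minpoly.irreducible hi).separable
  have h1 := D_aeval D F h x (minpoly F x)
  rw [minpoly.aeval, map_zero] at h1
  have h2 : aeval x (derivative (minpoly F x)) ≠ 0 :=
    hs.aeval_derivative_ne_zero (minpoly.aeval F x)
  exact (mul_eq_zero.mp h1.symm).resolve_left h2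

theorem dual (I : Set ℂ) (hI : (AlgebraicIndependent.matroid ℚ ℂ).Indep I) (j : ℂ) (hj : j ∈ I) :
    ∃ D : Der, D j = 1 ∧ ∀ s ∈ I, s ≠ j → D s = 0 := by
  have h1 : j ∉ (AlgebraicIndependent.matroid ℚ ℂ).closure (I \ {j}) :=
    hI.notMem_closure_sdiff_of_mem hj
  rw [AlgebraicIndependent.matroid_closure_eq, SetLike.mem_coe, Subalgebra.mem_algebraicClosure,
    ← IntermediateField.isAlgebraic_adjoin_iff] at h1
  have h2 : ¬ ∀ D : Der, (∀ y ∈ IntermediateField.adjoin ℚ (I \ {j}), D y = 0) → D j = 0 :=
    fun h => h1 (GB.der _ j h)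
  push Not at h2
  obtain ⟨D, hD, hj0⟩ := h2
  refine ⟨(D j)⁻¹ • D, ?_, fun s hs hsj => ?_⟩
  · rw [Derivation.smul_apply, smul_eq_mul, inv_mul_cancel₀ hj0]
  · rw [Derivation.smul_apply,
      hD s (IntermediateField.subset_adjoin ℚ _ ⟨hs, hsj⟩), smul_zero]

/-- the derivatives of a family -/
noncomputable def ev {ι : Type} (y : ι → ℂ) : Der →ₗ[ℂ] (ι → ℂ) where
  toFun D := fun i => D (y i)
  map_add' D E := by
    funext i
    simp
  map_smul' a D := by
    funext i
    simp

theorem span_eq {ι : Type} (y : ι → ℂ) :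
    Submodule.span ℂ (Set.range fun D : Der => fun i => D (y i)) = LinearMap.range (ev y) := by
  rw [← Submodule.span_eq (LinearMap.range (ev y))]
  rfl

end RankAux

open RankAux in
theorem rankS : RankS := by
  intro ι _ y
  classical
  obtain ⟨I, hI⟩ := (AlgebraicIndependent.matroid ℚ ℂ).exists_isBasis (Set.range y)
    (Set.subset_univ _)
  obtain ⟨h1, h2, h3⟩ := AlgebraicIndependent.matroid_isBasis_iff.mp hI
  have hfin : I.Finite := (Set.finite_range y).subset h2
  let _ : Fintype I := hfin.fintype
  refine (trdeg_basis _ I hI).trans ?_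
  rw [span_eq, Cardinal.mk_fintype]
  choose idx hidx using fun s : I => h2 s.2
  let P : LinearMap.range (ev y) →ₗ[ℂ] (I → ℂ) :=
    (LinearMap.funLeft ℂ ℂ idx).comp (LinearMap.range (ev y)).subtype
  have hP : ∀ (D : Der) (s : I), P ⟨ev y D, D, rfl⟩ s = D s := by
    intro D s
    show D (y (idx s)) = D s
    rw [hidx]
  have hinj : Function.Injective P := by
    rw [injective_iff_map_eq_zero]
    rintro ⟨_, D, rfl⟩ h0
    have hk : ∀ s ∈ I, D s = 0 := fun s hs => by
      rw [← hP D ⟨s, hs⟩, h0]
      rfl
    refine Subtype.ext (funext fun i => ?_)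
    show D (y i) = 0
    refine kill_alg D _ (kill_adjoin D I hk) _ ?_
    exact IntermediateField.isAlgebraic_adjoin_iff.mpr (h3 _ ⟨i, rfl⟩)
  have hsurj : Function.Surjective P := by
    rw [← LinearMap.range_eq_top, eq_top_iff, ← (Pi.basisFun ℂ I).span_eq, Submodule.span_le]
    rintro _ ⟨j, rfl⟩
    obtain ⟨D, hD1, hD0⟩ := dual I hI.indep j j.2
    refine ⟨⟨ev y D, D, rfl⟩, funext fun s => ?_⟩
    rw [hP, Pi.basisFun_apply]
    by_cases hs : s = j
    · subst hs
      rw [hD1, Pi.single_eq_same]
    · rw [Pi.single_eq_of_ne hs]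
      exact hD0 s s.2 fun h => hs (Subtype.ext h)
  rw [(LinearEquiv.ofBijective P ⟨hinj, hsurj⟩).finrank_eq, Module.finrank_fintype_fun_eq_card]

end Pool.Agent.Lib.MP_caab05_ag.CM
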