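import Mathlib
import Pool.Agent.Lib.MP_caab05_ag.CM.Stmt
import Pool.Agent.Lib.MP_caab05_ag.WZ.AllA
import Pool.Agent.Lib.MP_caab05_ag.WZ.CM
import Pool.Agent.Lib.MP_caab05_ag.WZ.Gen
import Pool.Agent.Lib.MP_caab05_ag.WZ.OdeV
import Pool.Agent.Lib.MP_caab05_ag.WZ.QTw
import Pool.Agent.Lib.MP_caab05_ag.WZ.Var3
import Pool.Agent.Lib.MP_caab05_ag.WZ.VarA
import Pool.Agent.Lib.MP_caab05_ag.WZ.VarB

/-! The lower bound for all periods of a normal field with complex conjugation. -/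

namespace Pool.Agent.Lib.MP_caab05_ag.CM

open MvPolynomial Filter Topology Asymptotics Complex
open Pool.Agent.Lib.MP_caab05_ag.ZE (Ord VX)
open Pool.Agent.Lib.MP_caab05_ag.GB (Der Emb cj IsCj IsType elt)
open Pool.Agent.Lib.MP_caab05_ag.GB.CycAux (cj_cj card_type)

open WZ WZ.CMAux in
theorem serreS (h5 : GenS) (h7 : PairS) : SerreS := by
  classical
  have h1 := mainA'
  have h2 := brS'
  have h3 := odeV
  have h4 := var3 qTw (varA varB)
  have h6 := latS
  intro L _ _ c hc hc1 h22 htrans F hF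
  obtain ⟨Φ, e, hΦ, he, hrange, hsep, hcard⟩ := h7 L c hc hc1 h22 htrans
  obtain ⟨F', hF', htr⟩ := exists_field F
  rw [← htr]
  have hd : 0 < Module.finrank ℚ L := Module.finrank_pos
  obtain ⟨g, hg⟩ : ∃ g, Module.finrank ℚ L = 2 * g :=
    ⟨(Set.range fun k => (e k).1).ncard - 1, by omega⟩
  have hmem : ∀ k, (e k).1 ∈ Φ (e k).2 := fun k => by
    have : e k ∈ Set.range e := ⟨k, rfl⟩
    rw [hrange] at this
    exact this
  have hex : ∀ i, ∀ φ ∈ Φ i, ∃ k, e k = (φ, i) := fun i φ hφ => by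
    have : (φ, i) ∈ Set.range e := by
      rw [hrange]
      exact hφ
    exact this
  have hun : (Set.range fun k => (e k).1) = Φ 0 ∪ Φ 1 := by
    ext φ
    constructor
    · rintro ⟨k, rfl⟩
      have := hmem k
      rcases two_cases (e k).2 with a | a
      · exact Or.inl (a ▸ this)
      · exact Or.inr (a ▸ this)
    · rintro (a | a)
      · obtain ⟨k, hk⟩ := hex 0 φ a
        exact ⟨k, by simp only [hk]⟩
      · obtain ⟨k, hk⟩ := hex 1 φ a
        exact ⟨k, by simp only [hk]⟩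
  have hone : (Φ 1 \ Φ 0).ncard = 1 := by
    have a1 := card_type (hΦ 0) hg
    have a2 : (Φ 0 ∪ Φ 1 \ Φ 0).ncard = (Φ 0).ncard + (Φ 1 \ Φ 0).ncard :=
      Set.ncard_union_eq Set.disjoint_sdiff_right
    rw [Set.union_sdiff_self, ← hun] at a2
    omega
  obtain ⟨ψ, hψ⟩ := Set.ncard_eq_one.1 hone
  let i1 : Fintype (Φ 0) := Fintype.ofFinite _
  have hI : Fintype.card (Φ 0) = g := by
    rw [← Nat.card_eq_fintype_card, Nat.card_coe_set_eq]
    exact card_type (hΦ 0) hg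
  let pl : Fin (Module.finrank ℚ L) → Φ 0 := fun k => plc (hΦ 0) (e k).1
  let ori : Fin (Module.finrank ℚ L) → Bool := fun k => decide ((e k).1 ∈ Φ 0)
  obtain ⟨M, A, h, ω, 𝔪, hcan, har, hω, hh, halg, h𝔪, hΛ, hD⟩ := h4 L c Φ _ e hc hΦ he hrange
  obtain ⟨hlaw, c₀, hc₀⟩ := h2.grow _ M A h hcan
  obtain ⟨R, hR⟩ := h6 L (Φ 0) 𝔪 (hΦ 0) h𝔪
  have hsurj : Function.Surjective pl := fun i => by
    obtain ⟨k, hk⟩ := hex 0 i.1 i.2
    refine ⟨k, Subtype.ext ?_⟩
    simp only [pl, hk]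
    exact plc_pos _ i.2
  have hgen : GenP A pl := fun U hU hU0 => by
    obtain ⟨i, hi⟩ := h5 L Φ _ M e A.toAbVar ω 𝔪 hΦ he hrange hω hΛ htrans hsep U hU hU0
    refine ⟨{k | (e k).2 = i}, hi, fun k hk k' hk' hkk => he (Prod.ext ?_ ?_)⟩
    · have a := two_eq i _ _ hk hk'
      exact plc_inj (hΦ 0) (hΦ (e k).2) (hmem k) (a ▸ hmem k') hkk
    · exact two_eq i _ _ hk hk'
  obtain ⟨Cz, hCz⟩ := h2.zero _ M A h (Φ 0) pl ori hcan hh hsurj hd (by omega) hgen
  let k0 : Fin (Module.finrank ℚ L) := ⟨0, hd⟩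
  have hmain := h1 (Fin (Module.finrank ℚ L)) (Φ 0) (fun z => A.θ z 0) h pl ori ω
    (plc (hΦ 0) ψ) c₀ R Cz (differentiable_pi.1 A.holo 0) ⟨0, A.origin⟩ (h3 _ M A har) hc₀
    (fun k hk => by
      have a : (e k).1 ∉ Φ 0 := by simpa [ori] using hk
      have b : (e k).1 ∈ Φ 1 \ Φ 0 := by
        refine ⟨?_, a⟩
        have := hmem k
        rcases two_cases (e k).2 with a' | a'
        · exact absurd (a' ▸ this) a
        · exact a' ▸ this
      rw [hψ, Set.mem_singleton_iff] at b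
      simp only [pl, b])
    (by rw [Fintype.card_fin, hI, hg])
    (fun a => by
      obtain ⟨x, hx, hax⟩ := hR fun φ => if hφ : φ ∈ Φ 0 then a ⟨φ, hφ⟩ else 0
      have : Nonempty (Φ 0) := ⟨pl k0⟩
      refine ⟨fun i => i.1 x, (pi_norm_le_iff_of_nonempty _).2 fun i => ?_, hlaw _ ?_⟩
      · have := hax i.1 i.2
        simp only [dif_pos i.2] at this
        exact this
      · refine (hΛ _).2 ⟨_, hx, funext fun k => ?_⟩
        by_cases b : (e k).1 ∈ Φ 0
        · simp [zz, jm, side, lf, rp, ori, pl, b, plc_pos _ b, mul_comm]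
        · simp [zz, jm, side, lf, rp, ori, pl, b, plc_neg _ b, mul_comm])
    hCz F' (fun _ => (ω k0)⁻¹)
    (fun m => by
      constructor
      · refine mul_ne_zero ?_ (inv_ne_zero (hω k0))
        rcases m with k | k
        · exact hω k
        · have a := hω k
          have b := hh k
          simp [lf, WZ.hc, a, b]
      · refine hF' _ (GB.der F _ fun D hD0 => ?_)
        obtain ⟨μ, a, b⟩ := hF D hD0
        have hw : ∀ k, D (ω k) = μ * ω k := fun k => by rw [hD D k, b _ (hΦ _) _ (hmem k)]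
        refine D_div D (l := μ) (hω k0) ?_ (hw k0)
        rcases m with k | k
        · exact hw k
        · exact D_dual D (hω k) (Complex.ofReal_ne_zero.2 Real.pi_ne_zero) (halg k) (hw k) a)
  rw [hI] at hmain
  rw [hg, Nat.cast_mul, Nat.cast_ofNat]
  exact mul_le_mul_right hmain 2

end Pool.Agent.Lib.MP_caab05_ag.CM
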