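import Mathlib
import Pool.Agent.Lib.MP_caab05_ag.CM.Stmt
import Pool.Agent.Lib.MP_caab05_ag.WZ.Key
import Pool.Agent.Lib.MP_caab05_ag.GB.Levels
import Pool.Agent.Lib.MP_caab05_ag.GB.All

/-! The logarithmic derivatives of weight zero are exactly the odd functions. -/

namespace Pool.Agent.Lib.MP_caab05_ag.CM

open Pool.Agent.Lib.MP_caab05_ag.GB (Der Emb cj IsCj IsType elt aff shi' ell' var2')
open Pool.Agent.Lib.MP_caab05_ag.WZ.KeyAux

namespace SurjAux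

variable {L : Type} [Field L] [NumberField L]

theorem exists_odd {c : L ≃ₐ[ℚ] L} (φ₀ : Emb L) (hc : IsCj c) (h : 8 ≤ Module.finrank ℚ L)
    (D : Der) (μ : ℂ) : ∃ r : Emb L → ℂ, (∀ ψ, r (cj ψ) = -r ψ) ∧ ∀ Ψ : Set (Emb L), IsType Ψ →
      φ₀ ∈ Ψ → elt D Ψ φ₀ - μ = ∑ ψ : Emb L, Ψ.indicator r ψ := by
  classical
  obtain ⟨q, q1, -, q3⟩ := aff L c (elt D) hc h (shi' L c D hc)
    (fun Ψ σ ψ => ell'.eqv L Ψ D σ ψ) (fun Ψ hΨ ψ => ell'.odd L Ψ D hΨ ψ)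
  refine ⟨fun ψ => q φ₀ ψ - μ * sgn φ₀ ψ, fun ψ => ?_, fun Ψ hΨ hφ => ?_⟩
  · simp only [q1, sgn_cj]
    ring
  · rw [sum_sgn, ← q3 Ψ hΨ, if_pos hφ, if_neg ((hΨ φ₀).1 hφ)]
    ring

theorem exists_period {c : L ≃ₐ[ℚ] L} (hc : IsCj c) {Ψ : Set (Emb L)} (hΨ : IsType Ψ)
    {φ : Emb L} (hφ : φ ∈ Ψ) : ∃ ω : ℂ, ω ≠ 0 ∧ ∀ D : Der, D ω = elt D Ψ φ * ω := by
  let s : Set (Emb L × Fin 2) := {p | p.1 ∈ Ψ}
  let e := (Finite.equivFin s).symm
  obtain ⟨M, A, ω, 𝔪, h0, -, -, hD⟩ := var2' L c (fun _ => Ψ) _ (fun k => (e k).1) hc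
    (fun _ => hΨ) (Subtype.val_injective.comp e.injective)
    (by rw [← Function.comp_def, e.surjective.range_comp, Subtype.range_coe])
  refine ⟨ω (e.symm ⟨(φ, 0), hφ⟩), h0 _, fun D => ?_⟩
  rw [hD, e.apply_symm_apply]

theorem two_mul_card {Φ : Set (Emb L)} (h : IsType Φ) : 2 * Φ.ncard = Module.finrank ℚ L := by
  have h1 : Φ.ncard + Φᶜ.ncard = Module.finrank ℚ L := by
    rw [Set.ncard_add_ncard_compl, Nat.card_eq_fintype_card, NumberField.Embeddings.card]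
  have h2 : Φᶜ = cj '' Φ := by
    ext φ
    constructor
    · intro hφ
      exact ⟨cj φ, (h _).2 (by rw [cj_cj]; exact hφ), cj_cj φ⟩
    · rintro ⟨ψ, hψ, rfl⟩
      exact (h ψ).1 hψ
  rw [h2, Set.ncard_image_of_injective _ fun _ _ => cj_inj.1] at h1
  omega

/-- the odd functions -/
def Od (L : Type) [Field L] : Submodule ℂ (Emb L → ℂ) where
  carrier := {r | ∀ ψ, r (cj ψ) = -r ψ}
  add_mem' := fun {a b} ha hb ψ => by
    simp only [Pi.add_apply, ha ψ, hb ψ]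
    ring
  zero_mem' := fun ψ => by simp
  smul_mem' := fun a r hr ψ => by
    simp only [Pi.smul_apply, hr ψ, smul_neg]

theorem finrank_od {Φ : Set (Emb L)} (h : IsType Φ) :
    2 * Module.finrank ℂ (Od L) ≤ Module.finrank ℚ L := by
  let i : Fintype Φ := Fintype.ofFinite _
  let f : Od L →ₗ[ℂ] Φ → ℂ := (LinearMap.funLeft ℂ ℂ Subtype.val).comp (Od L).subtype
  have hf : Function.Injective f := by
    refine (injective_iff_map_eq_zero f).2 fun r hr => Subtype.ext (funext fun ψ => ?_)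
    by_cases a : ψ ∈ Φ
    · exact congrFun hr ⟨ψ, a⟩
    · have b : cj ψ ∈ Φ := (h _).2 (by rw [cj_cj]; exact a)
      have e : r.1 (cj ψ) = 0 := congrFun hr ⟨cj ψ, b⟩
      rw [r.2 ψ, neg_eq_zero] at e
      exact e
  have := LinearMap.finrank_le_finrank_of_injective hf
  rw [Module.finrank_fintype_fun_eq_card, ← Nat.card_eq_fintype_card, Nat.card_coe_set_eq] at this
  rw [← two_mul_card h]
  omega

theorem D_sq_div (D : Der) {ω l p : ℂ} (hp : p ≠ 0) (h : D ω = l * ω) :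
    D (ω ^ 2 / p) = 2 * (ω ^ 2 / p) * (l - D p / (2 * p)) := by
  rw [D.leibniz_div, D.leibniz_pow, h]
  simp only [smul_eq_mul, nsmul_eq_mul]
  field_simp
  push_cast
  ring

end SurjAux

open SurjAux in
theorem surjS (h1 : SerreS) (h2 : RankS) : SurjS := by
  classical
  intro L _ _ c φ₀ hc hc1 h22 hN
  have P1 := fun D : Der => exists_odd φ₀ hc (by omega) D (D Real.pi / (2 * Real.pi))
  refine ⟨P1, fun r hr => ?_⟩
  by_cases hex : ∃ Φ : Set (Emb L), IsType Φ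
  swap
  · exact ⟨0, fun Ψ hΨ => absurd ⟨Ψ, hΨ⟩ hex⟩
  obtain ⟨Φ, hΦ⟩ := hex
  have hpi : (Real.pi : ℂ) ≠ 0 := Complex.ofReal_ne_zero.2 Real.pi_ne_zero
  let ι : Type := {Ψ : Set (Emb L) // IsType Ψ ∧ φ₀ ∈ Ψ}
  let i : Fintype ι := Fintype.ofFinite _
  choose ω hω hD using fun Ψ : ι => exists_period hc Ψ.2.1 Ψ.2.2
  obtain ⟨y, hy⟩ : ∃ y : ι → ℂ, y = fun Ψ => ω Ψ ^ 2 / Real.pi := ⟨_, rfl⟩
  have y0 : ∀ Ψ, 2 * y Ψ ≠ 0 := fun Ψ =>
    mul_ne_zero two_ne_zero (hy ▸ div_ne_zero (pow_ne_zero 2 (hω Ψ)) hpi)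
  have yD : ∀ (D : Der) (Ψ : ι),
      D (y Ψ) = 2 * y Ψ * (elt D Ψ.1 φ₀ - D Real.pi / (2 * Real.pi)) := fun D Ψ => by
    rw [hy]
    exact D_sq_div D hpi (hD Ψ D)
  let R : Der →ₗ[ℂ] ι → ℂ :=
    { toFun := fun D Ψ => D (y Ψ)
      map_add' := fun _ _ => rfl
      map_smul' := fun _ _ => rfl }
  let T : (Emb L → ℂ) →ₗ[ℂ] ι → ℂ :=
    { toFun := fun r Ψ => 2 * y Ψ * ∑ ψ : Emb L, Ψ.1.indicator r ψ
      map_add' := fun a b => funext fun Ψ => by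
        simp only [Set.indicator_add', Pi.add_apply, Finset.sum_add_distrib, mul_add]
      map_smul' := fun a b => funext fun Ψ => by
        have e : ∀ ψ, Ψ.1.indicator (a • b) ψ = a * Ψ.1.indicator b ψ := fun ψ => by
          by_cases h : ψ ∈ Ψ.1 <;> simp [h]
        simp only [e, ← Finset.mul_sum, Pi.smul_apply, smul_eq_mul, RingHom.id_apply]
        ring }
  have le : LinearMap.range R ≤ (Od L).map T := by
    rintro _ ⟨D, rfl⟩
    obtain ⟨r', a, b⟩ := P1 D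
    exact ⟨r', a, funext fun Ψ => by
      change 2 * y Ψ * _ = D (y Ψ)
      rw [yD, b Ψ.1 Ψ.2.1 Ψ.2.2]⟩
  have hS := h1 L c hc hc1 h22 hN (IntermediateField.adjoin ℚ (Set.range y)) fun D h0 =>
    ⟨D Real.pi / (2 * Real.pi), by field_simp, fun Ψ hΨ φ hφ => by
      obtain ⟨σ, rfl⟩ := hN φ₀ φ
      let Ψ' : ι := ⟨{ψ | ψ.comp (σ : L →+* L) ∈ Ψ}, fun ψ => hΨ _, hφ⟩
      have e := h0 _ (IntermediateField.subset_adjoin ℚ _ ⟨Ψ', rfl⟩)
      rw [yD] at e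
      rw [← ell'.eqv L Ψ D σ φ₀]
      exact sub_eq_zero.1 ((mul_eq_zero.1 e).resolve_left (y0 _))⟩
  have e : Submodule.span ℂ (Set.range fun D : Der => fun Ψ => D (y Ψ)) = LinearMap.range R :=
    Submodule.span_eq (LinearMap.range R)
  rw [h2 ι y, e] at hS
  have hS' : Module.finrank ℚ L ≤ 2 * Module.finrank ℂ (LinearMap.range R) := by exact_mod_cast hS
  have h3 := finrank_od hΦ
  have h4 := Submodule.finrank_map_le T (Od L)
  have eq := Submodule.eq_of_le_of_finrank_le le (by omega)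
  obtain ⟨D, hD'⟩ : T r ∈ LinearMap.range R := eq ▸ Submodule.mem_map_of_mem hr
  refine ⟨D, fun Ψ hΨ hφ => mul_left_cancel₀ (y0 ⟨Ψ, hΨ, hφ⟩) ?_⟩
  exact (yD D ⟨Ψ, hΨ, hφ⟩).symm.trans (congrFun hD' ⟨Ψ, hΨ, hφ⟩)

end Pool.Agent.Lib.MP_caab05_ag.CM
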