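import Mathlib
import Pool.Agent.Lib.MP_caab05_ag.CM.Fin
import Pool.Agent.Lib.MP_caab05_ag.CM.Fld
import Pool.Agent.Lib.MP_caab05_ag.CM.Gen
import Pool.Agent.Lib.MP_caab05_ag.CM.Hom
import Pool.Agent.Lib.MP_caab05_ag.CM.Jet
import Pool.Agent.Lib.MP_caab05_ag.CM.Lin
import Pool.Agent.Lib.MP_caab05_ag.CM.Pair
import Pool.Agent.Lib.MP_caab05_ag.CM.Per
import Pool.Agent.Lib.MP_caab05_ag.CM.Rank
import Pool.Agent.Lib.MP_caab05_ag.CM.Serre
import Pool.Agent.Lib.MP_caab05_ag.CM.Surj

/-! The theorem for all abelian varieties with complex multiplication, without hypotheses. -/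

namespace Pool.Agent.Lib.MP_caab05_ag.CM

theorem surj' : SurjS := surjS (serreS genS pairS) rankS

theorem fin' : FinS := finS (perS (homS jetS)) surj' rankS fldS extS linS

end Pool.Agent.Lib.MP_caab05_ag.CM
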