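import Mathlib
import Pool.Agent.Lib.MP_caab05_ag.CM.All
import Pool.Agent.Lib.MP_caab05_ag.LR.PiTr

/-! The full period field of an abelian variety with complex multiplication: at most one
exceptional space. -/

namespace Pool.Agent.Lib.MP_caab05_ag.CM

open Pool.Agent.Lib.MP_caab05_ag.LT (AbVar)
open Pool.Agent.Lib.MP_caab05_ag.GB (Der Emb cj IsCj IsType elt)
open Module Submodule

namespace Exc

/-- two functionals which split a functional vanishing on an intersection -/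
theorem split {X Y : Type} [AddCommGroup X] [Module ℚ X] [AddCommGroup Y] [Module ℚ Y]
    (G H : Submodule ℚ X) (m : X →ₗ[ℚ] Y) (h : ∀ x ∈ G, x ∈ H → m x = 0) :
    ∃ n : X →ₗ[ℚ] Y, (∀ x ∈ G, n x = 0) ∧ ∀ x ∈ H, n x = m x := by
  let p : X →ₗ.[ℚ] Y := ⟨G, 0⟩
  let q : X →ₗ.[ℚ] Y := ⟨H, m.domRestrict H⟩
  have e : ∀ (x : p.domain) (y : q.domain), (x : X) = y → p x = q y := fun x y hxy => by
    change 0 = m y
    exact (h y (hxy ▸ x.2) y.2).symm
  obtain ⟨n, hn⟩ := LinearMap.exists_extend (p.sup q e).toFun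
  have k : ∀ z : (p.sup q e).domain, n z = p.sup q e z := fun z => LinearMap.congr_fun hn z
  refine ⟨n, fun x hx => ?_, fun x hx => ?_⟩
  · have a := p.left_le_sup q e
    exact (k ⟨x, a.1 hx⟩).trans (a.2 (x := ⟨x, hx⟩) rfl).symm
  · have a := p.right_le_sup q e
    exact (k ⟨x, a.1 hx⟩).trans (a.2 (x := ⟨x, hx⟩) rfl).symm

/-- the pairing with a function -/
noncomputable def mu {X : Type} [Fintype X] (r : X → ℂ) : (X → ℚ) →ₗ[ℚ] ℂ where
  toFun g := ∑ x, (g x : ℂ) * r x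
  map_add' a b := by
    simp only [Pi.add_apply, Rat.cast_add, add_mul, Finset.sum_add_distrib]
  map_smul' a b := by
    simp only [Pi.smul_apply, smul_eq_mul, Rat.cast_mul, RingHom.id_apply, Finset.smul_sum,
      Rat.smul_def, mul_assoc]

theorem mu_apply {X : Type} [Fintype X] (r : X → ℂ) (g : X → ℚ) :
    mu r g = ∑ x, (g x : ℂ) * r x := rfl

theorem mu_single {X : Type} [Fintype X] [DecidableEq X] (n : (X → ℚ) →ₗ[ℚ] ℂ) (g : X → ℚ) :
    mu (fun x => n (Pi.single x 1)) g = n g := by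
  conv_rhs => rw [pi_eq_sum_univ' g]
  simp only [mu_apply, map_sum, map_smul, Rat.smul_def]

variable {L : Type} [Field L] [NumberField L]

omit [NumberField L] in
theorem cjcj (ψ : Emb L) : cj (cj ψ) = ψ :=
  NumberField.ComplexEmbedding.involutive_conjugate L ψ

theorem sum_cj (f : Emb L → ℂ) : ∑ x, f (cj x) = ∑ x, f x :=
  Equiv.sum_comp (NumberField.ComplexEmbedding.involutive_conjugate L).toPerm f

theorem sum_odd {r : Emb L → ℂ} (h : ∀ x, r (cj x) = -r x) : ∑ x, r x = 0 := by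
  have a := sum_cj r
  simp only [h, Finset.sum_neg_distrib] at a
  linear_combination (-1 / 2 : ℂ) * a

theorem mu_ind (r : Emb L → ℂ) (Ψ : Set (Emb L)) :
    mu r (Ψ.indicator fun _ => 1) = ∑ x, Ψ.indicator r x :=
  Finset.sum_congr rfl fun x _ => by by_cases h : x ∈ Ψ <;> simp [h]

theorem mu_compl {r : Emb L → ℂ} (h : ∀ x, r (cj x) = -r x) (Ψ : Set (Emb L)) :
    mu r (Ψᶜ.indicator fun _ => 1) = -∑ x, Ψ.indicator r x := by
  rw [mu_ind, eq_neg_iff_add_eq_zero, ← Finset.sum_add_distrib, ← sum_odd h]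
  exact Finset.sum_congr rfl fun x _ => by by_cases h : x ∈ Ψ <;> simp [h]

/-- a large normal field with complex conjugation -/
def Good (c : L ≃ₐ[ℚ] L) : Prop := IsCj c ∧ c ≠ 1 ∧ 22 ≤ finrank ℚ L ∧ Nor L

/-- `r` gives the logarithmic derivatives of weight zero -/
def Rel (φ₀ : Emb L) (D : Der) (r : Emb L → ℂ) : Prop :=
  (∀ ψ, r (cj ψ) = -r ψ) ∧ ∀ Ψ : Set (Emb L), IsType Ψ →
    φ₀ ∈ Ψ → elt D Ψ φ₀ - D Real.pi / (2 * Real.pi) = ∑ ψ : Emb L, Ψ.indicator r ψ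

/-- functions on the embeddings as functions on the automorphisms -/
noncomputable def pb (φ₀ : Emb L) : (Emb L → ℚ) →ₗ[ℚ] ((ℂ ≃+* ℂ) → ℚ) :=
  LinearMap.funLeft ℚ ℚ fun σ : ℂ ≃+* ℂ => (σ : ℂ →+* ℂ).comp φ₀

theorem pb_inj (φ₀ : Emb L) : Function.Injective (pb φ₀) :=
  LinearMap.funLeft_injective_of_surjective ℚ ℚ _ (extS L φ₀)

/-- the number pi is algebraic over the periods of weight zero attached to `W` -/
def PL (φ₀ : Emb L) (W : Submodule ℚ ((ℂ ≃+* ℂ) → ℚ)) : Prop :=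
  ∀ D r, Rel φ₀ D r → (∀ g : Emb L → ℚ, (∀ ψ, g (cj ψ) = -g ψ) → pb φ₀ g ∈ W → mu r g = 0) →
    D Real.pi = 0

/-- the odd functions -/
def Odd : Submodule ℚ ((ℂ ≃+* ℂ) → ℚ) where
  carrier := {f | ∀ σ : ℂ ≃+* ℂ, f (σ.trans starRingAut) = -f σ}
  add_mem' := fun {a b} ha hb σ => by
    simp only [Pi.add_apply, ha σ, hb σ]
    ring
  zero_mem' := fun σ => by simp
  smul_mem' := fun a r hr σ => by
    simp only [Pi.smul_apply, hr σ, smul_neg]

theorem PL.mono {φ₀ : Emb L} {W W' : Submodule ℚ ((ℂ ≃+* ℂ) → ℚ)} (h : PL φ₀ W) (e : W ≤ W') :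
    PL φ₀ W' := fun D r a b => h D r a fun g x y => b g x (e y)

theorem PL.odd {φ₀ : Emb L} {W : Submodule ℚ ((ℂ ≃+* ℂ) → ℚ)} (h : PL φ₀ W) :
    PL φ₀ (W ⊓ Odd) := fun D r a b => h D r a fun g x y =>
  b g x ⟨y, fun σ => x ((σ : ℂ →+* ℂ).comp φ₀)⟩

theorem elt_sub {c : L ≃ₐ[ℚ] L} (hc : IsCj c) {Ψ : Set (Emb L)} (hΨ : IsType Ψ) {φ : Emb L}
    (hφ : φ ∈ Ψ) (D E : Der) : elt (D - E) Ψ φ = elt D Ψ φ - elt E Ψ φ := by
  obtain ⟨ω, h0, h⟩ := SurjAux.exists_period hc hΨ hφ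
  refine mul_right_cancel₀ h0 ?_
  rw [← h, sub_mul, ← h, ← h, Derivation.sub_apply]

theorem PL.inf {c : L ≃ₐ[ℚ] L} (hc : Good c) {φ₀ : Emb L} {W W' : Submodule ℚ ((ℂ ≃+* ℂ) → ℚ)}
    (h : PL φ₀ W) (h' : PL φ₀ W') : PL φ₀ (W ⊓ W') := by
  classical
  intro D r hr hm
  let O : Submodule ℚ (Emb L → ℚ) :=
    { carrier := {g | ∀ ψ, g (cj ψ) = -g ψ}
      add_mem' := fun {a b} ha hb σ => by
        simp only [Pi.add_apply, ha σ, hb σ]
        ring
      zero_mem' := fun σ => by simp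
      smul_mem' := fun a r hr σ => by
        simp only [Pi.smul_apply, hr σ, smul_neg] }
  obtain ⟨n, n1, n2⟩ := split (O ⊓ W.comap (pb φ₀)) (O ⊓ W'.comap (pb φ₀)) (mu r)
    fun g a b => hm g a.1 ⟨a.2, b.2⟩
  let s : Emb L → ℂ := fun x => n (Pi.single x 1)
  let r₁ : Emb L → ℂ := fun x => (s x - s (cj x)) / 2
  have o1 : ∀ ψ, r₁ (cj ψ) = -r₁ ψ := fun ψ => by
    simp only [r₁, cjcj]
    ring
  have m1 : ∀ g : Emb L → ℚ, (∀ ψ, g (cj ψ) = -g ψ) → mu r₁ g = n g := fun g hg => by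
    have a := sum_cj fun x => (g x : ℂ) * s (cj x)
    simp only [hg, cjcj, Rat.cast_neg, neg_mul, Finset.sum_neg_distrib] at a
    rw [← mu_single n g, mu_apply, mu_apply]
    simp only [r₁, ← mul_div_assoc, mul_sub, ← Finset.sum_div, Finset.sum_sub_distrib, ← a]
    change _ = ∑ x, (g x : ℂ) * s x
    ring
  obtain ⟨E, hE⟩ := (surj' L c φ₀ hc.1 hc.2.1 hc.2.2.1 hc.2.2.2).2 r₁ o1
  have a1 := h E r₁ ⟨o1, hE⟩ fun g a b => (m1 g a).trans (n1 g ⟨a, b⟩)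
  have a2 := h' (D - E) (r - r₁) ⟨fun ψ => by
      simp only [Pi.sub_apply, hr.1, o1]
      ring, fun Ψ a b => by
      have e : ∀ ψ, Ψ.indicator (r - r₁) ψ = Ψ.indicator r ψ - Ψ.indicator r₁ ψ := fun ψ => by
        by_cases h : ψ ∈ Ψ <;> simp [h]
      simp only [e, Finset.sum_sub_distrib]
      rw [elt_sub hc.1 a b, ← hr.2 Ψ a b, ← hE Ψ a b, Derivation.sub_apply]
      ring⟩ fun g a b => by
    have e : mu (r - r₁) g = mu r g - mu r₁ g := by
      simp only [mu_apply, Pi.sub_apply, mul_sub, Finset.sum_sub_distrib]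
    rw [e, m1 g a, n2 g ⟨a, b⟩, sub_self]
  rwa [Derivation.sub_apply, a1, sub_zero] at a2

theorem exists_der : ∃ D : Der, D Real.pi ≠ 0 := by
  by_contra h
  push Not at h
  have a := GB.der ⊥ (Real.pi : ℂ) fun D _ => h D
  have b : IsAlgebraic ℚ (Real.pi : ℂ) :=
    a.of_ringHom_of_comp_eq (IntermediateField.botEquiv ℚ ℂ).symm (RingHom.id ℂ)
      (AlgEquiv.surjective _) (fun _ _ h => h) (by ext a; simp)
  exact LR.pi_transcendental
    ((isAlgebraic_algebraMap_iff (algebraMap ℝ ℂ).injective).1 b)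

theorem not_bot {c : L ≃ₐ[ℚ] L} (hc : Good c) (φ₀ : Emb L) : ¬ PL φ₀ ⊥ := fun h => by
  obtain ⟨D, hD⟩ := exists_der
  obtain ⟨r, hr⟩ := (surj' L c φ₀ hc.1 hc.2.1 hc.2.2.1 hc.2.2.2).1 D
  refine hD (h D r hr fun g _ b => ?_)
  rw [(injective_iff_map_eq_zero _).1 (pb_inj φ₀) g b, map_zero]

/-- the space of functions attached to a type -/
noncomputable def sp {d : ℕ} {E : Type} [CommRing E] (φ : Fin d → E →+* ℂ) :
    Submodule ℚ ((ℂ ≃+* ℂ) → ℚ) :=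
  span ℚ (Set.range fun ψ : E →+* ℂ => fun σ : ℂ ≃+* ℂ =>
    (Set.range φ).indicator (fun _ => (1 : ℚ)) ((σ : ℂ →+* ℂ).comp ψ))

/-- the field receives the algebra -/
def Rec (φ₀ : Emb L) (E : Type) [CommRing E] : Prop :=
  ∀ (ψ : E →+* ℂ) (x : E), ∃ y, φ₀ y = ψ x

omit [NumberField L] in
theorem Rec.lift {φ₀ : Emb L} {E : Type} [CommRing E] (h : Rec φ₀ E) (ψ : E →+* ℂ) :
    ∃ ψ' : E →+* L, φ₀.comp ψ' = ψ := by
  choose f hf using h ψ
  have i := φ₀.injective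
  exact ⟨{ toFun := f
           map_one' := i (by rw [hf, map_one, map_one])
           map_mul' := fun a b => i (by rw [map_mul, hf, hf, hf, map_mul])
           map_zero' := i (by rw [hf, map_zero, map_zero])
           map_add' := fun a b => i (by rw [map_add, hf, hf, hf, map_add]) }, RingHom.ext hf⟩

theorem dat {c' : L ≃ₐ[ℚ] L} (hc' : IsCj c') (φ₀ : Emb L) {d M : ℕ} (A : AbVar d M) {E : Type}
    [CommRing E] (c : E →+* E) (hc : ∀ (ψ : E →+* ℂ) (x : E), ψ (c x) = starRingEnd ℂ (ψ x))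
    (φ : Fin d → E →+* ℂ)
    (hφ : ∀ ψ : E →+* ℂ, ψ ∈ Set.range φ ↔ (starRingEnd ℂ).comp ψ ∉ Set.range φ)
    (ω : Fin d → ℂ) (hω : ∀ y ∈ A.Λ, ∃ x : E, y = fun k => φ k x * ω k) (hl : Rec φ₀ E) :
    ∃ Ψ : Fin d → Set (Emb L), (∀ k, IsType (Ψ k)) ∧ (∀ k, φ₀ ∈ Ψ k) ∧
      (∀ (D : Der) k, D (ω k) = elt D (Ψ k) φ₀ * ω k) ∧
      sp φ = (span ℚ {g : Emb L → ℚ | ∃ k, (g = (Ψ k).indicator fun _ => (1 : ℚ)) ∨
        g = (Ψ k)ᶜ.indicator fun _ => (1 : ℚ)}).map (pb φ₀) := by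
  classical
  have h0 := FinAux.ne_zero A φ ω hω
  choose φ' hφ' using fun k => hl.lift (φ k)
  let Ψ : Fin d → Set (Emb L) := fun k => {ψ | ψ.comp (φ' k) ∈ Set.range φ}
  have hT : ∀ k, IsType (Ψ k) := fun k ψ => hφ (ψ.comp (φ' k))
  have hm : ∀ k, φ₀ ∈ Ψ k := fun k => ⟨k, (hφ' k).symm⟩
  refine ⟨Ψ, hT, hm, fun D k => ?_, ?_⟩
  · have : ∀ ψ : Emb L, ∃ j, (ψ = φ₀ → j = k) ∧ (ψ ∈ Ψ k → φ j = ψ.comp (φ' k)) := fun ψ => by
      by_cases a : ψ = φ₀
      · exact ⟨k, fun _ => rfl, fun _ => by rw [a, hφ']⟩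
      by_cases b : ψ ∈ Ψ k
      · obtain ⟨j, hj⟩ := b
        exact ⟨j, fun e => (a e).elim, fun _ => hj⟩
      · exact ⟨k, fun _ => rfl, fun e => (b e).elim⟩
    choose l l1 l2 using this
    have := perS (homS jetS) d M A L c' (Ψ k) l ω hc' (hT k) h0 (fun y hy => by
      obtain ⟨x, rfl⟩ := hω y hy
      exact ⟨φ' k x, fun ψ hψ => by simp only [l2 ψ hψ, RingHom.comp_apply]⟩) D φ₀ (hm k)
    rwa [l1 φ₀ rfl] at this
  have i1 : ∀ k (σ : ℂ ≃+* ℂ), (σ : ℂ →+* ℂ).comp (φ k) ∈ Set.range φ ↔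
      (σ : ℂ →+* ℂ).comp φ₀ ∈ Ψ k := fun k σ => by rw [← hφ' k]; rfl
  have i2 : ∀ k (σ : ℂ ≃+* ℂ), (σ : ℂ →+* ℂ).comp ((starRingEnd ℂ).comp (φ k)) ∈ Set.range φ ↔
      (σ : ℂ →+* ℂ).comp φ₀ ∈ (Ψ k)ᶜ := fun k σ => by
    have e : (σ : ℂ →+* ℂ).comp ((starRingEnd ℂ).comp (φ k)) =
        (starRingEnd ℂ).comp ((σ : ℂ →+* ℂ).comp (φ k)) := RingHom.ext fun x => by
      rw [RingHom.comp_apply, RingHom.comp_apply, ← hc, RingHom.comp_apply (starRingEnd ℂ), ← hc]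
      rfl
    rw [e, Set.mem_compl_iff, ← i1, hφ ((σ : ℂ →+* ℂ).comp (φ k)), not_not]
  have p1 : ∀ (S : Set (Emb L)) (σ : ℂ ≃+* ℂ), pb φ₀ (S.indicator fun _ => (1 : ℚ)) σ =
      S.indicator (fun _ => (1 : ℚ)) ((σ : ℂ →+* ℂ).comp φ₀) := fun _ _ => rfl
  rw [map_span, sp]
  congr 1
  ext f
  constructor
  · rintro ⟨ψ, rfl⟩
    by_cases a : ψ ∈ Set.range φ
    · obtain ⟨k, rfl⟩ := a
      exact ⟨_, ⟨k, Or.inl rfl⟩, funext fun σ => by simp only [p1, Set.indicator_apply, i1]⟩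
    · obtain ⟨k, hk⟩ := not_not.1 (mt (hφ ψ).2 a)
      obtain rfl : ψ = (starRingEnd ℂ).comp (φ k) := RingHom.ext fun x => by simp [hk]
      exact ⟨_, ⟨k, Or.inr rfl⟩, funext fun σ => by simp only [p1, Set.indicator_apply, i2]⟩
  · rintro ⟨_, ⟨k, rfl | rfl⟩, rfl⟩
    · exact ⟨φ k, funext fun σ => by simp only [p1, Set.indicator_apply, i1]⟩
    · exact ⟨(starRingEnd ℂ).comp (φ k), funext fun σ => by simp only [p1, Set.indicator_apply, i2]⟩

/-- the number pi is algebraic over the periods of weight zero -/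
def Ex {d : ℕ} (ω : Fin d → ℂ) : Prop :=
  ∀ D : Der, (∀ k, D (ω k ^ 2 / Real.pi) = 0) → D Real.pi = 0

theorem ex_iff {c' : L ≃ₐ[ℚ] L} (hc' : Good c') (φ₀ : Emb L) {d M : ℕ} (A : AbVar d M) {E : Type}
    [CommRing E] (c : E →+* E) (hc : ∀ (ψ : E →+* ℂ) (x : E), ψ (c x) = starRingEnd ℂ (ψ x))
    (φ : Fin d → E →+* ℂ)
    (hφ : ∀ ψ : E →+* ℂ, ψ ∈ Set.range φ ↔ (starRingEnd ℂ).comp ψ ∉ Set.range φ)
    (ω : Fin d → ℂ) (hω : ∀ y ∈ A.Λ, ∃ x : E, y = fun k => φ k x * ω k) (hl : Rec φ₀ E) :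
    Ex ω ↔ PL φ₀ (sp φ) := by
  obtain ⟨Ψ, hT, hm, hD, e⟩ := dat hc'.1 φ₀ A c hc φ hφ ω hω hl
  have h0 := FinAux.ne_zero A φ ω hω
  have hpi : (Real.pi : ℂ) ≠ 0 := Complex.ofReal_ne_zero.2 Real.pi_ne_zero
  have key : ∀ D r, Rel φ₀ D r → ∀ k, D (ω k ^ 2 / Real.pi) =
      2 * (ω k ^ 2 / Real.pi) * ∑ x, (Ψ k).indicator r x := fun D r hr k =>
    (FinAux.der_sq D _ _ (hD D k)).trans (by rw [hr.2 _ (hT k) (hm k)])
  rw [e]
  constructor
  · intro h D r hr hg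
    refine h D fun k => ?_
    have a := hg (((Ψ k).indicator fun _ => 1) - (Ψ k)ᶜ.indicator fun _ => 1) (fun ψ => by
      have := hT k ψ
      by_cases b : ψ ∈ Ψ k
      · simp [b, this.1 b]
      · have b' : cj ψ ∈ Ψ k := by tauto
        simp [b, b']) (mem_map_of_mem (sub_mem (subset_span ⟨k, Or.inl rfl⟩)
          (subset_span ⟨k, Or.inr rfl⟩)))
    rw [map_sub, mu_ind, mu_compl hr.1] at a
    rw [key D r hr]
    linear_combination (ω k ^ 2 / Real.pi) * a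
  · intro h D hk
    obtain ⟨r, hr⟩ := (surj' L c' φ₀ hc'.1 hc'.2.1 hc'.2.2.1 hc'.2.2.2).1 D
    have z : ∀ k, ∑ x, (Ψ k).indicator r x = 0 := fun k =>
      (mul_eq_zero.1 ((key D r hr k).symm.trans (hk k))).resolve_left
        (mul_ne_zero two_ne_zero (div_ne_zero (pow_ne_zero _ (h0 k)) hpi))
    refine h D r hr fun g _ b => ?_
    obtain ⟨g', b, e'⟩ := b
    obtain rfl := pb_inj φ₀ e'
    refine (span_le (p := LinearMap.ker (mu r))).2 ?_ b
    rintro _ ⟨k, rfl | rfl⟩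
    · exact (mu_ind r _).trans (z k)
    · exact (mu_compl hr.1 _).trans (by rw [z k, neg_zero])

open Classical in
theorem trdeg_full {d : ℕ} (ω : Fin d → ℂ) (h0 : ∀ k, ω k ≠ 0) :
    Algebra.trdeg ℚ (IntermediateField.adjoin ℚ (insert (Real.pi : ℂ) (Set.range ω))) =
      Algebra.trdeg ℚ (IntermediateField.adjoin ℚ (Set.range fun k => ω k ^ 2 / Real.pi)) +
        if Ex ω then 0 else 1 := by
  have hpi : (Real.pi : ℂ) ≠ 0 := Complex.ofReal_ne_zero.2 Real.pi_ne_zero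
  let y : Option (Fin d) → ℂ := fun o => o.elim Real.pi ω
  have e0 : insert (Real.pi : ℂ) (Set.range ω) = Set.range y := (Option.range_eq y).symm
  rw [e0, rankS, rankS, RankAux.span_eq, RankAux.span_eq]
  let T : (Option (Fin d) → ℂ) →ₗ[ℂ] (Fin d → ℂ) :=
    { toFun := fun v k => 2 * ω k / Real.pi * v (some k) - ω k ^ 2 / Real.pi ^ 2 * v none
      map_add' := fun a b => funext fun k => by
        simp only [Pi.add_apply]
        ring
      map_smul' := fun a b => funext fun k => by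
        simp only [Pi.smul_apply, smul_eq_mul, RingHom.id_apply]
        ring }
  have hT : ∀ D : Der, T (RankAux.ev y D) = RankAux.ev (fun k => ω k ^ 2 / Real.pi) D :=
    fun D => funext fun k => by
      change 2 * ω k / Real.pi * D (ω k) - ω k ^ 2 / Real.pi ^ 2 * D Real.pi =
        D (ω k ^ 2 / Real.pi)
      rw [Derivation.leibniz_div, Derivation.leibniz_pow]
      simp only [smul_eq_mul, nsmul_eq_mul]
      field_simp
      push_cast
      ring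
  let S := LinearMap.range (RankAux.ev y)
  have h1 := LinearMap.finrank_range_add_finrank_ker (T.domRestrict S)
  have h2 : LinearMap.range (T.domRestrict S) =
      LinearMap.range (RankAux.ev fun k => ω k ^ 2 / Real.pi) := by
    ext v
    constructor
    · rintro ⟨⟨_, D, rfl⟩, rfl⟩
      exact ⟨D, (hT D).symm⟩
    · rintro ⟨D, rfl⟩
      exact ⟨⟨_, D, rfl⟩, hT D⟩
  have h3 : ∀ v, T v = 0 → ∀ k, v (some k) = ω k / (2 * Real.pi) * v none := fun v hv k => by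
    have a : 2 * ω k / Real.pi * v (some k) - ω k ^ 2 / Real.pi ^ 2 * v none = 0 := congrFun hv k
    have := h0 k
    refine mul_left_cancel₀ (a := 2 * ω k / Real.pi) (by simp [this]) ?_
    rw [sub_eq_zero.1 a]
    field_simp
  have h4 : finrank ℂ (LinearMap.ker (T.domRestrict S)) = if Ex ω then 0 else 1 := by
    split_ifs with h
    · rw [finrank_eq_zero, eq_bot_iff]
      rintro ⟨_, D, rfl⟩ hv
      have a : T (RankAux.ev y D) = 0 := hv
      have b : RankAux.ev y D none = 0 := h D fun k => congrFun ((hT D).symm.trans a) k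
      refine Subtype.ext (funext fun o => ?_)
      cases o with
      | none => exact b
      | some k => exact (h3 _ a k).trans (by rw [b, mul_zero]; rfl)
    · simp only [Ex, not_forall] at h
      obtain ⟨D, a, b⟩ := h
      have a' : T (RankAux.ev y D) = 0 := (hT D).trans (funext a)
      let v : LinearMap.ker (T.domRestrict S) := ⟨⟨_, D, rfl⟩, a'⟩
      refine finrank_eq_one v (fun z => b ?_) fun w => ?_
      · exact congrFun (congrArg (fun x => x.1.1) z) none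
      · have b' : RankAux.ev y D none ≠ 0 := b
        refine ⟨w.1.1 none / RankAux.ev y D none, Subtype.ext (Subtype.ext (funext fun o => ?_))⟩
        change w.1.1 none / RankAux.ev y D none * RankAux.ev y D o = w.1.1 o
        cases o with
        | none => field_simp
        | some k =>
          rw [h3 _ a' k, h3 w.1.1 w.2 k]
          field_simp
  rw [h2, h4] at h1
  rw [← h1]
  split_ifs <;> simp

theorem prod_conj {E E' : Type} [CommRing E] [CommRing E'] (c : E →+* E) (c' : E' →+* E')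
    (hc : ∀ (ψ : E →+* ℂ) (x : E), ψ (c x) = starRingEnd ℂ (ψ x))
    (hc' : ∀ (ψ : E' →+* ℂ) (x : E'), ψ (c' x) = starRingEnd ℂ (ψ x))
    (ψ : E × E' →+* ℂ) (x : E × E') : ψ (c.prodMap c' x) = starRingEnd ℂ (ψ x) := by
  have e : ψ (1, 0) * ψ (0, 1) = 0 := by
    rw [← map_mul, Prod.mk_mul_mk, mul_zero, zero_mul]
    exact map_zero ψ
  have e1 : ψ (1, 0) + ψ (0, 1) = 1 := by
    rw [← map_add, Prod.mk_add_mk, add_zero, zero_add]
    exact map_one ψ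
  rcases mul_eq_zero.1 e with h | h
  · have z : ∀ y : E × E', ψ y = ψ (0, y.2) := fun y => by
      have : y = (1, 0) * y + (0, y.2) := by ext <;> simp
      rw [this, map_add, map_mul, h]
      simp
    let χ : E' →+* ℂ :=
      { toFun := fun a => ψ (0, a)
        map_one' := by rw [← e1, h, zero_add]
        map_mul' := fun a b => by rw [← map_mul]; simp
        map_zero' := map_zero ψ
        map_add' := fun a b => by rw [← map_add]; simp }
    rw [z, z x]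
    exact hc' χ x.2
  · have z : ∀ y : E × E', ψ y = ψ (y.1, 0) := fun y => by
      have : y = (0, 1) * y + (y.1, 0) := by ext <;> simp
      rw [this, map_add, map_mul, h]
      simp
    let χ : E →+* ℂ :=
      { toFun := fun a => ψ (a, 0)
        map_one' := by rw [← e1, h, add_zero]
        map_mul' := fun a b => by rw [← map_mul]; simp
        map_zero' := map_zero ψ
        map_add' := fun a b => by rw [← map_add]; simp }
    rw [z, z x]
    exact hc χ x.1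

/-- the spaces over whose periods of weight zero pi is algebraic -/
def Cl (W : Submodule ℚ ((ℂ ≃+* ℂ) → ℚ)) : Prop :=
  FiniteDimensional ℚ W ∧ (∀ f ∈ W, ∀ τ : ℂ ≃+* ℂ, (fun σ => f (τ.trans σ)) ∈ W) ∧
  ∃ (E : Type) (_ : CommRing E) (_ : Algebra ℚ E) (_ : Module.Finite ℚ E) (c : E →+* E),
    (∀ (ψ : E →+* ℂ) (x : E), ψ (c x) = starRingEnd ℂ (ψ x)) ∧
    ∀ (L : Type) [Field L] [NumberField L] (c' : L ≃ₐ[ℚ] L) (φ₀ : Emb L), Good c' → Rec φ₀ E →
      PL φ₀ W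

theorem exists_fld (E : Type) [CommRing E] [Algebra ℚ E] [Module.Finite ℚ E] (c : E →+* E)
    (hc : ∀ (ψ : E →+* ℂ) (x : E), ψ (c x) = starRingEnd ℂ (ψ x)) :
    ∃ (L : Type) (_ : Field L) (_ : NumberField L) (c' : L ≃ₐ[ℚ] L) (φ₀ : Emb L), Good c' ∧
      Rec φ₀ E := by
  obtain ⟨L, _, _, c', φ₀, a, b, d, e, f⟩ := fldS E c hc
  refine ⟨L, inferInstance, inferInstance, c', φ₀, ⟨a, b, d, e⟩, fun ψ x => ?_⟩
  obtain ⟨ψ', rfl⟩ := f ψ
  exact ⟨ψ' x, rfl⟩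

theorem Cl.inf {W W' : Submodule ℚ ((ℂ ≃+* ℂ) → ℚ)} (h : Cl W) (h' : Cl W') : Cl (W ⊓ W') := by
  obtain ⟨f, a, E, _, _, _, c, hc, p⟩ := h
  obtain ⟨-, a', E', _, _, _, c', hc', p'⟩ := h'
  refine ⟨finiteDimensional_of_le inf_le_left, fun g b τ => ⟨a g b.1 τ, a' g b.2 τ⟩, E × E',
    inferInstance, inferInstance, inferInstance, c.prodMap c', prod_conj c c' hc hc',
    fun L _ _ e φ₀ g r => PL.inf g (p L e φ₀ g fun ψ x => ?_) (p' L e φ₀ g fun ψ x => ?_)⟩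
  · exact r (ψ.comp (RingHom.fst E E')) (x, 0)
  · exact r (ψ.comp (RingHom.snd E E')) (0, x)

theorem Cl.odd {W : Submodule ℚ ((ℂ ≃+* ℂ) → ℚ)} (h : Cl W) : Cl (W ⊓ Odd) := by
  obtain ⟨f, a, E, _, _, _, c, hc, p⟩ := h
  exact ⟨finiteDimensional_of_le inf_le_left,
    fun g b τ => ⟨a g b.1 τ, fun σ => b.2 (τ.trans σ)⟩, E,
    inferInstance, inferInstance, inferInstance, c, hc, fun L _ _ e φ₀ g r => (p L e φ₀ g r).odd⟩

theorem Cl.ne_bot {W : Submodule ℚ ((ℂ ≃+* ℂ) → ℚ)} (h : Cl W) : W ≠ ⊥ := by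
  rintro rfl
  obtain ⟨-, -, E, _, _, _, c, hc, p⟩ := h
  obtain ⟨L, _, _, c', φ₀, a, b⟩ := exists_fld E c hc
  exact not_bot a φ₀ (p L c' φ₀ a b)

theorem sp_fin {d : ℕ} {E : Type} [CommRing E] [Algebra ℚ E] [Module.Finite ℚ E]
    (φ : Fin d → E →+* ℂ) : FiniteDimensional ℚ (sp φ) := by
  have hfin : Finite (E →+* ℂ) :=
    Finite.of_injective (fun ψ : E →+* ℂ => ψ.toRatAlgHom) fun a b h =>
      RingHom.ext fun x => congrArg (fun f : E →ₐ[ℚ] ℂ => f x) h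
  exact FiniteDimensional.span_of_finite ℚ (Set.finite_range _)

theorem sp_inv {d : ℕ} {E : Type} [CommRing E] (φ : Fin d → E →+* ℂ) :
    ∀ f ∈ sp φ, ∀ τ : ℂ ≃+* ℂ, (fun σ => f (τ.trans σ)) ∈ sp φ := fun f hf τ => by
  refine (span_le (p := (sp φ).comap
    (LinearMap.funLeft ℚ ℚ fun σ : ℂ ≃+* ℂ => τ.trans σ))).2 ?_ hf
  rintro _ ⟨ψ, rfl⟩
  exact subset_span ⟨(τ : ℂ →+* ℂ).comp ψ, rfl⟩

/-- the odd functions do not factor through a number field -/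
theorem odd_not_le (φ₀ : Emb L) : ¬ Odd ≤ LinearMap.range (pb φ₀) := fun h => by
  classical
  have hj : ∀ σ : ℂ ≃+* ℂ, σ.trans starRingAut ≠ σ := fun σ e => by
    have a := congrArg (fun τ : ℂ ≃+* ℂ => τ (σ.symm Complex.I)) e
    simp only [RingEquiv.trans_apply, RingEquiv.apply_symm_apply] at a
    have b := congrArg Complex.im a
    norm_num [starRingAut_apply] at b
  have hjj : ∀ σ : ℂ ≃+* ℂ, (σ.trans starRingAut).trans starRingAut = σ := fun σ =>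
    RingEquiv.ext fun x => star_star _
  have inj : Function.Injective fun σ : ℂ ≃+* ℂ => (σ : ℂ →+* ℂ).comp φ₀ := fun σ τ e => by
    by_contra ne
    let f : (ℂ ≃+* ℂ) → ℚ := fun ρ =>
      (if ρ = σ then 1 else 0) - if ρ.trans starRingAut = σ then 1 else 0
    obtain ⟨g, hg⟩ := h (x := f) fun ρ => by
      simp only [f, hjj]
      ring
    have a : f σ = f τ := by
      rw [← hg]
      exact congrArg g e
    simp only [f, if_pos, if_neg (hj σ), if_neg (Ne.symm ne)] at a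
    split_ifs at a <;> norm_num at a
  have fin : Finite (ℂ ≃+* ℂ) := Finite.of_injective _ inj
  obtain ⟨p, hp, pp⟩ := Nat.exists_infinite_primes (Nat.card (ℂ ≃+* ℂ) + 2)
  have : NeZero p := ⟨pp.ne_zero⟩
  let K := CyclotomicField p ℚ
  have : IsCyclotomicExtension {p} ℚ K := CyclotomicField.isCyclotomicExtension p ℚ
  have hK : finrank ℚ K = p - 1 := by
    rw [IsCyclotomicExtension.finrank K (Polynomial.cyclotomic.irreducible_rat pp.pos),
      Nat.totient_prime pp]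
  obtain ⟨χ⟩ : Nonempty (Emb K) := inferInstance
  have := Nat.card_le_card_of_surjective _ (extS K χ)
  rw [Nat.card_eq_fintype_card (α := Emb K), NumberField.Embeddings.card, hK] at this
  omega

theorem exists_min : ∃ U : Submodule ℚ ((ℂ ≃+* ℂ) → ℚ), U ≠ ⊥ ∧ U ≤ Odd ∧
    (∀ f ∈ U, ∀ τ : ℂ ≃+* ℂ, (fun σ => f (τ.trans σ)) ∈ U) ∧ (∀ W, Cl W → U ≤ W) ∧
    (Cl U ∨ U = Odd) := by
  classical
  by_cases h : ∃ n, ∃ W, Cl W ∧ finrank ℚ W = n
  · obtain ⟨U, hU, e⟩ := Nat.find_spec h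
    have m : ∀ W, Cl (U ⊓ W) → U ≤ W := fun W hW => by
      have := hU.1
      have a := Nat.find_min' h ⟨_, hW, rfl⟩
      exact inf_eq_left.1 (eq_of_le_of_finrank_le inf_le_left (e ▸ a))
    exact ⟨U, hU.ne_bot, m _ hU.odd, hU.2.1, fun W hW => m W (hU.inf hW), Or.inl hU⟩
  · refine ⟨Odd, fun e => ?_, le_rfl, fun f hf τ σ => hf (τ.trans σ),
      fun W hW => (h ⟨_, W, hW, rfl⟩).elim, Or.inr rfl⟩
    exact odd_not_le (L := ℚ) (algebraMap ℚ ℂ) (e ▸ bot_le)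

end Exc

open Exc in
theorem exc : ∃ U : Submodule ℚ ((ℂ ≃+* ℂ) → ℚ), U ≠ ⊥ ∧
    (∀ f ∈ U, ∀ σ : ℂ ≃+* ℂ, f (σ.trans starRingAut) = -f σ) ∧
    (∀ f ∈ U, ∀ τ : ℂ ≃+* ℂ, (fun σ => f (τ.trans σ)) ∈ U) ∧
    ∀ (d M : ℕ), 0 < d → ∀ (A : AbVar d M) (E : Type) [CommRing E] [Algebra ℚ E]
      [Module.Finite ℚ E] (c : E →+* E),
      (∀ (ψ : E →+* ℂ) (x : E), ψ (c x) = starRingEnd ℂ (ψ x)) → ∀ (φ : Fin d → E →+* ℂ),
      (∀ ψ : E →+* ℂ, ψ ∈ Set.range φ ↔ (starRingEnd ℂ).comp ψ ∉ Set.range φ) →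
      ∀ (ω : Fin d → ℂ), (∀ y ∈ A.Λ, ∃ x : E, y = fun k => φ k x * ω k) →
      (¬ U ≤ sp φ → Algebra.trdeg ℚ (IntermediateField.adjoin ℚ
        (insert (Real.pi : ℂ) (Set.range ω))) = (finrank ℚ (sp φ) : ℕ)) ∧
      (U ≤ sp φ → Algebra.trdeg ℚ (IntermediateField.adjoin ℚ
        (insert (Real.pi : ℂ) (Set.range ω))) + 1 = (finrank ℚ (sp φ) : ℕ)) := by
  obtain ⟨U, u1, u2, u3, u4, u5⟩ := exists_min
  refine ⟨U, u1, u2, u3, fun d M hd A E _ _ _ c hc φ hφ ω hω => ?_⟩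
  have h1 : _ = ((finrank ℚ (sp φ) : ℕ) : Cardinal) := fin' d M hd A E c hc φ hφ ω hω
  have h2 : Ex ω ↔ U ≤ sp φ := by
    refine ⟨fun h => u4 _ ⟨sp_fin φ, sp_inv φ, E, inferInstance, inferInstance, inferInstance, c,
      hc, fun L _ _ c' φ₀ a b => (ex_iff a φ₀ A c hc φ hφ ω hω b).1 h⟩, fun h => ?_⟩
    rcases u5 with ⟨-, -, E', _, _, _, c', hc', p⟩ | rfl
    · obtain ⟨L, _, _, e, φ₀, a, b⟩ := exists_fld (E × E') _ (prod_conj c c' hc hc')
      exact (ex_iff a φ₀ A c hc φ hφ ω hω fun ψ x => b (ψ.comp (RingHom.fst E E')) (x, 0)).2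
        ((p L e φ₀ a fun ψ x => b (ψ.comp (RingHom.snd E E')) (0, x)).mono h)
    · obtain ⟨L, _, _, e, φ₀, a, b⟩ := exists_fld E c hc
      obtain ⟨Ψ, -, -, -, z⟩ := dat a.1 φ₀ A c hc φ hφ ω hω b
      exact (odd_not_le φ₀ (h.trans (z ▸ LinearMap.map_le_range))).elim
  rw [trdeg_full ω (FinAux.ne_zero A φ ω hω), ← h1, ← h2]
  exact ⟨fun h => by rw [if_neg h], fun h => by rw [if_pos h, add_zero]⟩

end Pool.Agent.Lib.MP_caab05_ag.CM
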