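import Mathlib

/-! Linear algebra: a space of functionals of codimension at most one. -/

namespace Pool.Agent.Lib.MP_caab05_ag.CM.Mot

open Module Submodule

variable {X : Type} [AddCommGroup X] [Module ℚ X]

/-- evaluation of functionals on a family -/
noncomputable def evl {ι : Type} (g : ι → X) : (X →ₗ[ℚ] ℂ) →ₗ[ℂ] (ι → ℂ) where
  toFun n := fun i => n (g i)
  map_add' _ _ := rfl
  map_smul' _ _ := rfl

/-- `S` is proper and contains all functionals which vanish on `W` -/
def NF (S : Submodule ℂ (X →ₗ[ℚ] ℂ)) (W : Submodule ℚ X) : Prop :=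
  S ≠ ⊤ ∧ ∀ n : X →ₗ[ℚ] ℂ, (∀ x ∈ W, n x = 0) → n ∈ S

theorem NF.mono {S : Submodule ℂ (X →ₗ[ℚ] ℂ)} {W W' : Submodule ℚ X} (h : NF S W) (e : W ≤ W') :
    NF S W' := ⟨h.1, fun n hn => h.2 n fun x hx => hn x (e hx)⟩

theorem rank_top [Module.Finite ℚ X] {ι : Type} (g : ι → X) :
    finrank ℂ (LinearMap.range (evl g)) = finrank ℚ (span ℚ (Set.range g)) := by
  let W := span ℚ (Set.range g)
  let g' : ι → W := fun i => ⟨g i, subset_span ⟨i, rfl⟩⟩
  have h1 : span ℚ (Set.range g') = ⊤ := by
    apply Submodule.map_injective_of_injective W.injective_subtype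
    rw [map_span, ← Set.range_comp, Submodule.map_top, range_subtype]
    rfl
  have h2 : Function.Injective (evl g') := by
    intro n n' h
    exact LinearMap.ext_on_range h1 fun i => congrFun h i
  have h3 : LinearMap.range (evl g) = LinearMap.range (evl g') := by
    ext v
    constructor
    · rintro ⟨n, rfl⟩
      exact ⟨n.comp W.subtype, rfl⟩
    · rintro ⟨n, rfl⟩
      obtain ⟨m, hm⟩ := LinearMap.exists_extend n
      exact ⟨m, funext fun i => LinearMap.congr_fun hm (g' i)⟩
  rw [h3, LinearMap.finrank_range_of_inj h2, Module.finrank_linearMap, Module.finrank_self,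
    mul_one]

open Classical in
theorem rank_sub [Module.Finite ℚ X] {ι : Type} (g : ι → X) (S : Submodule ℂ (X →ₗ[ℚ] ℂ))
    (e : X →ₗ[ℚ] ℂ) (he : ∀ n, ∃ c : ℂ, n - c • e ∈ S) :
    finrank ℂ (S.map (evl g)) + (if NF S (span ℚ (Set.range g)) then 1 else 0)
      = finrank ℚ (span ℚ (Set.range g)) := by
  rw [← rank_top g]
  have hker : ∀ n : X →ₗ[ℚ] ℂ, (∀ x ∈ span ℚ (Set.range g), n x = 0) ↔ evl g n = 0 := by
    intro n
    constructor
    · intro h
      exact funext fun i => h _ (subset_span ⟨i, rfl⟩)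
    · intro h x hx
      refine (span_le (p := LinearMap.ker n)).2 ?_ hx
      rintro _ ⟨i, rfl⟩
      exact congrFun h i
  split_ifs with h
  · have h1 : e ∉ S := fun a => h.1 (eq_top_iff.2 fun n _ => by
      obtain ⟨c, hc⟩ := he n
      simpa using add_mem hc (smul_mem _ c a))
    have h2 : S ⊔ span ℂ {e} = ⊤ := eq_top_iff.2 fun n _ => by
      obtain ⟨c, hc⟩ := he n
      simpa using add_mem (mem_sup_left hc : _ ∈ S ⊔ span ℂ {e})
        (mem_sup_right (smul_mem _ c (mem_span_singleton_self e)))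
    have h3 := Submodule.finrank_sup_span_singleton h1
    rw [h2, finrank_top] at h3
    have h4 := LinearMap.finrank_range_add_finrank_ker ((evl g).domRestrict S)
    have h5 := LinearMap.finrank_range_add_finrank_ker (evl g)
    have h6 : LinearMap.ker (evl g) ≤ S := fun n hn => h.2 n ((hker n).2 hn)
    rw [LinearMap.range_domRestrict, LinearMap.ker_domRestrict,
      (comapSubtypeEquivOfLe h6).finrank_eq] at h4
    omega
  · rw [add_zero]
    suffices z : S.map (evl g) = LinearMap.range (evl g) by rw [z]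
    apply le_antisymm LinearMap.map_le_range
    rintro _ ⟨n, rfl⟩
    by_cases ht : S = ⊤
    · exact ⟨n, ht ▸ mem_top, rfl⟩
    · have : ∃ m : X →ₗ[ℚ] ℂ, evl g m = 0 ∧ m ∉ S := by
        by_contra a
        push Not at a
        exact h ⟨ht, fun m hm => a m ((hker m).1 hm)⟩
      obtain ⟨m, m0, m1⟩ := this
      obtain ⟨c, hc⟩ := he m
      obtain ⟨c', hc'⟩ := he n
      have c0 : c ≠ 0 := fun a => m1 (by simpa [a] using hc)
      refine ⟨(n - c' • e) - (c' / c) • (m - c • e), sub_mem hc' (smul_mem _ _ hc), ?_⟩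
      have : (n - c' • e) - (c' / c) • (m - c • e) = n - (c' / c) • m := by
        rw [smul_sub, smul_smul, div_mul_cancel₀ _ c0]
        abel
      rw [this, map_sub, map_smul, m0, smul_zero, sub_zero]

theorem ld_mul (D : Derivation ℚ ℂ ℂ) {x y l m : ℂ} (h : D x = l * x) (h' : D y = m * y) :
    D (x * y) = (l + m) * (x * y) := by
  rw [Derivation.leibniz, h, h', smul_eq_mul, smul_eq_mul]
  ring

theorem ld_zpow (D : Derivation ℚ ℂ ℂ) {x l : ℂ} (hx : x ≠ 0) (h : D x = l * x) (n : ℤ) :
    D (x ^ n) = (n * l) * x ^ n := by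
  rw [Derivation.leibniz_zpow, h, smul_eq_mul, zsmul_eq_mul, zpow_sub_one₀ hx]
  field_simp

theorem ld_prod (D : Derivation ℚ ℂ ℂ) {κ : Type} (s : Finset κ) (x l : κ → ℂ)
    (h : ∀ k, D (x k) = l k * x k) : D (∏ k ∈ s, x k) = (∑ k ∈ s, l k) * ∏ k ∈ s, x k := by
  classical
  induction s using Finset.induction_on with
  | empty => simp
  | insert a s ha ih => rw [Finset.prod_insert ha, Finset.sum_insert ha, ld_mul D (h a) ih]

end Pool.Agent.Lib.MP_caab05_ag.CM.Mot
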