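import Mathlib
import Pool.Agent.Lib.MP_caab05_ag.CM.Exc
import Pool.Agent.Lib.MP_caab05_ag.CM.MotAbs

/-! All monomials in `π` and the periods of abelian varieties with complex multiplication: at most
one exceptional space of characters. -/

namespace Pool.Agent.Lib.MP_caab05_ag.CM

open Pool.Agent.Lib.MP_caab05_ag.LT (AbVar)
open Pool.Agent.Lib.MP_caab05_ag.GB (Der Emb cj IsCj IsType elt)
open Module Submodule Exc

namespace Mot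

theorem NF.inf {X : Type} [AddCommGroup X] [Module ℚ X] {S : Submodule ℂ (X →ₗ[ℚ] ℂ)}
    {W W' : Submodule ℚ X} (h : NF S W) (h' : NF S W') : NF S (W ⊓ W') := by
  refine ⟨h.1, fun m hm => ?_⟩
  obtain ⟨n, n1, n2⟩ := split W W' m fun x a b => hm x ⟨a, b⟩
  have a := h.2 n n1
  have b := h'.2 (m - n) fun x hx => by rw [LinearMap.sub_apply, n2 x hx, sub_self]
  simpa using add_mem a b

/-- functions on the embeddings with a weight -/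
def TL (L : Type) [Field L] : Submodule ℚ (Emb L → ℚ) where
  carrier := {g | ∃ w, ∀ ψ, g ψ + g (cj ψ) = w}
  add_mem' := by
    rintro a b ⟨v, hv⟩ ⟨w, hw⟩
    exact ⟨v + w, fun ψ => by simp only [Pi.add_apply, ← hv ψ, ← hw ψ]; ring⟩
  zero_mem' := ⟨0, fun ψ => by simp⟩
  smul_mem' := by
    rintro c a ⟨v, hv⟩
    exact ⟨c * v, fun ψ => by simp only [Pi.smul_apply, smul_eq_mul, ← hv ψ]; ring⟩

/-- functions on the automorphisms with a weight -/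
def TT : Submodule ℚ ((ℂ ≃+* ℂ) → ℚ) where
  carrier := {f | ∃ w, ∀ σ : ℂ ≃+* ℂ, f σ + f (σ.trans starRingAut) = w}
  add_mem' := by
    rintro a b ⟨v, hv⟩ ⟨w, hw⟩
    exact ⟨v + w, fun ψ => by simp only [Pi.add_apply, ← hv ψ, ← hw ψ]; ring⟩
  zero_mem' := ⟨0, fun ψ => by simp⟩
  smul_mem' := by
    rintro c a ⟨v, hv⟩
    exact ⟨c * v, fun ψ => by simp only [Pi.smul_apply, smul_eq_mul, ← hv ψ]; ring⟩

variable {L : Type} [Field L] [NumberField L]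

/-- the weight -/
noncomputable def wt (φ₀ : Emb L) : TL L →ₗ[ℚ] ℂ where
  toFun g := ((g.1 φ₀ + g.1 (cj φ₀) : ℚ) : ℂ)
  map_add' a b := by
    simp only [Submodule.coe_add, Pi.add_apply]
    push_cast
    ring
  map_smul' a b := by
    simp only [Submodule.coe_smul, Pi.smul_apply, smul_eq_mul, RingHom.id_apply, Rat.smul_def]
    push_cast
    ring

/-- the logarithmic derivative -/
noncomputable def lg (φ₀ : Emb L) (D : Der) (r : Emb L → ℂ) : TL L →ₗ[ℚ] ℂ :=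
  (D Real.pi / (2 * Real.pi) : ℂ) • wt φ₀ + (mu r).comp (TL L).subtype

theorem lg_apply (φ₀ : Emb L) (D : Der) (r : Emb L → ℂ) (g : TL L) :
    lg φ₀ D r g = D Real.pi / (2 * Real.pi) * ((g.1 φ₀ + g.1 (cj φ₀) : ℚ) : ℂ) + mu r g.1 := rfl

/-- the span of the logarithmic derivatives -/
noncomputable def SS (φ₀ : Emb L) : Submodule ℂ (TL L →ₗ[ℚ] ℂ) :=
  span ℂ {n | ∃ D r, Rel φ₀ D r ∧ n = lg φ₀ D r}

theorem codim {c : L ≃ₐ[ℚ] L} (hc : Good c) (φ₀ : Emb L) (n : TL L →ₗ[ℚ] ℂ) :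
    ∃ a : ℂ, n - a • wt φ₀ ∈ SS φ₀ := by
  classical
  obtain ⟨m, hm⟩ := LinearMap.exists_extend n
  let s : Emb L → ℂ := fun x => m (Pi.single x 1)
  let r : Emb L → ℂ := fun x => (s x - s (cj x)) / 2
  have o1 : ∀ ψ, r (cj ψ) = -r ψ := fun ψ => by
    simp only [r, cjcj]
    ring
  obtain ⟨D, hD⟩ := (surj' L c φ₀ hc.1 hc.2.1 hc.2.2.1 hc.2.2.2).2 r o1
  refine ⟨(∑ x, s x) / 2 - D Real.pi / (2 * Real.pi), subset_span ⟨D, r, ⟨o1, hD⟩, ?_⟩⟩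
  ext g
  obtain ⟨w, hw⟩ := g.2
  have e1 : n g = ∑ x, (g.1 x : ℂ) * s x := by
    rw [← mu_apply, mu_single m g.1]
    exact (LinearMap.congr_fun hm g).symm
  have e2 := sum_cj fun x => (g.1 x : ℂ) * s (cj x)
  simp only [cjcj] at e2
  have e3 : ∑ x, (g.1 x : ℂ) * s x + ∑ x, (g.1 (cj x) : ℂ) * s x = w * ∑ x, s x := by
    rw [← Finset.sum_add_distrib, Finset.mul_sum]
    refine Finset.sum_congr rfl fun x _ => ?_
    rw [← hw x]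
    push_cast
    ring
  have e4 : mu r g.1 = (∑ x, (g.1 x : ℂ) * s x - ∑ x, (g.1 x : ℂ) * s (cj x)) / 2 := by
    rw [mu_apply, ← Finset.sum_sub_distrib, Finset.sum_div]
    refine Finset.sum_congr rfl fun x _ => ?_
    simp only [r]
    ring
  have e5 : wt φ₀ g = (w : ℂ) := congrArg (fun q : ℚ => (q : ℂ)) (hw φ₀)
  rw [LinearMap.sub_apply, LinearMap.smul_apply, lg_apply, hw φ₀, e5, e1, e4, ← e2, smul_eq_mul]
  linear_combination (1 / 2 : ℂ) * e3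

/-- the pull back of functions with a weight -/
noncomputable def pbT (φ₀ : Emb L) : TL L →ₗ[ℚ] ((ℂ ≃+* ℂ) → ℚ) := (pb φ₀).comp (TL L).subtype

theorem pbT_inj (φ₀ : Emb L) : Function.Injective (pbT φ₀) :=
  (pb_inj φ₀).comp (TL L).injective_subtype

theorem pbT_mem (φ₀ : Emb L) (g : TL L) : pbT φ₀ g ∈ TT := by
  obtain ⟨w, hw⟩ := g.2
  exact ⟨w, fun σ => hw ((σ : ℂ →+* ℂ).comp φ₀)⟩

/-- the constant function -/
def one (L : Type) [Field L] : TL L := ⟨fun _ => 1, 2, fun _ => by norm_num⟩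

/-- the indicator function of a type -/
noncomputable def ind {Ψ : Set (Emb L)} (h : IsType Ψ) : TL L :=
  ⟨Ψ.indicator fun _ => 1, 1, fun ψ => by
    have := h ψ
    by_cases b : ψ ∈ Ψ
    · simp [b, this.1 b]
    · have b' : cj ψ ∈ Ψ := by tauto
      simp [b, b']⟩

theorem lg_one {φ₀ : Emb L} {D : Der} {r : Emb L → ℂ} (h : Rel φ₀ D r) :
    lg φ₀ D r (one L) = D Real.pi / Real.pi := by
  have hpi : (Real.pi : ℂ) ≠ 0 := Complex.ofReal_ne_zero.2 Real.pi_ne_zero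
  rw [lg_apply, mu_apply]
  simp only [one, Rat.cast_one, one_mul, sum_odd h.1]
  push_cast
  field_simp
  ring

theorem lg_ind {φ₀ : Emb L} {D : Der} {r : Emb L → ℂ} (h : Rel φ₀ D r) {Ψ : Set (Emb L)}
    (hΨ : IsType Ψ) (hm : φ₀ ∈ Ψ) : lg φ₀ D r (ind hΨ) = elt D Ψ φ₀ := by
  have a := h.2 Ψ hΨ hm
  have b := (hΨ φ₀).1 hm
  rw [lg_apply]
  simp only [ind, mu_ind, Set.indicator_of_mem hm, Set.indicator_of_notMem b]
  rw [← a]
  push_cast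
  ring

theorem dat2 {c' : L ≃ₐ[ℚ] L} (hc' : IsCj c') (φ₀ : Emb L) {d M : ℕ} (A : AbVar d M) {E : Type}
    [CommRing E] (φ : Fin d → E →+* ℂ)
    (hφ : ∀ ψ : E →+* ℂ, ψ ∈ Set.range φ ↔ (starRingEnd ℂ).comp ψ ∉ Set.range φ)
    (ω : Fin d → ℂ) (hω : ∀ y ∈ A.Λ, ∃ x : E, y = fun k => φ k x * ω k) (hl : Rec φ₀ E) :
    ∃ Ψ : Fin d → Set (Emb L), (∀ k, IsType (Ψ k)) ∧ (∀ k, φ₀ ∈ Ψ k) ∧
      (∀ (D : Der) k, D (ω k) = elt D (Ψ k) φ₀ * ω k) ∧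
      ∀ k (σ : ℂ ≃+* ℂ), (σ : ℂ →+* ℂ).comp (φ k) ∈ Set.range φ ↔
        (σ : ℂ →+* ℂ).comp φ₀ ∈ Ψ k := by
  classical
  have h0 := FinAux.ne_zero A φ ω hω
  choose φ' hφ' using fun k => hl.lift (φ k)
  let Ψ : Fin d → Set (Emb L) := fun k => {ψ | ψ.comp (φ' k) ∈ Set.range φ}
  have hT : ∀ k, IsType (Ψ k) := fun k ψ => hφ (ψ.comp (φ' k))
  have hm : ∀ k, φ₀ ∈ Ψ k := fun k => ⟨k, (hφ' k).symm⟩
  refine ⟨Ψ, hT, hm, fun D k => ?_, fun k σ => by rw [← hφ' k]; rfl⟩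
  have : ∀ ψ : Emb L, ∃ j, (ψ = φ₀ → j = k) ∧ (ψ ∈ Ψ k → φ j = ψ.comp (φ' k)) := fun ψ => by
    by_cases a : ψ = φ₀
    · exact ⟨k, fun _ => rfl, fun _ => by rw [a, hφ']⟩
    by_cases b : ψ ∈ Ψ k
    · obtain ⟨j, hj⟩ := b
      exact ⟨j, fun e => (a e).elim, fun _ => hj⟩
    · exact ⟨k, fun _ => rfl, fun e => (b e).elim⟩
  choose l l1 l2 using this
  have := perS (homS jetS) d M A L c' (Ψ k) l ω hc' (hT k) h0 (fun y hy => by
    obtain ⟨x, rfl⟩ := hω y hy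
    exact ⟨φ' k x, fun ψ hψ => by simp only [l2 ψ hψ, RingHom.comp_apply]⟩) D φ₀ (hm k)
  rwa [l1 φ₀ rfl] at this

/-- the space of the characters of a family of monomials -/
noncomputable def ch {d : ℕ} {E : Type} [CommRing E] (φ : Fin d → E →+* ℂ) {ι : Type}
    (a : ι → Fin d → ℤ) (b : ι → ℤ) : Submodule ℚ ((ℂ ≃+* ℂ) → ℚ) :=
  span ℚ (Set.range fun (i : ι) (σ : ℂ ≃+* ℂ) => (b i : ℚ) + ∑ k, (a i k : ℚ) *
    (Set.range φ).indicator (fun _ => (1 : ℚ)) ((σ : ℂ →+* ℂ).comp (φ k)))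

open Classical in
theorem core {c' : L ≃ₐ[ℚ] L} (hc' : Good c') (φ₀ : Emb L) {d M : ℕ} (A : AbVar d M) {E : Type}
    [CommRing E] (φ : Fin d → E →+* ℂ)
    (hφ : ∀ ψ : E →+* ℂ, ψ ∈ Set.range φ ↔ (starRingEnd ℂ).comp ψ ∉ Set.range φ)
    (ω : Fin d → ℂ) (hω : ∀ y ∈ A.Λ, ∃ x : E, y = fun k => φ k x * ω k) (hl : Rec φ₀ E)
    {ι : Type} [Finite ι] (a : ι → Fin d → ℤ) (b : ι → ℤ) :
    ch φ a b ≤ LinearMap.range (pb φ₀) ∧ ∃ n : ℕ, Algebra.trdeg ℚ (IntermediateField.adjoin ℚ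
      (Set.range fun i => (Real.pi : ℂ) ^ b i * ∏ k, ω k ^ a i k)) = n ∧
      n + (if NF (SS φ₀) ((ch φ a b).comap (pbT φ₀)) then 1 else 0) = finrank ℚ (ch φ a b) := by
  have := Fintype.ofFinite ι
  obtain ⟨Ψ, hT, hm, hD, hi⟩ := dat2 hc'.1 φ₀ A φ hφ ω hω hl
  have h0 := FinAux.ne_zero A φ ω hω
  have hpi : (Real.pi : ℂ) ≠ 0 := Complex.ofReal_ne_zero.2 Real.pi_ne_zero
  let g : ι → TL L := fun i => (b i : ℚ) • one L + ∑ k, (a i k : ℚ) • ind (hT k)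
  let y : ι → ℂ := fun i => (Real.pi : ℂ) ^ b i * ∏ k, ω k ^ a i k
  have y0 : ∀ i, y i ≠ 0 := fun i =>
    mul_ne_zero (zpow_ne_zero _ hpi) (Finset.prod_ne_zero_iff.2 fun k _ => zpow_ne_zero _ (h0 k))
  have e1 : ch φ a b = (span ℚ (Set.range g)).map (pbT φ₀) := by
    rw [map_span, ← Set.range_comp, ch]
    congr 2
    funext i σ
    simp only [g, Function.comp, map_add, map_smul, map_sum, Pi.add_apply, Pi.smul_apply,
      Finset.sum_apply, smul_eq_mul]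
    congr 1
    · exact (mul_one _).symm
    · refine Finset.sum_congr rfl fun k _ => ?_
      congr 1
      change _ = (Ψ k).indicator (fun _ => (1 : ℚ)) ((σ : ℂ →+* ℂ).comp φ₀)
      simp only [Set.indicator_apply, hi]
  have e2 : ∀ D r, Rel φ₀ D r → ∀ i, D (y i) = lg φ₀ D r (g i) * y i := fun D r h i => by
    have a1 : D (Real.pi : ℂ) = D Real.pi / Real.pi * Real.pi := (div_mul_cancel₀ _ hpi).symm
    have a2 := ld_mul D (ld_zpow D hpi a1 (b i))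
      (ld_prod D Finset.univ _ _ fun k => ld_zpow D (h0 k) (hD D k) (a i k))
    refine a2.trans ?_
    congr 1
    simp only [g, map_add, map_smul, map_sum, lg_one h, Rat.smul_def, Rat.cast_intCast]
    congr 1
    exact Finset.sum_congr rfl fun k _ => by rw [lg_ind h (hT k) (hm k)]
  let dg : (ι → ℂ) ≃ₗ[ℂ] (ι → ℂ) :=
    LinearEquiv.piCongrRight fun i => LinearEquiv.smulOfNeZero ℂ ℂ (y i) (y0 i)
  have e3 : ∀ D r, Rel φ₀ D r → RankAux.ev y D = dg (evl g (lg φ₀ D r)) := fun D r h =>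
    funext fun i => (e2 D r h i).trans (mul_comm _ _)
  have e4 : LinearMap.range (RankAux.ev y) = ((SS φ₀).map (evl g)).map dg.toLinearMap := by
    apply le_antisymm
    · rintro _ ⟨D, rfl⟩
      obtain ⟨r, hr⟩ := (surj' L c' φ₀ hc'.1 hc'.2.1 hc'.2.2.1 hc'.2.2.2).1 D
      exact ⟨_, ⟨_, subset_span ⟨D, r, hr, rfl⟩, rfl⟩, (e3 D r hr).symm⟩
    · rw [map_le_iff_le_comap, map_le_iff_le_comap, SS, span_le]
      rintro _ ⟨D, r, hr, rfl⟩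
      exact ⟨D, e3 D r hr⟩
  refine ⟨?_, finrank ℂ ((SS φ₀).map (evl g)), ?_, ?_⟩
  · rw [e1]
    rintro _ ⟨x, -, rfl⟩
    exact ⟨x.1, rfl⟩
  · rw [rankS ι y, RankAux.span_eq, e4, LinearEquiv.finrank_map_eq]
  · rw [e1, comap_map_eq_of_injective (pbT_inj φ₀),
      ← (equivMapOfInjective _ (pbT_inj φ₀) _).finrank_eq]
    exact rank_sub g (SS φ₀) (wt φ₀) (codim hc' φ₀)

/-- the exceptional spaces -/
def Cm (W : Submodule ℚ ((ℂ ≃+* ℂ) → ℚ)) : Prop :=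
  FiniteDimensional ℚ W ∧
  ∃ (E : Type) (_ : CommRing E) (_ : Algebra ℚ E) (_ : Module.Finite ℚ E) (c : E →+* E),
    (∀ (ψ : E →+* ℂ) (x : E), ψ (c x) = starRingEnd ℂ (ψ x)) ∧
    ∀ (L : Type) [Field L] [NumberField L] (c' : L ≃ₐ[ℚ] L) (φ₀ : Emb L), Good c' → Rec φ₀ E →
      NF (SS φ₀) (W.comap (pbT φ₀))

theorem Cm.inf {W W' : Submodule ℚ ((ℂ ≃+* ℂ) → ℚ)} (h : Cm W) (h' : Cm W') : Cm (W ⊓ W') := by
  obtain ⟨f, E, _, _, _, c, hc, p⟩ := h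
  obtain ⟨-, E', _, _, _, c', hc', p'⟩ := h'
  refine ⟨finiteDimensional_of_le inf_le_left, E × E',
    inferInstance, inferInstance, inferInstance, c.prodMap c', prod_conj c c' hc hc',
    fun L _ _ e φ₀ g r => ?_⟩
  rw [comap_inf]
  exact NF.inf (p L e φ₀ g fun ψ x => r (ψ.comp (RingHom.fst E E')) (x, 0))
    (p' L e φ₀ g fun ψ x => r (ψ.comp (RingHom.snd E E')) (0, x))

theorem Cm.tt {W : Submodule ℚ ((ℂ ≃+* ℂ) → ℚ)} (h : Cm W) : Cm (W ⊓ TT) := by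
  obtain ⟨f, E, _, _, _, c, hc, p⟩ := h
  exact ⟨finiteDimensional_of_le inf_le_left, E, inferInstance, inferInstance, inferInstance, c,
    hc, fun L _ _ e φ₀ g r => (p L e φ₀ g r).mono fun x hx => ⟨hx, pbT_mem φ₀ x⟩⟩

theorem Cm.weight {W : Submodule ℚ ((ℂ ≃+* ℂ) → ℚ)} (h : Cm W) :
    ∃ f ∈ W, ∃ σ : ℂ ≃+* ℂ, f σ + f (σ.trans starRingAut) ≠ 0 := by
  obtain ⟨-, E, _, _, _, c, hc, p⟩ := h
  obtain ⟨L, _, _, c', φ₀, a, b⟩ := exists_fld E c hc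
  obtain ⟨p1, p2⟩ := p L c' φ₀ a b
  by_contra h
  push Not at h
  have h1 := p2 (wt φ₀) fun g hg => by
    have : g.1 φ₀ + g.1 (cj φ₀) = 0 := h _ hg (RingEquiv.refl ℂ)
    change ((g.1 φ₀ + g.1 (cj φ₀) : ℚ) : ℂ) = 0
    rw [this, Rat.cast_zero]
  refine p1 (eq_top_iff.2 fun n _ => ?_)
  obtain ⟨t, ht⟩ := codim a φ₀ n
  simpa using add_mem ht (smul_mem _ t h1)

theorem Cm.nonconst {W : Submodule ℚ ((ℂ ≃+* ℂ) → ℚ)} (h : Cm W) :
    ∃ f ∈ W, ∃ σ τ : ℂ ≃+* ℂ, f σ ≠ f τ := by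
  obtain ⟨-, E, _, _, _, c, hc, p⟩ := h
  obtain ⟨L, _, _, c', φ₀, a, b⟩ := exists_fld E c hc
  obtain ⟨p1, p2⟩ := p L c' φ₀ a b
  by_contra h
  push Not at h
  obtain ⟨D, hD⟩ := exists_der
  obtain ⟨r, hr⟩ := (surj' L c' φ₀ a.1 a.2.1 a.2.2.1 a.2.2.2).1 D
  have hr' : Rel φ₀ D r := hr
  have hpi : (Real.pi : ℂ) ≠ 0 := Complex.ofReal_ne_zero.2 Real.pi_ne_zero
  have h1 : lg φ₀ D r (one L) ≠ 0 := by
    rw [lg_one hr']
    exact div_ne_zero hD hpi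
  refine p1 (eq_top_iff.2 fun n _ => ?_)
  have h2 := p2 (n - (n (one L) / lg φ₀ D r (one L)) • lg φ₀ D r) fun g hg => by
    have e : g = g.1 φ₀ • one L := by
      apply pbT_inj φ₀
      funext σ
      rw [h _ hg σ (RingEquiv.refl ℂ), map_smul]
      exact (mul_one _).symm
    rw [e, map_smul, LinearMap.sub_apply, LinearMap.smul_apply, smul_eq_mul,
      div_mul_cancel₀ _ h1, sub_self, smul_zero]
  have h3 : lg φ₀ D r ∈ SS φ₀ := subset_span ⟨D, r, hr', rfl⟩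
  simpa using add_mem h2 (smul_mem _ (n (one L) / lg φ₀ D r (one L)) h3)

theorem odd_le : Exc.Odd ≤ TT := fun f hf => ⟨0, fun σ => by rw [hf σ, add_neg_cancel]⟩

theorem exists_min : ∃ U : Submodule ℚ ((ℂ ≃+* ℂ) → ℚ), U ≤ TT ∧
    (∃ f ∈ U, ∃ σ : ℂ ≃+* ℂ, f σ + f (σ.trans starRingAut) ≠ 0) ∧
    (∃ f ∈ U, ∃ σ τ : ℂ ≃+* ℂ, f σ ≠ f τ) ∧ (∀ W, Cm W → U ≤ W) ∧ (Cm U ∨ U = TT) := by
  classical
  by_cases h : ∃ n, ∃ W, Cm W ∧ finrank ℚ W = n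
  · obtain ⟨U, hU, e⟩ := Nat.find_spec h
    have m : ∀ W, Cm (U ⊓ W) → U ≤ W := fun W hW => by
      have := hU.1
      have a := Nat.find_min' h ⟨_, hW, rfl⟩
      exact inf_eq_left.1 (eq_of_le_of_finrank_le inf_le_left (e ▸ a))
    exact ⟨U, m _ hU.tt, hU.weight, hU.nonconst, fun W hW => m W (hU.inf hW), Or.inl hU⟩
  · refine ⟨TT, le_rfl, ⟨fun _ => 1, ⟨2, fun _ => by norm_num⟩, RingEquiv.refl ℂ, by norm_num⟩,
      ?_, fun W hW => (h ⟨_, W, hW, rfl⟩).elim, Or.inr rfl⟩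
    by_contra a
    push Not at a
    refine odd_not_le (L := ℚ) (algebraMap ℚ ℂ) fun f hf => ?_
    exact ⟨fun _ => f (RingEquiv.refl ℂ), funext fun σ => a f (odd_le hf) _ _⟩

end Mot

open Mot in
theorem mot : ∃ U : Submodule ℚ ((ℂ ≃+* ℂ) → ℚ),
    (∀ f ∈ U, ∃ w, ∀ σ : ℂ ≃+* ℂ, f σ + f (σ.trans starRingAut) = w) ∧
    (∃ f ∈ U, ∃ σ : ℂ ≃+* ℂ, f σ + f (σ.trans starRingAut) ≠ 0) ∧
    (∃ f ∈ U, ∃ σ τ : ℂ ≃+* ℂ, f σ ≠ f τ) ∧
    ∀ (d M : ℕ) (A : AbVar d M) (E : Type) [CommRing E] [Algebra ℚ E]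
      [Module.Finite ℚ E] (c : E →+* E),
      (∀ (ψ : E →+* ℂ) (x : E), ψ (c x) = starRingEnd ℂ (ψ x)) → ∀ (φ : Fin d → E →+* ℂ),
      (∀ ψ : E →+* ℂ, ψ ∈ Set.range φ ↔ (starRingEnd ℂ).comp ψ ∉ Set.range φ) →
      ∀ (ω : Fin d → ℂ), (∀ y ∈ A.Λ, ∃ x : E, y = fun k => φ k x * ω k) →
      ∀ (ι : Type) [Finite ι] (a : ι → Fin d → ℤ) (b : ι → ℤ),
      (¬ U ≤ ch φ a b → Algebra.trdeg ℚ (IntermediateField.adjoin ℚ
        (Set.range fun i => (Real.pi : ℂ) ^ b i * ∏ k, ω k ^ a i k)) =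
          (finrank ℚ (ch φ a b) : ℕ)) ∧
      (U ≤ ch φ a b → Algebra.trdeg ℚ (IntermediateField.adjoin ℚ
        (Set.range fun i => (Real.pi : ℂ) ^ b i * ∏ k, ω k ^ a i k)) + 1 =
          (finrank ℚ (ch φ a b) : ℕ)) := by
  classical
  obtain ⟨U, u1, u2, u3, u4, u5⟩ := Mot.exists_min
  refine ⟨U, u1, u2, u3, fun d M A E _ _ _ c hc φ hφ ω hω ι _ a b => ?_⟩
  obtain ⟨L₀, _, _, c₀, χ, g₀, r₀⟩ := exists_fld E c hc
  obtain ⟨z, n, n1, n2⟩ := core g₀ χ A φ hφ ω hω r₀ a b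
  have tr : ∀ (L : Type) [Field L] [NumberField L] (c' : L ≃ₐ[ℚ] L) (φ₀ : Emb L), Good c' →
      Rec φ₀ E → (NF (SS φ₀) ((ch φ a b).comap (pbT φ₀)) ↔
        NF (SS χ) ((ch φ a b).comap (pbT χ))) := fun L _ _ c' φ₀ g r => by
    obtain ⟨-, m, m1, m2⟩ := core g φ₀ A φ hφ ω hω r a b
    have e : m = n := by exact_mod_cast m1.symm.trans n1
    rw [← n2, e] at m2
    by_cases p : NF (SS φ₀) ((ch φ a b).comap (pbT φ₀)) <;>
      by_cases q : NF (SS χ) ((ch φ a b).comap (pbT χ)) <;> simp_all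
  have h2 : NF (SS χ) ((ch φ a b).comap (pbT χ)) ↔ U ≤ ch φ a b := by
    refine ⟨fun h => u4 _ ⟨FiniteDimensional.span_of_finite ℚ (Set.finite_range _), E,
      inferInstance, inferInstance, inferInstance, c, hc,
      fun L _ _ c' φ₀ g r => (tr L c' φ₀ g r).2 h⟩, fun h => ?_⟩
    rcases u5 with ⟨-, E', _, _, _, c', hc', p⟩ | rfl
    · obtain ⟨L, _, _, e, φ₀, g, r⟩ := exists_fld (E × E') _ (prod_conj c c' hc hc')
      exact (tr L e φ₀ g fun ψ x => r (ψ.comp (RingHom.fst E E')) (x, 0)).1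
        ((p L e φ₀ g fun ψ x => r (ψ.comp (RingHom.snd E E')) (0, x)).mono (comap_mono h))
    · exact (odd_not_le χ (odd_le.trans (h.trans z))).elim
  rw [n1, ← n2, ← h2]
  exact ⟨fun h => by rw [if_neg h, add_zero], fun h => by rw [if_pos h, Nat.cast_add, Nat.cast_one]⟩

end Pool.Agent.Lib.MP_caab05_ag.CM
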