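import Mathlib
import Pool.Agent.Lib.MP_caab05_ag.LT.Defs
import Pool.Agent.Lib.MP_caab05_ag.CM.Mot

/-! All monomials in `π` and the periods of abelian varieties with complex multiplication. -/

namespace Pool.Agent.Lib.MP_caab05_ag.CM.Motives

open Pool.Agent.Lib.MP_caab05_ag.LT

/-- There is one space `U` of functions on the automorphisms of the complex numbers, whose
elements have a weight, not all of weight zero and not all constant, with the following property.
Let `A` be an abelian variety over the algebraic numbers with complex multiplication by an algebra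
`E` with complex conjugation `c`, of type `φ`, written in a basis of eigenvectors of its Lie
algebra, so that the periods are the vectors `(φ k x * ω k)`.  Take any finite family of Laurent
monomials in `π` and the `ω k`, and let `W` be the span of their characters.  Then the
transcendence degree of the field generated by the monomials is the dimension of `W` if `W` does
not contain `U`, and one less if it does. -/
theorem result : ∃ U : Submodule ℚ ((ℂ ≃+* ℂ) → ℚ),
    (∀ f ∈ U, ∃ w : ℚ, ∀ σ : ℂ ≃+* ℂ, f σ + f (σ.trans starRingAut) = w) ∧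
    (∃ f ∈ U, ∃ σ : ℂ ≃+* ℂ, f σ + f (σ.trans starRingAut) ≠ 0) ∧
    (∃ f ∈ U, ∃ σ τ : ℂ ≃+* ℂ, f σ ≠ f τ) ∧
    ∀ (d M : ℕ) (A : AbVar d M) (E : Type) [CommRing E] [Algebra ℚ E]
      [Module.Finite ℚ E] (c : E →+* E),
      (∀ (ψ : E →+* ℂ) (x : E), ψ (c x) = starRingEnd ℂ (ψ x)) → ∀ (φ : Fin d → E →+* ℂ),
      (∀ ψ : E →+* ℂ, ψ ∈ Set.range φ ↔ (starRingEnd ℂ).comp ψ ∉ Set.range φ) →
      ∀ (ω : Fin d → ℂ), (∀ y ∈ A.Λ, ∃ x : E, y = fun k => φ k x * ω k) →
      ∀ (ι : Type) [Finite ι] (a : ι → Fin d → ℤ) (b : ι → ℤ)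
        (W : Submodule ℚ ((ℂ ≃+* ℂ) → ℚ)),
        W = Submodule.span ℚ (Set.range fun (i : ι) (σ : ℂ ≃+* ℂ) => (b i : ℚ) + ∑ k, (a i k : ℚ) *
          (Set.range φ).indicator (fun _ => (1 : ℚ)) ((σ : ℂ →+* ℂ).comp (φ k))) →
        (¬ U ≤ W → Algebra.trdeg ℚ (IntermediateField.adjoin ℚ
          (Set.range fun i => (Real.pi : ℂ) ^ b i * ∏ k, ω k ^ a i k)) =
            (Module.finrank ℚ W : ℕ)) ∧
        (U ≤ W → Algebra.trdeg ℚ (IntermediateField.adjoin ℚ
          (Set.range fun i => (Real.pi : ℂ) ^ b i * ∏ k, ω k ^ a i k)) + 1 =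
            (Module.finrank ℚ W : ℕ)) := by
  obtain ⟨U, u1, u2, u3, h⟩ := Pool.Agent.Lib.MP_caab05_ag.CM.mot
  refine ⟨U, u1, u2, u3, fun d M A E _ _ _ c hc φ hφ ω hω ι _ a b W hW => ?_⟩
  subst hW
  exact h d M A E c hc φ hφ ω hω ι a b

end Pool.Agent.Lib.MP_caab05_ag.CM.Motives
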